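import Pool.Agent.Helper749.Bi.Basic

open MeasureTheory Metric Set Filter Topology
open scoped ENNReal NNReal RealInnerProductSpace ContDiff Convolution

set_option linter.unusedSectionVars false

namespace Pool.Agent.Helper749.Bi

variable {n : ℕ}

/-- averaging over translates -/
noncomputable def Av (σ : Measure (E n)) (k : E n → ℝ) (x : E n) : ℝ := ∫ t, k (x - t) ∂σ

variable {σ : Measure (E n)} [IsProbabilityMeasure σ]

theorem Av_integrable {k : E n → ℝ} (hk : Continuous k) {M : ℝ} (hM : ∀ x, |k x| ≤ M) (x : E n) :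
    Integrable (fun t => k (x - t)) σ :=
  Integrable.of_bound ((hk.comp (by fun_prop)).aestronglyMeasurable) M
    (Eventually.of_forall fun t => by simpa using hM (x - t))

theorem Tst.av_int {k : E n → ℝ} (hk : Tst k) (x : E n) : Integrable (fun t => k (x - t)) σ := by
  obtain ⟨M, -, hM⟩ := hk.bound
  exact Av_integrable hk.1.continuous hM x

theorem Av_smooth {k : E n → ℝ} (hk : Tst k) : ContDiff ℝ ∞ (Av σ k) := by
  have h := hk.2.contDiff_convolution_right (ContinuousLinearMap.mul ℝ ℝ) (μ := σ)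
    (f := fun _ => (1 : ℝ)) (n := (⊤ : ℕ∞)) (locallyIntegrable_const 1) hk.1
  have e : ((fun _ => (1 : ℝ)) ⋆[ContinuousLinearMap.mul ℝ ℝ, σ] k) = Av σ k := by
    funext x
    simp [convolution, Av]
  rwa [e] at h

theorem Av_support {k : E n → ℝ} {r : ℝ} (hr : ∀ x, r ≤ ‖x‖ → k x = 0)
    (hσ : ∀ᵐ t ∂σ, ‖t‖ = 1) {x : E n} (hx : r + 1 ≤ ‖x‖) : Av σ k x = 0 := by
  unfold Av
  apply integral_eq_zero_of_ae
  filter_upwards [hσ] with t ht
  apply hr
  have := norm_sub_norm_le x t
  rw [ht] at this
  linarith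

theorem Tst.rad {k : E n → ℝ} (hk : Tst k) : ∃ r : ℝ, 0 < r ∧ ∀ x, r ≤ ‖x‖ → k x = 0 := by
  obtain ⟨r, hr⟩ := hk.2.isBounded.subset_closedBall (0 : E n)
  refine ⟨max r 0 + 1, by positivity, fun x hx => ?_⟩
  by_contra h
  have h1 : x ∈ tsupport k := subset_tsupport _ h
  have h2 := hr h1
  simp only [mem_closedBall, dist_zero_right] at h2
  have := le_max_left r 0
  linarith

theorem Tst_of_rad {k : E n → ℝ} (hk : ContDiff ℝ ∞ k) {r : ℝ} (hr : ∀ x, r ≤ ‖x‖ → k x = 0) :
    Tst k := by
  refine ⟨hk, HasCompactSupport.intro (isCompact_closedBall (0 : E n) r) fun x hx => ?_⟩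
  apply hr
  simp only [mem_closedBall, dist_zero_right, not_le] at hx
  exact hx.le

theorem Av_tst {k : E n → ℝ} (hk : Tst k) (hσ : ∀ᵐ t ∂σ, ‖t‖ = 1) : Tst (Av σ k) := by
  obtain ⟨r, -, hr⟩ := hk.rad
  exact Tst_of_rad (Av_smooth hk) (fun x hx => Av_support hr hσ hx)

theorem Av_pd {k : E n → ℝ} (hk : Tst k) (i : Fin n) : pd i (Av σ k) = Av σ (pd i k) := by
  funext x
  have hc : HasCompactSupport (fderiv ℝ k) := hk.2.fderiv ℝ
  have hcont : Continuous (fderiv ℝ k) := hk.1.continuous_fderiv (by simp)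
  obtain ⟨M, hM⟩ := hc.exists_bound_of_continuous hcont
  have h := hasFDerivAt_integral_of_dominated_of_fderiv_le (μ := σ) (F := fun x t => k (x - t))
    (F' := fun x t => fderiv ℝ k (x - t)) (x₀ := x) (bound := fun _ => M) (s := univ)
    univ_mem (Eventually.of_forall fun y => (hk.av_int y).aestronglyMeasurable) (hk.av_int x)
    ((hcont.comp (by fun_prop)).aestronglyMeasurable)
    (Eventually.of_forall fun t y _ => hM _) (integrable_const M)
    (Eventually.of_forall fun t y _ => by
      have h1 := (dif hk.1 (y - t)).hasFDerivAt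
      have h2 : HasFDerivAt (fun y : E n => y - t) (ContinuousLinearMap.id ℝ (E n)) y :=
        (hasFDerivAt_id y).sub_const t
      have h3 := h1.comp y h2
      simpa using! h3)
  have e : Av σ k = fun x => ∫ t, k (x - t) ∂σ := rfl
  unfold pd
  rw [e, h.fderiv]
  unfold Av
  rw [ContinuousLinearMap.integral_apply]
  exact Integrable.of_bound ((hcont.comp (by fun_prop)).aestronglyMeasurable) M
    (Eventually.of_forall fun t => hM _)

theorem Av_lap {k : E n → ℝ} (hk : Tst k) : lap (Av σ k) = Av σ (lap k) := by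
  rw [lap_eq (Av_smooth hk), lap_eq hk.1]
  funext x
  simp only [Av_pd hk, Av_pd (hk.pd _)]
  unfold Av
  rw [integral_finsetSum _ (fun i _ => ((hk.pd i).pd i).av_int x)]

theorem Av_bilap {k : E n → ℝ} (hk : Tst k) : bilap (Av σ k) = Av σ (bilap k) := by
  rw [bilap_eq (Av_smooth hk), bilap_eq hk.1, Av_lap hk, Av_lap hk.lap]

theorem Av_sub {k l : E n → ℝ} (hk : Tst k) (hl : Tst l) :
    Av σ (fun x => k x - l x) = fun x => Av σ k x - Av σ l x := by
  funext x
  unfold Av
  exact integral_sub (hk.av_int x) (hl.av_int x)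

theorem Av_L1 {h : E n → ℝ} (hh : Tst h) (hσ : ∀ᵐ t ∂σ, ‖t‖ = 1) :
    ∫ x, |Av σ h x| ≤ ∫ x, |h x| := by
  have hA : Tst (Av σ h) := Av_tst hh hσ
  rw [integral_eq_lintegral_of_nonneg_ae (Eventually.of_forall fun x => abs_nonneg _)
    hA.integrable.abs.aestronglyMeasurable,
    integral_eq_lintegral_of_nonneg_ae (Eventually.of_forall fun x => abs_nonneg _)
    hh.integrable.abs.aestronglyMeasurable]
  apply ENNReal.toReal_mono
  · have := hh.integrable.abs.lintegral_lt_top
    exact this.ne
  · calc ∫⁻ x, ENNReal.ofReal |Av σ h x| ≤ ∫⁻ x, ∫⁻ t, ENNReal.ofReal |h (x - t)| ∂σ := by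
          apply lintegral_mono
          intro x
          have h1 : |Av σ h x| ≤ ∫ t, |h (x - t)| ∂σ := abs_integral_le_integral_abs
          refine (ENNReal.ofReal_le_ofReal h1).trans ?_
          rw [ofReal_integral_eq_lintegral_ofReal (hh.av_int x).abs
            (Eventually.of_forall fun t => abs_nonneg _)]
      _ = ∫⁻ t, (∫⁻ x, ENNReal.ofReal |h (x - t)|) ∂σ := by
          apply lintegral_lintegral_swap
          apply Measurable.aemeasurable
          have : Continuous (fun p : E n × E n => |h (p.1 - p.2)|) :=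
            (hh.1.continuous.comp (by fun_prop)).abs
          exact this.measurable.ennreal_ofReal
      _ = ∫⁻ t, (∫⁻ x, ENNReal.ofReal |h x|) ∂σ := by
          apply lintegral_congr
          intro t
          exact lintegral_sub_right_eq_self (fun x => ENNReal.ofReal |h x|) t
      _ = ∫⁻ x, ENNReal.ofReal |h x| := by simp

theorem Av_fubini {h φ : E n → ℝ} (hh : Tst h) (hφ : Tst φ) :
    ∫ x, Av σ h x * φ x = ∫ t, (∫ z, h z * φ (z + t)) ∂σ := by
  obtain ⟨M, hM0, hM⟩ := hh.bound
  have e1 : ∀ x, Av σ h x * φ x = ∫ t, h (x - t) * φ x ∂σ := by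
    intro x
    unfold Av
    rw [integral_mul_const]
  simp only [e1]
  rw [integral_integral_swap]
  · congr 1
    funext t
    have := integral_sub_right_eq_self (μ := (volume : Measure (E n)))
      (fun z => h z * φ (z + t)) t
    rw [← this]
    simp
  · have h2 : Integrable (fun p : E n × E n => (M * |φ p.1|) * 1) (volume.prod σ) :=
      Integrable.mul_prod (hφ.integrable.abs.const_mul M) (integrable_const (1 : ℝ))
    refine h2.mono' ?_ ?_
    · apply Continuous.aestronglyMeasurable
      have h3 := hh.1.continuous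
      have h4 := hφ.1.continuous
      exact (h3.comp (by fun_prop)).mul (h4.comp (by fun_prop))
    · refine Eventually.of_forall fun p => ?_
      simp only [Function.uncurry, Real.norm_eq_abs, abs_mul, mul_one]
      gcongr
      exact hM _

end Pool.Agent.Helper749.Bi
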