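import Pool.Agent.Helper749.Bi.Cut3
import Pool.Agent.Helper749.Bi.Av

open MeasureTheory Metric Set Filter Topology
open scoped ENNReal NNReal RealInnerProductSpace ContDiff

set_option linter.unusedSectionVars false

namespace Pool.Agent.Helper749.Bi

variable {a : ℕ}

/-- finite linear combinations of good sequences with small coefficients -/
theorem small_comb (R : Finset ℝ) {e : ℝ → ℕ → X a → ℝ} {F : ℝ → X a → ℝ}
    (h : ∀ r ∈ R, GS (e r) (F r)) : ∀ δ : ℝ, 0 < δ → ∃ δ' : ℝ, 0 < δ' ∧ ∀ c : ℝ → ℝ,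
    (∀ r ∈ R, |c r| ≤ δ') →
      GS (fun j x => ∑ r ∈ R, c r * e r j x) (fun x => ∑ r ∈ R, c r * F r x) ∧
      (∀ᶠ j in atTop, En (fun x => ∑ r ∈ R, c r * e r j x) ≤ δ) ∧
      ∀ x, |∑ r ∈ R, c r * F r x| ≤ δ := by
  induction R using Finset.induction_on with
  | empty =>
    intro δ hδ
    refine ⟨1, one_pos, fun c _ => ?_⟩
    simp only [Finset.sum_empty]
    have h0 : GS (fun _ : ℕ => fun _ : X a => (0 : ℝ)) (fun _ => 0) :=
      GS.const Tst.zero (fun _ _ _ _ => rfl)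
    refine ⟨h0, Eventually.of_forall fun j => ?_, fun x => by simpa using hδ.le⟩
    have h1 := En_cmul (Tst.zero (n := 2 * a + 4)) 0
    simp only [mul_zero, ne_eq, OfNat.ofNat_ne_zero, not_false_eq_true, zero_pow, zero_mul] at h1
    rw [h1]
    exact hδ.le
  | insert r R hr ih =>
    intro δ hδ
    have hR := ih (fun r hr => h r (Finset.mem_insert_of_mem hr))
    have hr' := h r (Finset.mem_insert_self r R)
    obtain ⟨δ1, hδ1, h1⟩ := hR (δ / 4) (by positivity)
    obtain ⟨C, hC0, hC⟩ := hr'.enb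
    obtain ⟨M, hM0, hM⟩ := hr'.bound
    have hpos : 0 < min (δ / (4 * (C + 1))) (δ / (2 * (M + 1))) := by positivity
    refine ⟨min (min δ1 1) (min (δ / (4 * (C + 1))) (δ / (2 * (M + 1)))), by positivity,
      fun c hc => ?_⟩
    have hcr := hc r (Finset.mem_insert_self r R)
    obtain ⟨g1, g2, g3⟩ := h1 c (fun s hs => (hc s (Finset.mem_insert_of_mem hs)).trans
      ((min_le_left _ _).trans (min_le_left _ _)))
    have hc1 : |c r| ≤ 1 := hcr.trans ((min_le_left _ _).trans (min_le_right _ _))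
    have hc2 : |c r| ≤ δ / (4 * (C + 1)) := hcr.trans ((min_le_right _ _).trans (min_le_left _ _))
    have hc3 : |c r| ≤ δ / (2 * (M + 1)) := hcr.trans ((min_le_right _ _).trans (min_le_right _ _))
    simp only [Finset.sum_insert hr]
    refine ⟨(hr'.cmul (c r)).add g1, ?_, fun x => ?_⟩
    · filter_upwards [hC, g2] with j hj1 hj2
      have b1 := En_add ((hr'.tst j).cmul (c r)) (g1.tst j)
      rw [En_cmul (hr'.tst j)] at b1
      have b2 : (c r) ^ 2 ≤ δ / (4 * (C + 1)) := by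
        rw [← sq_abs]
        nlinarith [abs_nonneg (c r)]
      have b3 : (c r) ^ 2 * En (e r j) ≤ δ / (4 * (C + 1)) * C := by
        have := En_nonneg (e r j)
        gcongr
      have b4 : δ / (4 * (C + 1)) * C ≤ δ / 4 := by
        rw [div_mul_eq_mul_div, div_le_div_iff₀ (by positivity) (by positivity)]
        nlinarith
      linarith
    · have b1 := hM x
      have b2 := g3 x
      calc |c r * F r x + ∑ s ∈ R, c s * F s x| ≤ |c r * F r x| + |∑ s ∈ R, c s * F s x| :=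
            abs_add_le _ _
        _ ≤ δ / (2 * (M + 1)) * M + δ / 4 := by
            rw [abs_mul]
            gcongr
        _ ≤ δ := by
            have : δ / (2 * (M + 1)) * M ≤ δ / 2 := by
              rw [div_mul_eq_mul_div, div_le_div_iff₀ (by positivity) (by positivity)]
              nlinarith
            linarith

/-- bump functions separating the spheres -/
theorem bumps (R : Finset ℝ) (hR : ∀ r ∈ R, 0 < r) (r : ℝ) (hr : 0 < r) : ∃ B : X a → ℝ, Tst B ∧ Inv B ∧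
    (∀ x ∈ Kr a r, B x = 1) ∧ ∀ r' ∈ R, r' ≠ r → ∀ x ∈ Kr a r', B x = 0 := by
  set S : Set ℝ := ((((R.erase r).image (fun s => s ^ 2)) : Finset ℝ) : Set ℝ) with hS
  have hc : IsClosed S := (Finset.finite_toSet _).isClosed
  have hn : r ^ 2 ∉ S := by
    rw [hS]
    simp only [Finset.coe_image, mem_image, Finset.mem_coe, Finset.mem_erase, not_exists, not_and]
    intro s hs h
    have h1 := hR s hs.2
    exact hs.1 ((sq_eq_sq₀ h1.le hr.le).1 h)
  obtain ⟨g, hg1, hg2, hg3, hg4, hg5⟩ := exists_contDiff_tsupport_subset (n := ⊤)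
    (hc.isOpen_compl.mem_nhds hn)
  refine ⟨fun x => g (‖x‖ ^ 2), ?_, ?_, ?_, ?_⟩
  · obtain ⟨M, hM⟩ := hg2.isBounded.subset_closedBall (0 : ℝ)
    refine Tst_of_rad (r := max M 0 + 1) (hg3.comp (contDiff_norm_sq ℝ)) (fun x hx => ?_)
    by_contra h
    have h1 : ‖x‖ ^ 2 ∈ tsupport g := subset_tsupport _ h
    have h2 := hM h1
    simp only [mem_closedBall, dist_zero_right, Real.norm_eq_abs] at h2
    rw [abs_of_nonneg (by positivity)] at h2
    have h3 := le_max_left M 0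
    have h4 := le_max_right M 0
    nlinarith
  · intro x y _ h
    simp only [h]
  · intro x hx
    simp only [hx.2]
    exact hg5
  · intro r' hr' hne x hx
    simp only [hx.2]
    apply image_eq_zero_of_notMem_tsupport
    intro h
    apply hg1 h
    rw [hS]
    simp only [Finset.coe_image, mem_image, Finset.mem_coe, Finset.mem_erase]
    exact ⟨r', ⟨hne, hr'⟩, rfl⟩

/-- cutting at finitely many spheres -/
theorem cutR (R : Finset ℝ) (hR : ∀ r ∈ R, 0 < r) : ∀ v : X a → ℝ, Tst v →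
    (∀ r ∈ R, ∀ x ∈ Kr a r, v x = 0) → ∀ δ : ℝ, 0 < δ → ∃ φ : X a → ℝ, Tst φ ∧
      En (fun x => φ x - v x) ≤ δ ∧ (∀ x, v x = 0 → φ x = 0) ∧
      (∀ r ∈ R, ∃ η : ℝ, 0 < η ∧ ∀ x : X a, qr r x < η → φ x = 0) ∧
      (∀ x : X a, (∀ r ∈ R, δ ≤ qr r x) → φ x = v x) := by
  induction R using Finset.induction_on with
  | empty =>
    intro v hv _ δ hδ
    refine ⟨v, hv, ?_, fun x h => h, by simp, fun x _ => rfl⟩
    have h1 := En_cmul hv 0
    simp only [zero_mul, ne_eq, OfNat.ofNat_ne_zero, not_false_eq_true, zero_pow] at h1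
    simp only [sub_self]
    rw [h1]
    exact hδ.le
  | insert r R hr ih =>
    intro v hv h0 δ hδ
    obtain ⟨χ, hχ, hχ1, ⟨η, hη, hχ2⟩, hχ3⟩ := cutK (hR r (Finset.mem_insert_self r R)) hv
      (h0 r (Finset.mem_insert_self r R)) (δ / 4) (by positivity)
    have hv1 : Tst (fun x => χ x * v x) := Tst.mul_left hχ hv
    obtain ⟨φ, hφ, hφ1, hφ2, hφ3, hφ4⟩ := ih (fun s hs => hR s (Finset.mem_insert_of_mem hs))
      (fun x => χ x * v x) hv1 (fun s hs x hx => by
        simp only [h0 s (Finset.mem_insert_of_mem hs) x hx, mul_zero]) (δ / 4) (by positivity)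
    refine ⟨φ, hφ, ?_, fun x hx => hφ2 x (by simp [hx]), fun s hs => ?_, fun x hx => ?_⟩
    · have := En_tri hφ hv1 hv
      linarith
    · rcases Finset.mem_insert.1 hs with h | h
      · subst h
        exact ⟨η, hη, fun x hx => hφ2 x (by rw [hχ2 x hx, zero_mul])⟩
      · exact hφ3 s h
    · rw [hφ4 x (fun s hs => by have := hx s (Finset.mem_insert_of_mem hs); linarith),
        hχ3 x (by have := hx r (Finset.mem_insert_self r R); linarith), one_mul]

/-- approximants -/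
theorem approx (ha : 0 < a) (R : Finset ℝ) (hR : ∀ r ∈ R, 0 < r) {s : ℕ → X a → ℝ} {w : X a → ℝ}
    (hs : GS s w) (h0 : ∀ r ∈ R, ∀ x ∈ Kr a r, w x = 0) {δ : ℝ} (hδ : 0 < δ) :
    ∃ φ : X a → ℝ, Tst φ ∧ (∀ r ∈ R, ∃ η : ℝ, 0 < η ∧ ∀ x : X a, qr r x < η → φ x = 0) ∧
      (∃ b : ℝ, 0 < b ∧ ∀ x, ‖x‖ ≤ b → φ x = 0) ∧
      (∀ᶠ j in atTop, En (fun x => s j x - φ x) ≤ δ) ∧
      (∀ x : X a, (∀ r ∈ R, δ ≤ qr r x) → δ ≤ ‖x‖ ^ 2 → |φ x - w x| ≤ δ) := by
  have hB : ∀ r : ℝ, ∃ B : X a → ℝ, r ∈ R → (Tst B ∧ Inv B ∧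
    (∀ x ∈ Kr a r, B x = 1) ∧ ∀ r' ∈ R, r' ≠ r → ∀ x ∈ Kr a r', B x = 0) := by
    intro r
    by_cases h : r ∈ R
    · obtain ⟨B, hB⟩ := bumps (a := a) R hR r (hR r h)
      exact ⟨B, fun _ => hB⟩
    · exact ⟨fun _ => 0, fun h' => absurd h' h⟩
  choose B hB using hB
  set δ1 := δ / 32 with hδ1
  have hδ1p : 0 < δ1 := by positivity
  obtain ⟨δ', hδ', hcomb⟩ := small_comb R (e := fun r _ => B r) (F := B)
    (fun r hr => GS.const (hB r hr).1 (hB r hr).2.1) δ1 hδ1p
  obtain ⟨J1, hJ1⟩ := hs.unif (min δ' δ1) (by positivity)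
  obtain ⟨J2, hJ2⟩ := hs.cau δ1 hδ1p
  set J := max J1 J2 with hJ
  have hJu := hJ1 J (le_max_left _ _)
  obtain ⟨g1, g2, g3⟩ := hcomb (fun r => s J (pr a r)) (fun r hr => by
    have h1 := hJu (pr a r)
    rw [h0 r hr (pr a r) (pr_mem (hR r hr).le), sub_zero] at h1
    exact h1.trans (min_le_left _ _))
  obtain ⟨j0, hj0⟩ := g2.exists
  set Z : X a → ℝ := fun x => ∑ r ∈ R, s J (pr a r) * B r x with hZ
  have hZt : Tst Z := g1.tst 0
  have hvt : Tst (fun x => s J x - Z x) := (hs.tst J).sub hZt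
  have hv0 : ∀ r ∈ R, ∀ x ∈ Kr a r, s J x - Z x = 0 := by
    intro r hr x hx
    have e1 : Z x = s J (pr a r) := by
      rw [hZ]
      simp only
      rw [Finset.sum_eq_single r]
      · rw [(hB r hr).2.2.1 x hx, mul_one]
      · intro r' hr' hne
        rw [(hB r' hr').2.2.2 r hr (Ne.symm hne) x hx, mul_zero]
      · intro h; exact absurd hr h
    rw [e1, (hs.inv J).eq (hR r hr).le hx, sub_self]
  obtain ⟨φ1, p1, p2, p3, p4, p5⟩ := cutR R hR _ hvt hv0 δ1 hδ1p
  obtain ⟨χ, c1, c2, ⟨η, hη, c3⟩, c4⟩ := cut0 ha p1 δ1 hδ1p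
  have hφt : Tst (fun x => χ x * φ1 x) := Tst.mul_left c1 p1
  refine ⟨fun x => χ x * φ1 x, hφt, fun r hr => ?_, ⟨min 1 (η / 2), by positivity, fun x hx => ?_⟩,
    ?_, fun x hx1 hx2 => ?_⟩
  · obtain ⟨η', h1, h2⟩ := p4 r hr
    exact ⟨η', h1, fun x hx => by simp only [h2 x hx, mul_zero]⟩
  · have : χ x = 0 := by
      apply c3 x
      have h1 : ‖x‖ ≤ 1 := hx.trans (min_le_left _ _)
      have h2 : ‖x‖ ≤ η / 2 := hx.trans (min_le_right _ _)
      nlinarith [norm_nonneg x]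
    simp only [this, zero_mul]
  · filter_upwards [eventually_ge_atTop J2] with j hj
    have e1 := hJ2 j hj J (le_max_right _ _)
    have e2 : En (fun x => s J x - (s J x - Z x)) ≤ δ1 := by
      have : (fun x => s J x - (s J x - Z x)) = Z := by funext x; ring
      rw [this]
      exact hj0
    have e3 : En (fun x => (s J x - Z x) - φ1 x) ≤ δ1 := by
      rw [En_sub_comm hvt p1]; exact p2
    have e4 : En (fun x => φ1 x - χ x * φ1 x) ≤ δ1 := by
      rw [En_sub_comm p1 hφt]; exact c2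
    have t1 := En_tri hvt p1 hφt
    have t2 := En_tri (hs.tst J) hvt hφt
    have t3 := En_tri (hs.tst j) (hs.tst J) hφt
    rw [hδ1] at *
    linarith
  · simp only
    rw [c4 x (by linarith), one_mul, p5 x (fun r hr => by have := hx1 r hr; linarith)]
    have e1 := (hJu x).trans (min_le_right _ _)
    have e2 := g3 x
    have : s J x - Z x - w x = (s J x - w x) - Z x := by ring
    rw [this]
    calc |s J x - w x - Z x| ≤ |s J x - w x| + |Z x| := abs_sub _ _
      _ ≤ δ := by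
        have : |Z x| ≤ δ1 := e2
        linarith

end Pool.Agent.Helper749.Bi
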