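import Mathlib

open MeasureTheory Metric Set Filter Topology
open scoped ENNReal NNReal RealInnerProductSpace ContDiff

set_option linter.unusedSectionVars false

namespace Pool.Agent.Helper749.Bi

/-- Euclidean space -/
abbrev E (n : ℕ) : Type := EuclideanSpace ℝ (Fin n)

variable {n : ℕ}

/-- unit vector -/
noncomputable abbrev ev (i : Fin n) : E n := EuclideanSpace.single i (1 : ℝ)

/-- partial derivative -/
noncomputable def pd (i : Fin n) (f : E n → ℝ) : E n → ℝ := fun x => fderiv ℝ f x (ev i)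

/-- Laplacian, in the format of the frozen statement -/
noncomputable def lap (f : E n → ℝ) (x : E n) : ℝ := ∑ i : Fin n, iteratedFDeriv ℝ 2 f x ![ev i, ev i]

/-- bi-Laplacian, in the format of the frozen statement -/
noncomputable def bilap (f : E n → ℝ) (x : E n) : ℝ :=
  ∑ i : Fin n, ∑ j : Fin n, iteratedFDeriv ℝ 4 f x ![ev i, ev i, ev j, ev j]

theorem pd_smooth {f : E n → ℝ} (hf : ContDiff ℝ ∞ f) (i : Fin n) : ContDiff ℝ ∞ (pd i f) := by
  unfold pd
  exact (hf.fderiv_right (by simp)).clm_apply contDiff_const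

theorem iter2_eq {f : E n → ℝ} (hf : ContDiff ℝ ∞ f) (i j : Fin n) (x : E n) :
    iteratedFDeriv ℝ 2 f x ![ev i, ev j] = pd i (pd j f) x := by
  rw [iteratedFDeriv_two_apply]
  simp only [Matrix.cons_val_zero, Matrix.cons_val_one]
  unfold pd
  have h1 : ContDiff ℝ ∞ (fderiv ℝ f) := hf.fderiv_right (by simp)
  have h2 : DifferentiableAt ℝ (fderiv ℝ f) x := (h1.differentiable (by simp)) x
  rw [fderiv_clm_apply h2 (differentiableAt_const _)]
  simp

theorem lap_eq {f : E n → ℝ} (hf : ContDiff ℝ ∞ f) : lap f = fun x => ∑ i, pd i (pd i f) x := by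
  funext x
  unfold lap
  exact Finset.sum_congr rfl (fun i _ => iter2_eq hf i i x)

theorem lap_smooth {f : E n → ℝ} (hf : ContDiff ℝ ∞ f) : ContDiff ℝ ∞ (lap f) := by
  rw [lap_eq hf]
  exact ContDiff.sum (fun i _ => pd_smooth (pd_smooth hf i) i)

theorem iter4_eq {f : E n → ℝ} (hf : ContDiff ℝ ∞ f) (i j k l : Fin n) (x : E n) :
    iteratedFDeriv ℝ 4 f x ![ev i, ev j, ev k, ev l] = pd i (pd j (pd k (pd l f))) x := by
  have key : ∀ (m : ℕ) (x : E n) (v : Fin m → E n) (w : E n) (u : E n),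
      iteratedFDeriv ℝ (m + 1) f x (Fin.cons w v) = fderiv ℝ (fun y => iteratedFDeriv ℝ m f y v) x w := by
    intro m x v w u
    rw [iteratedFDeriv_succ_apply_left]
    simp only [Fin.cons_zero, Fin.tail_cons]
    have h1 : DifferentiableAt ℝ (iteratedFDeriv ℝ m f) x := by
      have := hf.differentiable_iteratedFDeriv (m := m) (by exact_mod_cast ENat.natCast_lt_top m)
      exact this x
    have h2 := (ContinuousMultilinearMap.apply ℝ (fun _ : Fin m => E n) ℝ v).hasFDerivAt.comp x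
      h1.hasFDerivAt
    have h3 := h2.fderiv
    have h4 : (fun y => iteratedFDeriv ℝ m f y v) =
        (ContinuousMultilinearMap.apply ℝ (fun _ : Fin m => E n) ℝ v) ∘ (iteratedFDeriv ℝ m f) := by
      funext y; rfl
    rw [h4, h3]
    rfl
  have e4 : ∀ x, iteratedFDeriv ℝ 4 f x ![ev i, ev j, ev k, ev l] =
      fderiv ℝ (fun y => iteratedFDeriv ℝ 3 f y ![ev j, ev k, ev l]) x (ev i) := fun x =>
    key 3 x ![ev j, ev k, ev l] (ev i) 0
  have e3 : ∀ x, iteratedFDeriv ℝ 3 f x ![ev j, ev k, ev l] =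
      fderiv ℝ (fun y => iteratedFDeriv ℝ 2 f y ![ev k, ev l]) x (ev j) := fun x =>
    key 2 x ![ev k, ev l] (ev j) 0
  have e2 : (fun y => iteratedFDeriv ℝ 2 f y ![ev k, ev l]) = pd k (pd l f) := by
    funext y; exact iter2_eq hf k l y
  rw [e4]
  simp only [e3, e2]
  rfl

theorem dif {f : E n → ℝ} (hf : ContDiff ℝ ∞ f) (x : E n) : DifferentiableAt ℝ f x :=
  (hf.differentiable (by simp)) x

theorem pd_sum {ι : Type*} (s : Finset ι) {g : ι → E n → ℝ} (hg : ∀ j, ContDiff ℝ ∞ (g j))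
    (i : Fin n) : pd i (fun x => ∑ j ∈ s, g j x) = fun x => ∑ j ∈ s, pd i (g j) x := by
  funext y
  simp only [pd]
  rw [fderiv_fun_sum (fun j _ => dif (hg j) y)]
  simp

theorem pd_add {f g : E n → ℝ} (hf : ContDiff ℝ ∞ f) (hg : ContDiff ℝ ∞ g) (i : Fin n) :
    pd i (fun x => f x + g x) = fun x => pd i f x + pd i g x := by
  funext y
  simp only [pd]
  rw [fderiv_fun_add (dif hf y) (dif hg y)]
  simp

theorem pd_sub {f g : E n → ℝ} (hf : ContDiff ℝ ∞ f) (hg : ContDiff ℝ ∞ g) (i : Fin n) :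
    pd i (fun x => f x - g x) = fun x => pd i f x - pd i g x := by
  funext y
  simp only [pd]
  rw [fderiv_fun_sub (dif hf y) (dif hg y)]
  simp

theorem pd_cmul {f : E n → ℝ} (hf : ContDiff ℝ ∞ f) (c : ℝ) (i : Fin n) :
    pd i (fun x => c * f x) = fun x => c * pd i f x := by
  funext y
  simp only [pd]
  rw [fderiv_const_mul (dif hf y)]
  simp

theorem pd_mul {f g : E n → ℝ} (hf : ContDiff ℝ ∞ f) (hg : ContDiff ℝ ∞ g) (i : Fin n) :
    pd i (fun x => f x * g x) = fun x => f x * pd i g x + g x * pd i f x := by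
  funext y
  simp only [pd]
  rw [fderiv_fun_mul (dif hf y) (dif hg y)]
  simp

theorem pd_scale {f : E n → ℝ} (hf : ContDiff ℝ ∞ f) (c : ℝ) (i : Fin n) :
    pd i (fun x => f (c • x)) = fun x => c * pd i f (c • x) := by
  funext y
  simp only [pd]
  have h1 : HasFDerivAt (fun x : E n => c • x) (c • ContinuousLinearMap.id ℝ (E n)) y :=
    (hasFDerivAt_id y).const_smul c
  have h2 := (dif hf (c • y)).hasFDerivAt.comp y h1
  have h3 := h2.fderiv
  have h4 : (fun x => f (c • x)) = f ∘ (fun x : E n => c • x) := rfl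
  rw [h4, h3]
  simp

theorem bilap_eq {f : E n → ℝ} (hf : ContDiff ℝ ∞ f) : bilap f = lap (lap f) := by
  have h1 := lap_eq hf
  rw [lap_eq (lap_smooth hf), h1]
  funext x
  unfold bilap
  apply Finset.sum_congr rfl
  intro i _
  rw [pd_sum _ (fun j => pd_smooth (pd_smooth hf j) j), pd_sum _ (fun j => pd_smooth
    (pd_smooth (pd_smooth hf j) j) i)]
  exact Finset.sum_congr rfl (fun j _ => iter4_eq hf i i j j x)

theorem lap_add {f g : E n → ℝ} (hf : ContDiff ℝ ∞ f) (hg : ContDiff ℝ ∞ g) :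
    lap (fun x => f x + g x) = fun x => lap f x + lap g x := by
  rw [lap_eq (hf.add hg), lap_eq hf, lap_eq hg]
  funext x
  rw [← Finset.sum_add_distrib]
  apply Finset.sum_congr rfl
  intro i _
  rw [pd_add hf hg, pd_add (pd_smooth hf i) (pd_smooth hg i)]

theorem lap_sub {f g : E n → ℝ} (hf : ContDiff ℝ ∞ f) (hg : ContDiff ℝ ∞ g) :
    lap (fun x => f x - g x) = fun x => lap f x - lap g x := by
  rw [lap_eq (hf.sub hg), lap_eq hf, lap_eq hg]
  funext x
  rw [← Finset.sum_sub_distrib]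
  apply Finset.sum_congr rfl
  intro i _
  rw [pd_sub hf hg, pd_sub (pd_smooth hf i) (pd_smooth hg i)]

theorem lap_cmul {f : E n → ℝ} (hf : ContDiff ℝ ∞ f) (c : ℝ) :
    lap (fun x => c * f x) = fun x => c * lap f x := by
  rw [lap_eq (contDiff_const.mul hf), lap_eq hf]
  funext x
  rw [Finset.mul_sum]
  apply Finset.sum_congr rfl
  intro i _
  rw [pd_cmul hf, pd_cmul (pd_smooth hf i)]

theorem lap_sum {ι : Type*} (s : Finset ι) {g : ι → E n → ℝ} (hg : ∀ j, ContDiff ℝ ∞ (g j)) :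
    lap (fun x => ∑ j ∈ s, g j x) = fun x => ∑ j ∈ s, lap (g j) x := by
  rw [lap_eq (ContDiff.sum (fun j _ => hg j))]
  funext x
  simp only [lap_eq (hg _)]
  rw [Finset.sum_comm]
  apply Finset.sum_congr rfl
  intro i _
  rw [pd_sum _ hg, pd_sum _ (fun j => pd_smooth (hg j) i)]

theorem lap_mul {f g : E n → ℝ} (hf : ContDiff ℝ ∞ f) (hg : ContDiff ℝ ∞ g) :
    lap (fun x => f x * g x) =
      fun x => f x * lap g x + (2 * ∑ i, pd i f x * pd i g x) + g x * lap f x := by
  rw [lap_eq (hf.mul hg), lap_eq hf, lap_eq hg]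
  funext x
  rw [Finset.mul_sum, Finset.mul_sum, Finset.mul_sum, ← Finset.sum_add_distrib,
    ← Finset.sum_add_distrib]
  apply Finset.sum_congr rfl
  intro i _
  have h1 := pd_smooth hf i
  have h2 := pd_smooth hg i
  rw [pd_mul hf hg, pd_add (hf.mul h2) (hg.mul h1), pd_mul hf h2, pd_mul hg h1]
  ring

theorem smooth_scale {f : E n → ℝ} (hf : ContDiff ℝ ∞ f) (c : ℝ) :
    ContDiff ℝ ∞ (fun x => f (c • x)) := hf.comp (contDiff_const_smul c)

theorem lap_scale {f : E n → ℝ} (hf : ContDiff ℝ ∞ f) (c : ℝ) :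
    lap (fun x => f (c • x)) = fun x => c ^ 2 * lap f (c • x) := by
  rw [lap_eq (smooth_scale hf c), lap_eq hf]
  funext x
  rw [Finset.mul_sum]
  apply Finset.sum_congr rfl
  intro i _
  have h1 := pd_smooth hf i
  rw [pd_scale hf, pd_cmul (smooth_scale h1 c), pd_scale h1]
  ring

/-- test function: smooth with compact support -/
def Tst (f : E n → ℝ) : Prop := ContDiff ℝ ∞ f ∧ HasCompactSupport f

theorem tsupport_pd (f : E n → ℝ) (i : Fin n) : tsupport (pd i f) ⊆ tsupport f :=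
  tsupport_fderiv_apply_subset ℝ (ev i)

theorem Tst.pd {f : E n → ℝ} (hf : Tst f) (i : Fin n) : Tst (pd i f) :=
  ⟨pd_smooth hf.1 i, hf.2.fderiv_apply ℝ (ev i)⟩

theorem tsupport_lap {f : E n → ℝ} (hf : ContDiff ℝ ∞ f) : tsupport (lap f) ⊆ tsupport f := by
  apply closure_minimal _ (isClosed_tsupport f)
  intro x hx
  by_contra h
  apply hx
  rw [lap_eq hf]
  apply Finset.sum_eq_zero
  intro i _
  have h1 : x ∉ tsupport (Bi.pd i (Bi.pd i f)) := fun h' =>
    h (tsupport_pd f i (tsupport_pd _ i h'))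
  exact image_eq_zero_of_notMem_tsupport h1

theorem Tst.lap {f : E n → ℝ} (hf : Tst f) : Tst (lap f) :=
  ⟨lap_smooth hf.1, hf.2.of_isClosed_subset (isClosed_tsupport _) (tsupport_lap hf.1)⟩

theorem Tst.add {f g : E n → ℝ} (hf : Tst f) (hg : Tst g) : Tst (fun x => f x + g x) :=
  ⟨hf.1.add hg.1, hf.2.add hg.2⟩

theorem Tst.cmul {f : E n → ℝ} (hf : Tst f) (c : ℝ) : Tst (fun x => c * f x) :=
  ⟨contDiff_const.mul hf.1, HasCompactSupport.mul_left hf.2⟩

theorem Tst.sub {f g : E n → ℝ} (hf : Tst f) (hg : Tst g) : Tst (fun x => f x - g x) := by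
  have := hf.add (hg.cmul (-1))
  convert this using 2
  ring

theorem Tst.mul_left {f g : E n → ℝ} (hf : ContDiff ℝ ∞ f) (hg : Tst g) :
    Tst (fun x => f x * g x) := ⟨hf.mul hg.1, HasCompactSupport.mul_left hg.2⟩

theorem Tst.integrable {f : E n → ℝ} (hf : Tst f) : Integrable f :=
  hf.1.continuous.integrable_of_hasCompactSupport hf.2

theorem Tst.bound {f : E n → ℝ} (hf : Tst f) : ∃ C : ℝ, 0 ≤ C ∧ ∀ x, |f x| ≤ C := by
  obtain ⟨C, hC⟩ := hf.2.exists_bound_of_continuous hf.1.continuous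
  exact ⟨max C 0, le_max_right _ _, fun x => (hC x).trans (le_max_left _ _)⟩

theorem Tst.zero : Tst (fun _ : E n => (0 : ℝ)) := by
  refine ⟨contDiff_const, ?_⟩
  exact HasCompactSupport.zero

theorem Tst.scale {f : E n → ℝ} (hf : Tst f) {c : ℝ} (hc : c ≠ 0) : Tst (fun x => f (c • x)) :=
  ⟨hf.1.comp (contDiff_const_smul c), hf.2.comp_smul hc⟩

theorem Tst.mul_int {f g : E n → ℝ} (hf : Continuous f) (hg : Tst g) :
    Integrable (fun x => f x * g x) :=
  (hf.mul hg.1.continuous).integrable_of_hasCompactSupport (HasCompactSupport.mul_left hg.2)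

theorem ibp {f g : E n → ℝ} (hf : ContDiff ℝ ∞ f) (hg : Tst g) (i : Fin n) :
    ∫ x, f x * Bi.pd i g x = -∫ x, Bi.pd i f x * g x := by
  have h := integral_mul_fderiv_eq_neg_fderiv_mul_of_integrable (μ := (volume : Measure (E n)))
    (f := f) (g := g) (v := ev i) (Tst.mul_int (pd_smooth hf i).continuous hg)
    (Tst.mul_int hf.continuous (hg.pd i)) (Tst.mul_int hf.continuous hg)
    (fun x _ => dif hf x) (fun x _ => dif hg.1 x)
  exact h

/-- symmetry of the Laplacian -/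
theorem ibp_lap {f g : E n → ℝ} (hf : ContDiff ℝ ∞ f) (hg : Tst g) :
    ∫ x, f x * lap g x = ∫ x, lap f x * g x := by
  rw [lap_eq hf, lap_eq hg.1]
  simp only [Finset.mul_sum, Finset.sum_mul]
  rw [integral_finsetSum _ (fun i _ => Tst.mul_int hf.continuous ((hg.pd i).pd i)),
    integral_finsetSum _ (fun i _ => Tst.mul_int (pd_smooth (pd_smooth hf i) i).continuous hg)]
  apply Finset.sum_congr rfl
  intro i _
  rw [ibp hf (hg.pd i), ibp (pd_smooth hf i) hg, neg_neg]

theorem ibp_bilap {f g : E n → ℝ} (hf : ContDiff ℝ ∞ f) (hg : Tst g) :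
    ∫ x, f x * bilap g x = ∫ x, lap f x * lap g x := by
  rw [bilap_eq hg.1, ibp_lap hf hg.lap]

theorem ibp_bilap' {f g : E n → ℝ} (hf : ContDiff ℝ ∞ f) (hg : Tst g) :
    ∫ x, f x * bilap g x = ∫ x, bilap f x * g x := by
  rw [ibp_bilap hf hg, ibp_lap (lap_smooth hf) hg, bilap_eq hf]

theorem bilap_smooth {f : E n → ℝ} (hf : ContDiff ℝ ∞ f) : ContDiff ℝ ∞ (bilap f) := by
  rw [bilap_eq hf]; exact lap_smooth (lap_smooth hf)

theorem Tst.bilap {f : E n → ℝ} (hf : Tst f) : Tst (bilap f) := by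
  rw [bilap_eq hf.1]; exact hf.lap.lap

theorem bilap_scale {f : E n → ℝ} (hf : ContDiff ℝ ∞ f) (c : ℝ) :
    bilap (fun x => f (c • x)) = fun x => c ^ 4 * bilap f (c • x) := by
  rw [bilap_eq (smooth_scale hf c), lap_scale hf,
    lap_cmul (smooth_scale (lap_smooth hf) c), lap_scale (lap_smooth hf),
    bilap_eq hf]
  funext x
  ring

theorem tsupport_bilap {f : E n → ℝ} (hf : ContDiff ℝ ∞ f) : tsupport (Bi.bilap f) ⊆ tsupport f := by
  rw [bilap_eq hf]
  exact (tsupport_lap (lap_smooth hf)).trans (tsupport_lap hf)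

end Pool.Agent.Helper749.Bi
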