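import Pool.Agent.Helper749.Bi.Step

open MeasureTheory Metric Set Filter Topology
open scoped ENNReal NNReal RealInnerProductSpace ContDiff

set_option linter.unusedSectionVars false

namespace Pool.Agent.Helper749.Bi

variable {a : ℕ}

/-- stage of the construction -/
structure Sg (a : ℕ) where
  R : Finset ℝ
  w : X a → ℝ
  s : ℕ → X a → ℝ
  φ : X a → ℝ
  β : ℝ
  k : ℕ

/-- properties of a stage -/
structure Ok (f0 : X a → ℝ) (δ : ℝ) (S : Sg a) : Prop where
  st : St f0 S.R S.w S.s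
  tst : Tst S.φ
  near : ∀ r ∈ S.R, ∃ η : ℝ, 0 < η ∧ ∀ x : X a, qr r x < η → S.φ x = 0
  ctr : ∀ x, ‖x‖ ≤ S.β → S.φ x = 0
  en : ∀ᶠ j in atTop, En (fun x => S.s j x - S.φ x) ≤ δ
  cl : ∀ x : X a, (∀ r ∈ S.R, δ ≤ qr r x) → δ ≤ ‖x‖ ^ 2 → |S.φ x - S.w x| ≤ δ
  β0 : 0 < S.β
  βδ : S.β ≤ δ
  big : ∀ x, ‖x‖ ≤ S.β → 3 / 4 ≤ |S.w x|

/-- transition between stages -/
structure Nx (δ : ℝ) (S S' : Sg a) : Prop where
  kk : S.k < S'.k
  RR : S'.R = insert (dy S'.k) S.R
  small : dy S'.k < S.β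
  ββ : S'.β ≤ S.β
  en : ∃ t : ℕ → X a → ℝ, (∀ j, S'.s j = fun x => S.s j x + t j x) ∧ (∀ j, Tst (t j)) ∧
    ∀ᶠ j in atTop, En (t j) ≤ δ
  ww : ∀ x, S.β / 2 ≤ ‖x‖ → |S'.w x - S.w x| ≤ δ

theorem mk_ok (ha : 0 < a) {f0 : X a → ℝ} {R : Finset ℝ} {w : X a → ℝ} {s : ℕ → X a → ℝ}
    (hS : St f0 R w s) {δ : ℝ} (hδ : 0 < δ) {b : ℝ} (hb : 0 < b) (k : ℕ) :
    ∃ (φ : X a → ℝ) (β : ℝ), β ≤ b ∧ Ok f0 δ ⟨R, w, s, φ, β, k⟩ := by
  obtain ⟨φ, h1, h2, ⟨b1, hb1, h3⟩, h4, h5⟩ := approx ha R hS.pos hS.gs hS.van hδ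
  have hc : ∃ b2 : ℝ, 0 < b2 ∧ ∀ x, ‖x‖ ≤ b2 → 3 / 4 ≤ |w x| := by
    have h6 : Tendsto (fun x => |w x|) (𝓝 0) (𝓝 |w 0|) := (hS.gs.continuous.abs).tendsto 0
    have h7 := h6.eventually (Ioi_mem_nhds (show 3 / 4 < |w 0| by have := hS.big; linarith))
    rw [Metric.eventually_nhds_iff] at h7
    obtain ⟨e, he, h8⟩ := h7
    refine ⟨e / 2, by positivity, fun x hx => ?_⟩
    have := h8 (y := x) (by rw [dist_zero_right]; linarith)
    exact le_of_lt this
  obtain ⟨b2, hb2, h6⟩ := hc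
  refine ⟨φ, min (min b b1) (min b2 δ), (min_le_left _ _).trans (min_le_left _ _), ?_⟩
  exact {
    st := hS
    tst := h1
    near := h2
    ctr := fun x hx => h3 x (hx.trans ((min_le_left _ _).trans (min_le_right _ _)))
    en := h4
    cl := h5
    β0 := by simp only; positivity
    βδ := (min_le_right _ _).trans (min_le_right _ _)
    big := fun x hx => h6 x (hx.trans ((min_le_right _ _).trans (min_le_left _ _))) }

theorem next (ha : 0 < a) (hA : Ac a < 1 / 2) {f0 : X a → ℝ} {δ δ' : ℝ} (hδ : 0 < δ)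
    (hδ' : 0 < δ') {S : Sg a} (hS : Ok f0 δ S) : ∃ S' : Sg a, Ok f0 δ' S' ∧ Nx δ S S' := by
  have hβ := hS.β0
  obtain ⟨k, hk, hkβ, t, D, ht, hte, hD, hst⟩ := step ha hA hS.st hδ (half_pos hβ) S.k
  obtain ⟨φ, β, hβ1, hok⟩ := mk_ok ha hst hδ' hβ k
  refine ⟨_, hok, ?_⟩
  exact {
    kk := hk
    RR := rfl
    small := by simp only; linarith
    ββ := hβ1
    en := ⟨t, fun j => rfl, ht, hte⟩
    ww := fun x hx => by
      have := hD x hx
      simp only
      rw [add_sub_cancel_left]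
      exact this }

/-- tolerances -/
noncomputable def dl (J : ℕ) : ℝ := (1 / 16) ^ (J + 2)

theorem dl_pos (J : ℕ) : 0 < dl J := by unfold dl; positivity

theorem dl_succ (J : ℕ) : dl (J + 1) = dl J / 16 := by unfold dl; ring

theorem dl_tendsto : Tendsto dl atTop (𝓝 0) :=
  (tendsto_pow_atTop_nhds_zero_of_lt_one (by norm_num) (by norm_num)).comp (tendsto_add_atTop_nat 2)

theorem dl_le (J : ℕ) : dl J ≤ 1 / 256 := by
  unfold dl
  calc ((1 : ℝ) / 16) ^ (J + 2) ≤ (1 / 16) ^ 2 :=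
        pow_le_pow_of_le_one (by norm_num) (by norm_num) (by omega)
    _ = 1 / 256 := by norm_num

/-- the initial function -/
noncomputable def U0 (a : ℕ) (x : X a) : ℝ := Hc (‖x‖ ^ 2)

theorem U0_tst : Tst (U0 a) := by
  refine Tst_of_rad (r := 2) (Hc_smooth.comp (contDiff_norm_sq ℝ)) (fun x hx => ?_)
  apply Hc_zero
  nlinarith

theorem U0_inv : Inv (U0 a) := by
  intro x y _ h
  unfold U0
  rw [h]

theorem U0_one {x : X a} (h : ‖x‖ ≤ 1) : U0 a x = 1 := by
  apply Hc_one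
  nlinarith [norm_nonneg x]

theorem st0 : St (bilap (U0 a)) ∅ (U0 a) (fun _ => U0 a) where
  pos := by simp
  gs := GS.const U0_tst U0_inv
  weq := fun ψ hψ _ => ibp_bilap' U0_tst.1 hψ
  van := by simp
  big := by rw [U0_one (by simp)]; simp
  solv := by simp

theorem chain (ha : 0 < a) (hA : Ac a < 1 / 2) : ∃ S : ℕ → Sg a,
    (∀ J, Ok (bilap (U0 a)) (dl J) (S J)) ∧ (∀ J, Nx (dl J) (S J) (S (J + 1))) ∧ (S 0).R = ∅ := by
  obtain ⟨φ, β, hβ, hok⟩ := mk_ok ha (st0 (a := a)) (dl_pos 0) one_pos 0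
  have hnext : ∀ (J : ℕ) (S : {S : Sg a // Ok (bilap (U0 a)) (dl J) S}),
      ∃ S' : {S : Sg a // Ok (bilap (U0 a)) (dl (J + 1)) S}, Nx (dl J) S.1 S'.1 := by
    intro J S
    obtain ⟨S', h1, h2⟩ := next ha hA (dl_pos J) (dl_pos (J + 1)) S.2
    exact ⟨⟨S', h1⟩, h2⟩
  choose f hf using hnext
  let T : (J : ℕ) → {S : Sg a // Ok (bilap (U0 a)) (dl J) S} :=
    fun J => Nat.rec ⟨_, hok⟩ (fun J S => f J S) J
  refine ⟨fun J => (T J).1, fun J => (T J).2, fun J => hf J (T J), rfl⟩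

/-! ### consequences -/

section

variable {S : ℕ → Sg a} (hO : ∀ J, Ok (bilap (U0 a)) (dl J) (S J))
  (hN : ∀ J, Nx (dl J) (S J) (S (J + 1))) (h0 : (S 0).R = ∅)

include hO hN h0

theorem beta_anti : Antitone (fun J => (S J).β) := antitone_nat_of_succ_le fun J => (hN J).ββ

/-- radii -/
noncomputable def rad (S : ℕ → Sg a) (J : ℕ) : ℝ := dy (S (J + 1)).k

theorem R_mem (J : ℕ) (r : ℝ) : r ∈ (S J).R ↔ ∃ i < J, r = rad S i := by
  induction J with
  | zero => simp [h0]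
  | succ J ih =>
    rw [(hN J).RR, Finset.mem_insert, ih]
    constructor
    · rintro (h | ⟨i, hi, h⟩)
      · exact ⟨J, by omega, h⟩
      · exact ⟨i, by omega, h⟩
    · rintro ⟨i, hi, h⟩
      rcases Nat.lt_succ_iff_lt_or_eq.1 hi with h' | h'
      · exact Or.inr ⟨i, h', h⟩
      · subst h'
        exact Or.inl h

theorem rad_lt {J i : ℕ} (h : J ≤ i) : rad S i < (S J).β :=
  (hN i).small.trans_le (beta_anti hO hN h0 h)

theorem k_mono : StrictMono (fun J => (S (J + 1)).k) :=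
  strictMono_nat_of_lt_succ fun J => (hN (J + 1)).kk

theorem w_close {J i : ℕ} (h : J ≤ i) {x : X a} (hx : (S J).β / 2 ≤ ‖x‖) :
    |(S i).w x - (S J).w x| ≤ 2 * dl J - 2 * dl i := by
  induction i, h using Nat.le_induction with
  | base => simp
  | succ i hi ih =>
    have h1 := beta_anti hO hN h0 hi
    have h2 := (hN i).ww x (by simp only at h1; linarith)
    have h3 : |(S (i + 1)).w x - (S J).w x| ≤
        |(S (i + 1)).w x - (S i).w x| + |(S i).w x - (S J).w x| := by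
      have := abs_add_le ((S (i + 1)).w x - (S i).w x) ((S i).w x - (S J).w x)
      simpa using this
    have h4 := dl_succ i
    have h5 := dl_pos i
    linarith

theorem beta_small {ρ : ℝ} (hρ : 0 < ρ) : ∃ J, ∀ i ≥ J, (S i).β < ρ := by
  have h1 := dl_tendsto.eventually (Iio_mem_nhds hρ)
  obtain ⟨J, hJ⟩ := h1.exists_forall_of_atTop
  exact ⟨J, fun i hi => lt_of_le_of_lt (hO i).βδ (hJ i hi)⟩

theorem w_lim : ∃ u : X a → ℝ, ∀ x, x ≠ 0 → Tendsto (fun J => (S J).w x) atTop (𝓝 (u x)) := by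
  have h : ∀ x : X a, ∃ l : ℝ, x ≠ 0 → Tendsto (fun J => (S J).w x) atTop (𝓝 l) := by
    intro x
    by_cases hx : x = 0
    · exact ⟨0, fun h => absurd hx h⟩
    · have hn : 0 < ‖x‖ := norm_pos_iff.2 hx
      obtain ⟨J, hJ⟩ := beta_small hO hN h0 hn
      have hcs : CauchySeq (fun J => (S J).w x) := by
        rw [Metric.cauchySeq_iff']
        intro ε hε
        have h1 := dl_tendsto.eventually (Iio_mem_nhds (show 0 < ε / 2 by positivity))
        obtain ⟨N, hN1, hN2⟩ := (h1.and (eventually_ge_atTop J)).exists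
        have hN1' : dl N < ε / 2 := hN1
        refine ⟨N, fun i hi => ?_⟩
        rw [Real.dist_eq]
        have h2 := w_close hO hN h0 hi (x := x) (by have := hJ N hN2; linarith)
        have h3 := dl_pos i
        linarith
      obtain ⟨l, hl⟩ := cauchySeq_tendsto_of_complete hcs
      exact ⟨l, fun _ => hl⟩
  choose u hu using h
  exact ⟨u, fun x hx => hu x hx⟩

theorem u_close {u : X a → ℝ} (hu : ∀ x, x ≠ 0 → Tendsto (fun J => (S J).w x) atTop (𝓝 (u x)))
    {J : ℕ} {x : X a} (hx : (S J).β / 2 ≤ ‖x‖) : |u x - (S J).w x| ≤ 2 * dl J := by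
  have hx0 : x ≠ 0 := by
    intro h
    rw [h, norm_zero] at hx
    linarith [(hO J).β0]
  have h1 := ((hu x hx0).sub_const ((S J).w x)).abs
  refine le_of_tendsto h1 ?_
  filter_upwards [eventually_ge_atTop J] with i hi
  have := w_close hO hN h0 hi hx
  linarith [dl_pos i]

theorem phi_tendsto {u : X a → ℝ}
    (hu : ∀ x, x ≠ 0 → Tendsto (fun J => (S J).w x) atTop (𝓝 (u x))) {x : X a} (hx : x 0 ≠ 0) :
    Tendsto (fun J => (S J).φ x) atTop (𝓝 (u x)) := by
  have hpos : 0 < (x 0) ^ 2 := by positivity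
  have hx0 : x ≠ 0 := by
    rintro rfl
    exact hx rfl
  have hq : ∀ r : ℝ, (x 0) ^ 2 ≤ qr r x := by
    intro r
    unfold qr
    have := sq_nonneg (‖x‖ ^ 2 - (x 0) ^ 2 - r ^ 2)
    exact le_add_of_nonneg_left this
  have hnx : (x 0) ^ 2 ≤ ‖x‖ ^ 2 := by
    rw [EuclideanSpace.real_norm_sq_eq]
    exact Finset.single_le_sum (f := fun i => x i ^ 2) (fun i _ => sq_nonneg _) (Finset.mem_univ 0)
  have h1 : Tendsto (fun J => (S J).φ x - (S J).w x) atTop (𝓝 0) := by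
    rw [Metric.tendsto_atTop]
    intro ε hε
    have e1 := dl_tendsto.eventually (Iio_mem_nhds (lt_min hε hpos))
    obtain ⟨N, hN'⟩ := e1.exists_forall_of_atTop
    refine ⟨N, fun J hJ => ?_⟩
    have e2 : dl J < min ε ((x 0) ^ 2) := hN' J hJ
    have e3 : dl J < ε := e2.trans_le (min_le_left _ _)
    have e4 : dl J ≤ (x 0) ^ 2 := (e2.trans_le (min_le_right _ _)).le
    rw [Real.dist_eq, sub_zero]
    exact lt_of_le_of_lt ((hO J).cl x (fun r _ => e4.trans (hq r)) (e4.trans hnx)) e3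
  have h2 := h1.add (hu x hx0)
  simpa using h2

theorem phi_step (J : ℕ) : En (fun x => (S (J + 1)).φ x - (S J).φ x) ≤ 10 * dl J := by
  obtain ⟨t, ht1, ht2, ht3⟩ := (hN J).en
  obtain ⟨j, hj1, hj2, hj3⟩ := ((hO (J + 1)).en.and ((hO J).en.and ht3)).exists
  have T1 := (hO (J + 1)).tst
  have T2 := (hO J).tst
  have T3 := (hO (J + 1)).st.gs.tst j
  have T4 := (hO J).st.gs.tst j
  have e1 : En (fun x => (S (J + 1)).φ x - (S (J + 1)).s j x) ≤ dl (J + 1) := by
    rw [En_sub_comm T1 T3]; exact hj1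
  have e2 : En (fun x => (S (J + 1)).s j x - (S J).s j x) ≤ dl J := by
    have : (fun x => (S (J + 1)).s j x - (S J).s j x) = t j := by
      funext x
      rw [ht1 j]
      simp
    rw [this]; exact hj3
  have a1 := En_tri T1 T3 T2
  have a2 := En_tri T3 T4 T2
  have := dl_succ J
  have := dl_pos J
  linarith

theorem phi_cauchy {J i : ℕ} (h : J ≤ i) : En (fun x => (S i).φ x - (S J).φ x) ≤ 40 * dl J := by
  obtain ⟨m, rfl⟩ := Nat.exists_eq_add_of_le h
  induction m generalizing J with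
  | zero =>
    simp only [add_zero, sub_self]
    have h1 := En_cmul (hO J).tst 0
    simp only [zero_mul, ne_eq, OfNat.ofNat_ne_zero, not_false_eq_true, zero_pow] at h1
    rw [h1]
    linarith [dl_pos J]
  | succ m ih =>
    have h1 := ih (J := J + 1) (by omega)
    have e : J + 1 + m = J + (m + 1) := by ring
    rw [e] at h1
    have h2 := phi_step hO hN h0 J
    have a1 := En_tri (hO (J + (m + 1))).tst (hO (J + 1)).tst (hO J).tst
    have := dl_succ J
    have := dl_pos J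
    linarith

end

end Pool.Agent.Helper749.Bi
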