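import Pool.Agent.Helper749.Bi.Dom

open MeasureTheory Metric Set Filter Topology
open scoped ENNReal NNReal RealInnerProductSpace ContDiff

set_option linter.unusedSectionVars false

namespace Pool.Agent.Helper749.Bi

variable {a : ℕ}

theorem counter (ha : 0 < a) (hA : Ac a < 1 / 2) : ∃ (κ : ℕ → ℕ) (u : X a → ℝ),
    Function.Injective κ ∧ Tendsto (fun J => dy (κ J)) atTop (𝓝 0) ∧
    (tsupport (bilap (U0 a)) ⊆ Om a (fun J => dy (κ J))) ∧
    (∃ φ : ℕ → X a → ℝ, (∀ J, Tst (φ J) ∧ tsupport (φ J) ⊆ Om a (fun J => dy (κ J))) ∧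
      (∀ J i, J ≤ i → En (fun x => φ i x - φ J x) ≤ 40 * dl J) ∧
      ∀ᵐ x, Tendsto (fun J => φ J x) atTop (𝓝 (u x))) ∧
    (∀ ψ : X a → ℝ, Tst ψ → tsupport ψ ⊆ Om a (fun J => dy (κ J)) →
      ∫ x, u x * bilap ψ x = ∫ x, bilap (U0 a) x * ψ x) ∧
    ¬ ∃ v : X a → ℝ, (∀ᵐ x, x ∈ Om a (fun J => dy (κ J)) → u x = v x) ∧
      Tendsto v (𝓝[Om a (fun J => dy (κ J))] 0) (𝓝 0) := by
  obtain ⟨S, hO, hN, h0⟩ := chain (a := a) ha hA
  obtain ⟨u, hu⟩ := w_lim hO hN h0
  set κ : ℕ → ℕ := fun J => (S (J + 1)).k with hκ
  have hκm : StrictMono κ := k_mono hO hN h0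
  have hdl : Tendsto (fun J => dy (κ J)) atTop (𝓝 0) := dy_tendsto.comp hκm.tendsto_atTop
  refine ⟨κ, u, hκm.injective, hdl, ?_, ⟨fun J => (S J).φ, ?_, ?_, ?_⟩, ?_, ?_⟩
  · -- support of f
    intro x hx h
    have hx1 : ‖x‖ ≤ 1 / 2 := by
      rcases h.2 with h' | ⟨i, h'⟩
      · rw [h']; norm_num
      · rw [← h']; exact dy_le_half _
    apply not_tsupport _ hx
    have hm : x ∈ ball (0 : X a) 1 := by
      simp only [mem_ball, dist_zero_right]
      linarith
    filter_upwards [isOpen_ball.mem_nhds hm] with y hy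
    apply bilapU0_zero
    simpa using hy
  · intro J
    refine ⟨(hO J).tst, fun x hx h => ?_⟩
    have hcase : (∃ i < J, ‖x‖ = rad S i) ∨ ‖x‖ < (S J).β := by
      rcases h.2 with h' | ⟨i, h'⟩
      · right; rw [h']; exact (hO J).β0
      · by_cases hi : i < J
        · left; exact ⟨i, hi, h'.symm⟩
        · right
          rw [← h']
          exact rad_lt hO hN h0 (by omega)
    rcases hcase with ⟨i, hi, h'⟩ | h'
    · have hR : rad S i ∈ (S J).R := (R_mem hO hN h0 J _).2 ⟨i, hi, rfl⟩
      obtain ⟨η, hη, hz⟩ := (hO J).near _ hR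
      apply not_tsupport _ hx
      have hq : qr (rad S i) x = 0 := by
        unfold qr
        rw [h.1, h']
        ring
      have hcont : Continuous (fun y : X a => qr (rad S i) y) := (qr_smooth _).continuous
      have : ∀ᶠ y in 𝓝 x, qr (rad S i) y < η := by
        have h2 := hcont.tendsto x
        rw [hq] at h2
        exact h2.eventually (Iio_mem_nhds hη)
      filter_upwards [this] with y hy
      exact hz y hy
    · apply not_tsupport _ hx
      have hm : x ∈ ball (0 : X a) (S J).β := by simpa using h'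
      filter_upwards [isOpen_ball.mem_nhds hm] with y hy
      apply (hO J).ctr
      have : ‖y‖ < (S J).β := by simpa using hy
      exact this.le
  · intro J i h
    exact phi_cauchy hO hN h0 h
  · filter_upwards [hyper_null (a := a)] with x hx
    exact phi_tendsto hO hN h0 hu hx
  · -- weak equation
    intro ψ hψ hsup
    have h0n : (0 : X a) ∉ tsupport ψ := by
      intro h
      apply hsup h
      refine ⟨rfl, ?_⟩
      rw [norm_zero]
      exact mem_insert _ _
    obtain ⟨ρ, hρ, hball⟩ : ∃ ρ > 0, ball (0 : X a) ρ ⊆ (tsupport ψ)ᶜ :=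
      Metric.isOpen_iff.1 (isClosed_tsupport ψ).isOpen_compl 0 h0n
    obtain ⟨J0, hJ0⟩ := beta_small hO hN h0 hρ
    have hzero : ∀ x, ‖x‖ < ρ → bilap ψ x = 0 := by
      intro x hx
      apply image_eq_zero_of_notMem_tsupport
      intro h
      exact hball (by simpa using hx) (tsupport_bilap hψ.1 h)
    have hw : ∀ J, ∫ x, (S J).w x * bilap ψ x = ∫ x, bilap (U0 a) x * ψ x := by
      intro J
      apply (hO J).st.weq ψ hψ
      intro r hr x hx
      obtain ⟨i, hi, hri⟩ := (R_mem hO hN h0 J r).1 hr
      apply image_eq_zero_of_notMem_tsupport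
      intro h
      apply hsup h
      refine ⟨hx.1, ?_⟩
      rw [hx.2, hri]
      exact mem_insert_of_mem _ ⟨i, rfl⟩
    obtain ⟨M, hM0, hM⟩ := (hO J0).st.gs.bound
    have hlim : Tendsto (fun J => ∫ x, (S J).w x * bilap ψ x) atTop
        (𝓝 (∫ x, u x * bilap ψ x)) := by
      apply tendsto_integral_filter_of_dominated_convergence (fun x => (M + 1) * |bilap ψ x|)
      · exact Eventually.of_forall fun J =>
          (((hO J).st.gs.continuous).mul hψ.bilap.1.continuous).aestronglyMeasurable
      · filter_upwards [eventually_ge_atTop J0] with J hJ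
        refine Eventually.of_forall fun x => ?_
        by_cases hx : ‖x‖ < ρ
        · rw [hzero x hx]; simp
        · push Not at hx
          rw [norm_mul, Real.norm_eq_abs, Real.norm_eq_abs]
          gcongr
          have h1 := w_close hO hN h0 hJ (x := x) (by
            have := hJ0 J0 le_rfl
            have := (hO J0).β0
            linarith)
          have h2 := hM x
          have h3 : |(S J).w x| ≤ |(S J).w x - (S J0).w x| + |(S J0).w x| := by
            have := abs_add_le ((S J).w x - (S J0).w x) ((S J0).w x)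
            simpa using this
          have h4 := dl_pos J
          have h5 := dl_le J0
          linarith
      · exact hψ.bilap.integrable.abs.const_mul _
      · refine Eventually.of_forall fun x => ?_
        by_cases hx : ‖x‖ < ρ
        · rw [hzero x hx]; simp
        · push Not at hx
          have hx0 : x ≠ 0 := by
            rintro rfl
            rw [norm_zero] at hx
            linarith
          exact (hu x hx0).mul_const _
    simp only [hw] at hlim
    exact tendsto_nhds_unique hlim tendsto_const_nhds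
  · rintro ⟨v, hv1, hv2⟩
    rw [Metric.tendsto_nhdsWithin_nhds] at hv2
    obtain ⟨ρ, hρ, hv⟩ := hv2 (1 / 4) (by norm_num)
    obtain ⟨J, hJ⟩ := beta_small hO hN h0 hρ
    have hβ := (hO J).β0
    have hβρ := hJ J le_rfl
    set W : Set (X a) := {x | (S J).β / 2 < ‖x‖} ∩ ({x | ‖x‖ < (S J).β} ∩ {x | x 0 ≠ 0}) with hW
    have hWo : IsOpen W := by
      apply IsOpen.inter (isOpen_lt continuous_const continuous_norm)
      apply IsOpen.inter (isOpen_lt continuous_norm continuous_const)
      exact isOpen_ne_fun (by fun_prop) continuous_const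
    have hWn : W.Nonempty := by
      refine ⟨(3 / 4 * (S J).β) • (ev 0 : X a), ?_, ?_, ?_⟩
      · simp only [mem_ofPred_eq, norm_smul, PiLp.norm_single, norm_one, mul_one]
        rw [Real.norm_of_nonneg (by positivity)]
        linarith
      · simp only [mem_ofPred_eq, norm_smul, PiLp.norm_single, norm_one, mul_one]
        rw [Real.norm_of_nonneg (by positivity)]
        linarith
      · simp only [mem_ofPred_eq, PiLp.smul_apply, smul_eq_mul]
        simp
        exact hβ.ne'
    have hpos : 0 < volume W := hWo.measure_pos _ hWn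
    obtain ⟨x, hxW, hx⟩ : ∃ x ∈ W, (x ∈ Om a (fun J => dy (κ J)) → u x = v x) := by
      by_contra hcon
      push Not at hcon
      have hsub : W ⊆ {x | ¬ (x ∈ Om a (fun J => dy (κ J)) → u x = v x)} := by
        intro x hx
        have := hcon x hx
        simp only [mem_ofPred_eq, Classical.not_imp]
        exact this
      have hz := measure_mono_null hsub (ae_iff.1 hv1)
      rw [hz] at hpos
      exact lt_irrefl _ hpos
    have hx1 : (S J).β / 2 < ‖x‖ := hxW.1
    have hx2 : ‖x‖ < (S J).β := hxW.2.1
    have hx3 : x 0 ≠ 0 := hxW.2.2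
    have hxO : x ∈ Om a (fun J => dy (κ J)) := Om_of_ne hx3
    have h1 := hv hxO (by rw [dist_zero_right]; linarith)
    rw [dist_zero_right, Real.norm_eq_abs, ← hx hxO] at h1
    have h2 := (hO J).big x hx2.le
    have h3 := u_close hO hN h0 hu hx1.le
    have h4 := dl_le J
    have h5 : |(S J).w x| ≤ |u x - (S J).w x| + |u x| := by
      have := abs_add_le ((S J).w x - u x) (u x)
      rw [abs_sub_comm] at this
      simpa using this
    linarith

end Pool.Agent.Helper749.Bi
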