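import Pool.Agent.Helper749.Bi.Energy

open MeasureTheory Metric Set Filter Topology
open scoped ENNReal NNReal RealInnerProductSpace ContDiff

set_option linter.unusedSectionVars false

namespace Pool.Agent.Helper749.Bi

variable {n : ℕ}

/-- transition function: 0 for s ≤ 1/2, 1 for s ≥ 1 -/
noncomputable def th (s : ℝ) : ℝ := Real.smoothTransition (2 * s - 1)

theorem th_smooth : ContDiff ℝ ∞ th := by
  unfold th
  exact Real.smoothTransition.contDiff.comp (by fun_prop)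

theorem th_one {s : ℝ} (h : 1 ≤ s) : th s = 1 :=
  Real.smoothTransition.one_of_one_le (by linarith)

theorem th_zero {s : ℝ} (h : s ≤ 1 / 2) : th s = 0 :=
  Real.smoothTransition.zero_of_nonpos (by linarith)

theorem th_nonneg (s : ℝ) : 0 ≤ th s := Real.smoothTransition.nonneg _

theorem th_le_one (s : ℝ) : th s ≤ 1 := Real.smoothTransition.le_one _

noncomputable def th1 : ℝ → ℝ := deriv th
noncomputable def th2 : ℝ → ℝ := deriv th1

theorem th1_smooth : ContDiff ℝ ∞ th1 := ContDiff.deriv' th_smooth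

theorem th2_smooth : ContDiff ℝ ∞ th2 := ContDiff.deriv' th1_smooth

theorem th_hasDeriv (s : ℝ) : HasDerivAt th (th1 s) s :=
  (th_smooth.differentiable (by simp) s).hasDerivAt

theorem th1_hasDeriv (s : ℝ) : HasDerivAt th1 (th2 s) s :=
  (th1_smooth.differentiable (by simp) s).hasDerivAt

theorem th1_lt {s : ℝ} (h : s < 1 / 2) : th1 s = 0 := by
  have h1 : th =ᶠ[𝓝 s] fun _ => 0 := by
    filter_upwards [Iio_mem_nhds h] with y hy
    exact th_zero (le_of_lt hy)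
  unfold th1
  rw [h1.deriv_eq]
  simp

theorem th1_gt {s : ℝ} (h : 1 < s) : th1 s = 0 := by
  have h1 : th =ᶠ[𝓝 s] fun _ => 1 := by
    filter_upwards [Ioi_mem_nhds h] with y hy
    exact th_one (le_of_lt hy)
  unfold th1
  rw [h1.deriv_eq]
  simp

theorem th2_lt {s : ℝ} (h : s < 1 / 2) : th2 s = 0 := by
  have h1 : th1 =ᶠ[𝓝 s] fun _ => 0 := by
    filter_upwards [Iio_mem_nhds h] with y hy
    exact th1_lt hy
  unfold th2
  rw [h1.deriv_eq]
  simp

theorem th2_gt {s : ℝ} (h : 1 < s) : th2 s = 0 := by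
  have h1 : th1 =ᶠ[𝓝 s] fun _ => 0 := by
    filter_upwards [Ioi_mem_nhds h] with y hy
    exact th1_gt hy
  unfold th2
  rw [h1.deriv_eq]
  simp

theorem th_bound : ∃ T : ℝ, 0 ≤ T ∧ (∀ s, |th1 s| ≤ T) ∧ ∀ s, |th2 s| ≤ T := by
  obtain ⟨C, hC⟩ := (isCompact_Icc (a := (0:ℝ)) (b := 2)).exists_bound_of_continuousOn
    th1_smooth.continuous.continuousOn
  obtain ⟨D, hD⟩ := (isCompact_Icc (a := (0:ℝ)) (b := 2)).exists_bound_of_continuousOn
    th2_smooth.continuous.continuousOn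
  refine ⟨max (max C D) 0, le_max_right _ _, fun s => ?_, fun s => ?_⟩
  · by_cases h1 : s < 1 / 2
    · rw [th1_lt h1]; simp
    · by_cases h2 : 1 < s
      · rw [th1_gt h2]; simp
      · exact (hC s ⟨by linarith, by linarith⟩).trans
          ((le_max_left _ _).trans (le_max_left _ _))
  · by_cases h1 : s < 1 / 2
    · rw [th2_lt h1]; simp
    · by_cases h2 : 1 < s
      · rw [th2_gt h2]; simp
      · exact (hD s ⟨by linarith, by linarith⟩).trans
          ((le_max_right _ _).trans (le_max_left _ _))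

theorem pd_comp {F F' : ℝ → ℝ} (hF : ∀ s, HasDerivAt F (F' s) s) {q : E n → ℝ}
    (hq : ContDiff ℝ ∞ q) (i : Fin n) : pd i (fun x => F (q x)) = fun x => F' (q x) * pd i q x := by
  funext x
  have h := (hF (q x)).comp_hasFDerivAt x (dif hq x).hasFDerivAt
  unfold pd
  have e : (fun x => F (q x)) = F ∘ q := rfl
  rw [e, h.fderiv]
  simp

theorem lap_comp {F F' F'' : ℝ → ℝ} (hF : ∀ s, HasDerivAt F (F' s) s)
    (hF' : ∀ s, HasDerivAt F' (F'' s) s) {q : E n → ℝ} (hFs : ContDiff ℝ ∞ F)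
    (hFs' : ContDiff ℝ ∞ F') (hq : ContDiff ℝ ∞ q) :
    lap (fun x => F (q x)) = fun x => F'' (q x) * ∑ i, (pd i q x) ^ 2 + F' (q x) * lap q x := by
  have hc : ContDiff ℝ ∞ (fun x => F (q x)) := hFs.comp hq
  have hc' : ContDiff ℝ ∞ (fun x => F' (q x)) := hFs'.comp hq
  rw [lap_eq hc, lap_eq hq]
  funext x
  rw [Finset.mul_sum, Finset.mul_sum, ← Finset.sum_add_distrib]
  apply Finset.sum_congr rfl
  intro i _
  rw [pd_comp hF hq, pd_mul hc' (pd_smooth hq i), pd_comp hF' hq]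
  ring

/-- cutoff built from `q` at scale `l` -/
noncomputable def ch (q : E n → ℝ) (l : ℝ) (x : E n) : ℝ := th (l * q x)

theorem ch_smooth {q : E n → ℝ} (hq : ContDiff ℝ ∞ q) (l : ℝ) : ContDiff ℝ ∞ (ch q l) :=
  th_smooth.comp (contDiff_const.mul hq)

/-- the commutator of the Laplacian with the cutoff -/
noncomputable def er (q v : E n → ℝ) (l : ℝ) (x : E n) : ℝ :=
  2 * ∑ i, pd i (ch q l) x * pd i v x + v x * lap (ch q l) x

theorem er_eq {q v : E n → ℝ} (hq : ContDiff ℝ ∞ q) (hv : ContDiff ℝ ∞ v) (l : ℝ) :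
    lap (fun x => ch q l x * v x) = fun x => ch q l x * lap v x + er q v l x := by
  rw [lap_mul (ch_smooth hq l) hv]
  funext x
  unfold er
  ring

theorem pd_ch {q : E n → ℝ} (hq : ContDiff ℝ ∞ q) (l : ℝ) (i : Fin n) :
    pd i (ch q l) = fun x => l * th1 (l * q x) * pd i q x := by
  have h : ∀ s, HasDerivAt (fun s => th (l * s)) (l * th1 (l * s)) s := by
    intro s
    have h1 := (th_hasDeriv (l * s)).comp s ((hasDerivAt_id s).const_mul l)
    refine h1.congr_deriv ?_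
    ring
  exact pd_comp h hq i

theorem lap_ch {q : E n → ℝ} (hq : ContDiff ℝ ∞ q) (l : ℝ) :
    lap (ch q l) = fun x => l ^ 2 * th2 (l * q x) * ∑ i, (pd i q x) ^ 2 +
      l * th1 (l * q x) * lap q x := by
  have h : ∀ s, HasDerivAt (fun s => th (l * s)) (l * th1 (l * s)) s := by
    intro s
    have h1 := (th_hasDeriv (l * s)).comp s ((hasDerivAt_id s).const_mul l)
    refine h1.congr_deriv ?_
    ring
  have h2 : ∀ s, HasDerivAt (fun s => l * th1 (l * s)) (l ^ 2 * th2 (l * s)) s := by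
    intro s
    have h1 := ((th1_hasDeriv (l * s)).comp s ((hasDerivAt_id s).const_mul l)).const_mul l
    refine h1.congr_deriv ?_
    ring
  exact lap_comp h h2 (th_smooth.comp (contDiff_const.mul contDiff_id))
    (contDiff_const.mul (th1_smooth.comp (contDiff_const.mul contDiff_id))) hq

theorem er_zero_of {q v : E n → ℝ} (hq : ContDiff ℝ ∞ q) {l : ℝ} {x : E n}
    (h : l * q x < 1 / 2 ∨ 1 < l * q x) : er q v l x = 0 := by
  unfold er
  rw [lap_ch hq]
  simp only [pd_ch hq]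
  have h1 : th1 (l * q x) = 0 := by
    rcases h with h | h
    · exact th1_lt h
    · exact th1_gt h
  have h2 : th2 (l * q x) = 0 := by
    rcases h with h | h
    · exact th2_lt h
    · exact th2_gt h
  rw [h1, h2]
  simp

theorem er_bound_pt {T C M P l q0 v0 L0 t1 t2 : ℝ} (hT : 0 ≤ T) (hC : 0 ≤ C) (hM : 0 ≤ M)
    (hl : 0 < l) (hP0 : 0 ≤ P) (hP : P ≤ C * q0) (hL : |L0| ≤ C) (h1 : |t1| ≤ T) (h2 : |t2| ≤ T)
    (hq : l * q0 ≤ 1) {S : ℝ} (hS : S ^ 2 ≤ (l * t1) ^ 2 * P * M) :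
    (2 * S + v0 * (l ^ 2 * t2 * P + l * t1 * L0)) ^ 2 ≤
      (8 * T ^ 2 * C * M + 8 * T ^ 2 * C ^ 2) * (l + l ^ 2 * v0 ^ 2) := by
  have hPl : l * P ≤ C := by nlinarith
  have a1 : (l * t1) ^ 2 * P * M ≤ l * (T ^ 2 * C * M) := by
    have b1 : t1 ^ 2 ≤ T ^ 2 := by
      rw [← sq_abs t1]; gcongr
    calc (l * t1) ^ 2 * P * M = t1 ^ 2 * (l * (l * P)) * M := by ring
      _ ≤ T ^ 2 * (l * C) * M := by gcongr
      _ = l * (T ^ 2 * C * M) := by ring
  have a2 : |l ^ 2 * t2 * P + l * t1 * L0| ≤ l * (2 * T * C) := by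
    calc |l ^ 2 * t2 * P + l * t1 * L0| ≤ |l ^ 2 * t2 * P| + |l * t1 * L0| := abs_add_le _ _
      _ = l * (|t2| * (l * P)) + l * (|t1| * |L0|) := by
          rw [abs_mul, abs_mul, abs_mul, abs_mul, abs_of_nonneg hP0, abs_of_pos hl,
            abs_of_nonneg (by positivity : 0 ≤ l ^ 2)]
          ring
      _ ≤ l * (T * C) + l * (T * C) := by gcongr
      _ = l * (2 * T * C) := by ring
  have a3 : (l ^ 2 * t2 * P + l * t1 * L0) ^ 2 ≤ l ^ 2 * (4 * T ^ 2 * C ^ 2) := by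
    rw [← sq_abs]
    calc |l ^ 2 * t2 * P + l * t1 * L0| ^ 2 ≤ (l * (2 * T * C)) ^ 2 := by gcongr
      _ = _ := by ring
  set W := l ^ 2 * t2 * P + l * t1 * L0 with hW
  calc (2 * S + v0 * W) ^ 2 ≤ 8 * S ^ 2 + 2 * (v0 ^ 2 * W ^ 2) := by
        nlinarith [sq_nonneg (2 * S - v0 * W)]
    _ ≤ 8 * (l * (T ^ 2 * C * M)) + 2 * (v0 ^ 2 * (l ^ 2 * (4 * T ^ 2 * C ^ 2))) := by
        gcongr
        exact hS.trans a1
    _ ≤ (8 * T ^ 2 * C * M + 8 * T ^ 2 * C ^ 2) * (l + l ^ 2 * v0 ^ 2) := by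
        have c1 : 0 ≤ T ^ 2 * C * M * (l ^ 2 * v0 ^ 2) := by positivity
        have c2 : 0 ≤ T ^ 2 * C ^ 2 * l := by positivity
        nlinarith

/-- commutator bound -/
theorem er_bound {q v : E n → ℝ} (hq : ContDiff ℝ ∞ q) (hv : Tst v)
    {C : ℝ} (hC : 0 ≤ C) (h1 : ∀ x ∈ tsupport v, ∑ i, (pd i q x) ^ 2 ≤ C * q x)
    (h2 : ∀ x ∈ tsupport v, |lap q x| ≤ C) :
    ∃ D : ℝ, 0 ≤ D ∧ ∀ l, 0 < l → ∀ x, (er q v l x) ^ 2 ≤ D * (l + l ^ 2 * (v x) ^ 2) := by
  obtain ⟨T, hT0, hT1, hT2⟩ := th_bound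
  have hMex : ∃ M : ℝ, 0 ≤ M ∧ ∀ x, ∑ i, (pd i v x) ^ 2 ≤ M := by
    have : ∀ i, ∃ M : ℝ, 0 ≤ M ∧ ∀ x, |pd i v x| ≤ M := fun i => (hv.pd i).bound
    choose M hM0 hM using this
    refine ⟨∑ i, (M i) ^ 2, Finset.sum_nonneg fun i _ => sq_nonneg _, fun x => ?_⟩
    apply Finset.sum_le_sum
    intro i _
    rw [← sq_abs]
    have := hM i x
    gcongr
  obtain ⟨M, hM0, hM⟩ := hMex
  refine ⟨8 * T ^ 2 * C * M + 8 * T ^ 2 * C ^ 2, by positivity, fun l hl x => ?_⟩
  by_cases hx : x ∈ tsupport v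
  · by_cases hq1 : l * q x ≤ 1
    · unfold er
      rw [lap_ch hq]
      simp only
      refine er_bound_pt hT0 hC hM0 hl (Finset.sum_nonneg fun i _ => sq_nonneg _) (h1 x hx)
        (h2 x hx) (hT1 _) (hT2 _) hq1 ?_
      calc (∑ i, pd i (ch q l) x * pd i v x) ^ 2 ≤
          (∑ i, (pd i (ch q l) x) ^ 2) * ∑ i, (pd i v x) ^ 2 :=
            Finset.sum_mul_sq_le_sq_mul_sq _ _ _
        _ ≤ (∑ i, (pd i (ch q l) x) ^ 2) * M := by
            have : 0 ≤ ∑ i, (pd i (ch q l) x) ^ 2 := Finset.sum_nonneg fun i _ => sq_nonneg _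
            gcongr
            exact hM x
        _ = (l * th1 (l * q x)) ^ 2 * (∑ i, (pd i q x) ^ 2) * M := by
            congr 1
            rw [Finset.mul_sum]
            apply Finset.sum_congr rfl
            intro i _
            rw [pd_ch hq]
            ring
    · push Not at hq1
      rw [er_zero_of hq (Or.inr hq1), zero_pow two_ne_zero]
      positivity
  · have e1 : v x = 0 := image_eq_zero_of_notMem_tsupport hx
    have e2 : ∀ i, pd i v x = 0 := fun i =>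
      image_eq_zero_of_notMem_tsupport (fun h => hx (tsupport_pd v i h))
    unfold er
    simp only [e1, e2]
    simp
    positivity

end Pool.Agent.Helper749.Bi
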