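import Pool.Agent.Helper749.Bi.Cut1

open MeasureTheory Metric Set Filter Topology
open scoped ENNReal NNReal RealInnerProductSpace ContDiff

set_option linter.unusedSectionVars false

namespace Pool.Agent.Helper749.Bi

variable {n : ℕ}

theorem int_le_ind {f : E n → ℝ} (hf : Integrable f) {S : Set (E n)} (hS : MeasurableSet S)
    {K c : ℝ} (hK : 0 ≤ K) (hc : 0 ≤ c) (hle : ∀ x, f x ≤ S.indicator (fun _ => K) x)
    (hvol : volume S ≤ ENNReal.ofReal c) : ∫ x, f x ≤ K * c := by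
  have hfin : volume S ≠ ⊤ := ne_top_of_le_ne_top ENNReal.ofReal_ne_top hvol
  have hi : Integrable (S.indicator (fun _ => K)) := by
    rw [integrable_indicator_iff hS]
    exact integrableOn_const hfin
  calc ∫ x, f x ≤ ∫ x, S.indicator (fun _ => K) x := integral_mono hf hi hle
    _ = K * (volume S).toReal := by
        rw [integral_indicator hS, setIntegral_const, smul_eq_mul, mul_comm]
        rfl
    _ ≤ K * c := by
        gcongr
        exact ENNReal.toReal_le_of_le_ofReal hc hvol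

theorem er_tst {q v : E n → ℝ} (hq : ContDiff ℝ ∞ q) (hv : Tst v) (l : ℝ) : Tst (er q v l) := by
  have e : er q v l = fun x => lap (fun x => ch q l x * v x) x - ch q l x * lap v x := by
    rw [er_eq hq hv.1]
    funext x
    ring
  rw [e]
  exact (Tst.mul_left (ch_smooth hq l) hv).lap.sub (Tst.mul_left (ch_smooth hq l) hv.lap)

theorem er_int_bound {q v : E n → ℝ} (hq : ContDiff ℝ ∞ q) (hv : Tst v) {D V l c : ℝ}
    (hD : 0 ≤ D) (hV : 0 ≤ V)
    (hl : 0 < l) (her : ∀ x, (er q v l x) ^ 2 ≤ D * (l + l ^ 2 * (v x) ^ 2))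
    (hvq : ∀ x, q x ≤ 1 / l → (v x) ^ 2 ≤ V) (hc : 0 ≤ c)
    (hvol : volume {x | q x ≤ 1 / l} ≤ ENNReal.ofReal c) :
    ∫ x, (er q v l x) ^ 2 ≤ D * (l + l ^ 2 * V) * c := by
  apply int_le_ind (er_tst hq hv l).sq_int
    (measurableSet_le hq.continuous.measurable measurable_const) (by positivity) hc _ hvol
  intro x
  by_cases h : q x ≤ 1 / l
  · rw [indicator_of_mem (by exact h)]
    refine (her x).trans ?_
    have := hvq x h
    gcongr
  · rw [indicator_of_notMem (by exact h)]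
    push Not at h
    rw [er_zero_of hq (Or.inr (by rwa [div_lt_iff₀' hl] at h))]
    simp

theorem En_cut {q : E n → ℝ} {x : E n} {χ g s : ℝ} (M : ℝ) (hg : |g| ≤ M)
    {l : ℝ} (hχ0 : 0 ≤ χ) (hχ1 : χ ≤ 1) (h1 : l ≤ q x → χ = 1) :
    (χ * g + s - g) ^ 2 ≤ 2 * ({x | q x ≤ l}.indicator (fun _ => M ^ 2) x) + 2 * s ^ 2 := by
  have hM : g ^ 2 ≤ M ^ 2 := by rw [← sq_abs]; gcongr
  by_cases h : q x ≤ l
  · rw [indicator_of_mem (by exact h)]
    have h2 : (χ - 1) ^ 2 ≤ 1 := by nlinarith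
    have h3 : ((χ - 1) * g) ^ 2 ≤ M ^ 2 := by
      rw [mul_pow]
      calc (χ - 1) ^ 2 * g ^ 2 ≤ 1 * M ^ 2 := by gcongr
        _ = M ^ 2 := one_mul _
    have e : χ * g + s - g = (χ - 1) * g + s := by ring
    rw [e]
    nlinarith [sq_nonneg ((χ - 1) * g - s)]
  · rw [indicator_of_notMem (by exact h)]
    push Not at h
    rw [h1 h.le]
    nlinarith [sq_nonneg s]

/-- cut at a point-like set (where the volume decays fast) -/
theorem cut_fast {q v : E n → ℝ} (hq : ContDiff ℝ ∞ q) (hv : Tst v)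
    {C : ℝ} (hC : 0 ≤ C) (h1 : ∀ x ∈ tsupport v, ∑ i, (pd i q x) ^ 2 ≤ C * q x)
    (h2 : ∀ x ∈ tsupport v, |lap q x| ≤ C)
    (hvol : ∀ δ : ℝ, 0 < δ → ∃ l : ℝ, 1 ≤ l ∧ 1 / l ≤ δ ∧ ∃ c : ℝ, 0 ≤ c ∧
      volume {x | q x ≤ 1 / l} ≤ ENNReal.ofReal c ∧ l ^ 2 * c ≤ δ) :
    ∀ δ : ℝ, 0 < δ → ∃ χ : E n → ℝ, ContDiff ℝ ∞ χ ∧
      En (fun x => χ x * v x - v x) ≤ δ ∧ (∃ η : ℝ, 0 < η ∧ ∀ x, q x < η → χ x = 0) ∧
      (∀ x, δ ≤ q x → χ x = 1) := by
  intro δ hδ
  obtain ⟨D, hD0, hD⟩ := er_bound hq hv hC h1 h2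
  obtain ⟨M, hM0, hM⟩ := hv.lap.bound
  obtain ⟨V, hV0, hV⟩ := hv.bound
  set K := 2 * M ^ 2 + 2 * D * (1 + V ^ 2) + 1 with hK
  have hK0 : 0 < K := by positivity
  obtain ⟨l, hl1, hlδ, c, hc0, hc, hcδ⟩ := hvol (min δ (δ / K)) (by positivity)
  have hl0 : 0 < l := by linarith
  refine ⟨ch q l, ch_smooth hq l, ?_, ⟨1 / (2 * l), by positivity, fun x hx => ?_⟩, fun x hx => ?_⟩
  · have e : En (fun x => ch q l x * v x - v x) =
        ∫ x, (ch q l x * lap v x + er q v l x - lap v x) ^ 2 := by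
      unfold En
      rw [lap_sub ((ch_smooth hq l).mul hv.1) hv.1, er_eq hq hv.1]
    rw [e]
    have hS : MeasurableSet {x | q x ≤ 1 / l} :=
      measurableSet_le hq.continuous.measurable measurable_const
    have hfin : volume {x | q x ≤ 1 / l} ≠ ⊤ := ne_top_of_le_ne_top ENNReal.ofReal_ne_top hc
    have hi : Integrable ({x | q x ≤ 1 / l}.indicator (fun _ => M ^ 2)) := by
      rw [integrable_indicator_iff hS]
      exact integrableOn_const hfin
    have hT : Tst (fun x => ch q l x * lap v x + er q v l x - lap v x) :=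
      ((Tst.mul_left (ch_smooth hq l) hv.lap).add (er_tst hq hv l)).sub hv.lap
    have b1 : ∫ x, ({x | q x ≤ 1 / l}.indicator (fun _ => M ^ 2)) x ≤ M ^ 2 * c :=
      int_le_ind hi hS (by positivity) hc0 (fun x => le_rfl) hc
    have b2 : ∫ x, (er q v l x) ^ 2 ≤ D * (l + l ^ 2 * V ^ 2) * c :=
      er_int_bound hq hv hD0 (by positivity) hl0 (hD l hl0) (fun x _ => by
        rw [← sq_abs]; have := hV x; gcongr) hc0 hc
    calc ∫ x, (ch q l x * lap v x + er q v l x - lap v x) ^ 2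
        ≤ ∫ x, (2 * ({x | q x ≤ 1 / l}.indicator (fun _ => M ^ 2) x) + 2 * (er q v l x) ^ 2) := by
          apply integral_mono hT.sq_int ((hi.const_mul 2).add ((er_tst hq hv l).sq_int.const_mul 2))
          intro x
          apply En_cut M (hM x) (th_nonneg _) (th_le_one _)
          intro h
          apply th_one
          rw [div_le_iff₀' hl0] at h
          exact h
      _ = 2 * (∫ x, ({x | q x ≤ 1 / l}.indicator (fun _ => M ^ 2) x)) +
          2 * ∫ x, (er q v l x) ^ 2 := by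
          rw [integral_add (hi.const_mul 2) ((er_tst hq hv l).sq_int.const_mul 2),
            integral_const_mul, integral_const_mul]
      _ ≤ 2 * (M ^ 2 * c) + 2 * (D * (l + l ^ 2 * V ^ 2) * c) := by gcongr
      _ ≤ K * (l ^ 2 * c) := by
          have hl2 : l ≤ l ^ 2 := by nlinarith
          have hl3 : 1 ≤ l ^ 2 := by nlinarith
          have c1 : M ^ 2 * c ≤ M ^ 2 * (l ^ 2 * c) := by
            have : 0 ≤ M ^ 2 * c := by positivity
            nlinarith
          have c2 : D * (l + l ^ 2 * V ^ 2) * c ≤ D * (1 + V ^ 2) * (l ^ 2 * c) := by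
            have : D * (l + l ^ 2 * V ^ 2) * c ≤ D * (l ^ 2 + l ^ 2 * V ^ 2) * c := by gcongr
            calc D * (l + l ^ 2 * V ^ 2) * c ≤ D * (l ^ 2 + l ^ 2 * V ^ 2) * c := this
              _ = _ := by ring
          have c3 : 0 ≤ l ^ 2 * c := by positivity
          rw [hK]
          nlinarith
      _ ≤ K * (δ / K) := by
          gcongr
          exact hcδ.trans (min_le_right _ _)
      _ = δ := by field_simp
  · apply th_zero
    rw [lt_div_iff₀ (by positivity)] at hx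
    linarith
  · apply th_one
    have h3 : 1 / l ≤ q x := (hlδ.trans (min_le_left _ _)).trans hx
    rw [div_le_iff₀' hl0] at h3
    exact h3


/-- averaged cutoff -/
noncomputable def avc (q : E n → ℝ) (N : ℕ) (x : E n) : ℝ :=
  (N : ℝ)⁻¹ * ∑ k ∈ Finset.range N, ch q (4 ^ (N + 1 + k)) x

theorem avc_smooth {q : E n → ℝ} (hq : ContDiff ℝ ∞ q) (N : ℕ) : ContDiff ℝ ∞ (avc q N) :=
  contDiff_const.mul (ContDiff.sum fun k _ => ch_smooth hq _)

theorem avc_nonneg (q : E n → ℝ) (N : ℕ) (x : E n) : 0 ≤ avc q N x := by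
  unfold avc
  exact mul_nonneg (by positivity) (Finset.sum_nonneg fun k _ => th_nonneg _)

theorem avc_le_one (q : E n → ℝ) {N : ℕ} (hN : 0 < N) (x : E n) : avc q N x ≤ 1 := by
  unfold avc
  have h : ∑ k ∈ Finset.range N, ch q (4 ^ (N + 1 + k)) x ≤ ∑ _k ∈ Finset.range N, (1 : ℝ) :=
    Finset.sum_le_sum fun k _ => th_le_one _
  simp only [Finset.sum_const, Finset.card_range, nsmul_eq_mul, mul_one] at h
  have hN' : (0 : ℝ) < N := by exact_mod_cast hN
  calc (N : ℝ)⁻¹ * ∑ k ∈ Finset.range N, ch q (4 ^ (N + 1 + k)) x ≤ (N : ℝ)⁻¹ * N := by gcongr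
    _ = 1 := inv_mul_cancel₀ hN'.ne'

theorem avc_one {q : E n → ℝ} {N : ℕ} (hN : 0 < N) {x : E n} (h : 1 / 4 ^ (N + 1) ≤ q x) :
    avc q N x = 1 := by
  unfold avc
  have h1 : ∀ k ∈ Finset.range N, ch q (4 ^ (N + 1 + k)) x = 1 := by
    intro k _
    apply th_one
    have h2 : (0 : ℝ) ≤ q x := le_trans (by positivity) h
    calc (1 : ℝ) = 4 ^ (N + 1) * (1 / 4 ^ (N + 1)) := by field_simp
      _ ≤ 4 ^ (N + 1) * q x := by gcongr
      _ ≤ 4 ^ (N + 1 + k) * q x :=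
          mul_le_mul_of_nonneg_right (pow_le_pow_right₀ (by norm_num) (by omega)) h2
  rw [Finset.sum_congr rfl h1]
  have hN' : (0 : ℝ) < N := by exact_mod_cast hN
  simp [hN'.ne']

theorem avc_zero {q : E n → ℝ} {N : ℕ} {x : E n} (h0 : 0 ≤ q x)
    (h : q x < 1 / (2 * 4 ^ (N + 1 + N))) :
    avc q N x = 0 := by
  unfold avc
  have h1 : ∀ k ∈ Finset.range N, ch q (4 ^ (N + 1 + k)) x = 0 := by
    intro k hk
    apply th_zero
    have hk' := Finset.mem_range.1 hk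
    rw [lt_div_iff₀ (by positivity)] at h
    calc (4 : ℝ) ^ (N + 1 + k) * q x ≤ 4 ^ (N + 1 + N) * q x := by
          gcongr
          norm_num
      _ ≤ 1 / 2 := by linarith
  rw [Finset.sum_congr rfl h1]
  simp

theorem er_disj {q v : E n → ℝ} (hq : ContDiff ℝ ∞ q) {j k : ℕ} (hjk : j < k) (x : E n) :
    er q v (4 ^ j) x * er q v (4 ^ k) x = 0 := by
  by_cases h1 : (4 : ℝ) ^ j * q x < 1 / 2
  · rw [er_zero_of hq (Or.inl h1), zero_mul]
  · push Not at h1
    have hq0 : 0 ≤ q x := by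
      by_contra h
      push Not at h
      have : (4 : ℝ) ^ j * q x < 0 := mul_neg_of_pos_of_neg (by positivity) h
      linarith
    have h2 : 1 < (4 : ℝ) ^ k * q x := by
      calc (1 : ℝ) < 4 * (1 / 2) := by norm_num
        _ ≤ 4 * (4 ^ j * q x) := by gcongr
        _ = 4 ^ (j + 1) * q x := by ring
        _ ≤ 4 ^ k * q x := by
          gcongr
          · norm_num
          · omega
    rw [er_zero_of hq (Or.inr h2), mul_zero]

theorem sq_sum_disj (f : ℕ → ℝ) (N : ℕ) (h : ∀ i j, i < j → f i * f j = 0) :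
    (∑ k ∈ Finset.range N, f k) ^ 2 = ∑ k ∈ Finset.range N, (f k) ^ 2 := by
  induction N with
  | zero => simp
  | succ N ih =>
    rw [Finset.sum_range_succ, Finset.sum_range_succ, add_sq, ih]
    have : (∑ k ∈ Finset.range N, f k) * f N = 0 := by
      rw [Finset.sum_mul]
      exact Finset.sum_eq_zero fun k hk => h k N (Finset.mem_range.1 hk)
    rw [mul_assoc, this]
    ring

theorem lap_avc {q v : E n → ℝ} (hq : ContDiff ℝ ∞ q) (hv : ContDiff ℝ ∞ v) (N : ℕ) :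
    lap (fun x => avc q N x * v x) = fun x => avc q N x * lap v x +
      (N : ℝ)⁻¹ * ∑ k ∈ Finset.range N, er q v (4 ^ (N + 1 + k)) x := by
  have e : (fun x => avc q N x * v x) =
      fun x => (N : ℝ)⁻¹ * ∑ k ∈ Finset.range N, (ch q (4 ^ (N + 1 + k)) x * v x) := by
    funext x
    unfold avc
    rw [mul_assoc, Finset.sum_mul]
  have hs : ∀ k, ContDiff ℝ ∞ (fun x => ch q (4 ^ (N + 1 + k)) x * v x) := fun k =>
    (ch_smooth hq _).mul hv
  rw [e, lap_cmul (ContDiff.sum fun k _ => hs k), lap_sum _ hs]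
  funext x
  simp only [er_eq hq hv]
  rw [Finset.sum_add_distrib, mul_add]
  unfold avc
  rw [mul_assoc, ← Finset.sum_mul]

/-- cut at a codimension two set on which `v` vanishes -/
theorem cut_slow {q v : E n → ℝ} (hq : ContDiff ℝ ∞ q) (hq0 : ∀ x, 0 ≤ q x) (hv : Tst v)
    {C t0 : ℝ} (hC : 0 ≤ C) (ht0 : 0 < t0) (h1 : ∀ x ∈ tsupport v, ∑ i, (pd i q x) ^ 2 ≤ C * q x)
    (h2 : ∀ x ∈ tsupport v, |lap q x| ≤ C) (h3 : ∀ x, (v x) ^ 2 ≤ C * q x)
    (hvol : ∀ t : ℝ, 0 < t → t ≤ t0 → volume {x | q x ≤ t} ≤ ENNReal.ofReal (C * t)) :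
    ∀ δ : ℝ, 0 < δ → ∃ χ : E n → ℝ, ContDiff ℝ ∞ χ ∧
      En (fun x => χ x * v x - v x) ≤ δ ∧ (∃ η : ℝ, 0 < η ∧ ∀ x, q x < η → χ x = 0) ∧
      (∀ x, δ ≤ q x → χ x = 1) := by
  intro δ hδ
  obtain ⟨D, hD0, hD⟩ := er_bound hq hv hC h1 h2
  obtain ⟨M, hM0, hM⟩ := hv.lap.bound
  -- choice of N
  have hlim : Tendsto (fun N : ℕ => ((1 : ℝ) / 4) ^ (N + 1)) atTop (𝓝 0) :=
    (tendsto_pow_atTop_nhds_zero_of_lt_one (by norm_num) (by norm_num)).comp (tendsto_add_atTop_nat 1)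
  have hlim2 : Tendsto (fun N : ℕ => 2 * (M ^ 2 * (C * (((1 : ℝ) / 4) ^ (N + 1)))) +
      2 * ((N : ℝ)⁻¹ * (D * (1 + C) * C))) atTop (𝓝 (2 * (M ^ 2 * (C * 0)) +
      2 * (0 * (D * (1 + C) * C)))) := by
    apply Tendsto.add
    · exact ((hlim.const_mul C).const_mul _).const_mul _
    · exact ((tendsto_inv_atTop_nhds_zero_nat (𝕜 := ℝ)).mul_const _).const_mul _
  have hz : 2 * (M ^ 2 * (C * 0)) + 2 * (0 * (D * (1 + C) * C)) = 0 := by ring
  rw [hz] at hlim2
  have ev1 := hlim2.eventually (Iio_mem_nhds hδ)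
  have ev2 := hlim.eventually (Iio_mem_nhds (lt_min hδ ht0))
  obtain ⟨N, hN1', hN2', hN0⟩ := (ev1.and (ev2.and (eventually_gt_atTop 0))).exists
  have hN1 : 2 * (M ^ 2 * (C * (((1 : ℝ) / 4) ^ (N + 1)))) +
      2 * ((N : ℝ)⁻¹ * (D * (1 + C) * C)) < δ := hN1'
  have hN2 : ((1 : ℝ) / 4) ^ (N + 1) < min δ t0 := hN2'
  have hpow : ((1 : ℝ) / 4) ^ (N + 1) = 1 / 4 ^ (N + 1) := by rw [div_pow, one_pow]
  rw [hpow] at hN1 hN2
  have hNδ : 1 / (4 : ℝ) ^ (N + 1) < δ := hN2.trans_le (min_le_left _ _)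
  have hNt : 1 / (4 : ℝ) ^ (N + 1) < t0 := hN2.trans_le (min_le_right _ _)
  refine ⟨avc q N, avc_smooth hq N, ?_, ⟨1 / (2 * 4 ^ (N + 1 + N)), by positivity,
    fun x hx => avc_zero (hq0 x) hx⟩, fun x hx => avc_one hN0 (hNδ.le.trans hx)⟩
  set S : E n → ℝ := fun x => (N : ℝ)⁻¹ * ∑ k ∈ Finset.range N, er q v (4 ^ (N + 1 + k)) x with hSdef
  have hSt : Tst S := by
    have : ∀ m : ℕ, Tst (fun x => ∑ k ∈ Finset.range m, er q v (4 ^ (N + 1 + k)) x) := by
      intro m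
      induction m with
      | zero => simpa using Tst.zero
      | succ m ih =>
        simp only [Finset.sum_range_succ]
        exact ih.add (er_tst hq hv _)
    exact (this N).cmul _
  have e : En (fun x => avc q N x * v x - v x) =
      ∫ x, (avc q N x * lap v x + S x - lap v x) ^ 2 := by
    unfold En
    rw [lap_sub ((avc_smooth hq N).mul hv.1) hv.1, lap_avc hq hv.1]
  rw [e]
  have hSm : MeasurableSet {x | q x ≤ 1 / 4 ^ (N + 1)} :=
    measurableSet_le hq.continuous.measurable measurable_const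
  have hc := hvol (1 / 4 ^ (N + 1)) (by positivity) hNt.le
  have hfin : volume {x | q x ≤ 1 / 4 ^ (N + 1)} ≠ ⊤ := ne_top_of_le_ne_top ENNReal.ofReal_ne_top hc
  have hi : Integrable ({x | q x ≤ 1 / 4 ^ (N + 1)}.indicator (fun _ => M ^ 2)) := by
    rw [integrable_indicator_iff hSm]
    exact integrableOn_const hfin
  have hT : Tst (fun x => avc q N x * lap v x + S x - lap v x) :=
    ((Tst.mul_left (avc_smooth hq N) hv.lap).add hSt).sub hv.lap
  have b1 : ∫ x, ({x | q x ≤ 1 / 4 ^ (N + 1)}.indicator (fun _ => M ^ 2)) x ≤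
      M ^ 2 * (C * (1 / 4 ^ (N + 1))) :=
    int_le_ind hi hSm (by positivity) (by positivity) (fun x => le_rfl) hc
  have b2 : ∫ x, (S x) ^ 2 ≤ (N : ℝ)⁻¹ * (D * (1 + C) * C) := by
    have e1 : ∀ x, (S x) ^ 2 = ((N : ℝ)⁻¹) ^ 2 * ∑ k ∈ Finset.range N,
        (er q v (4 ^ (N + 1 + k)) x) ^ 2 := by
      intro x
      rw [hSdef]
      simp only
      rw [mul_pow, sq_sum_disj]
      intro i j hij
      exact er_disj hq (by omega) x
    simp only [e1]
    rw [integral_const_mul, integral_finsetSum _ (fun k _ => (er_tst hq hv _).sq_int)]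
    have hk : ∀ k ∈ Finset.range N, ∫ x, (er q v (4 ^ (N + 1 + k)) x) ^ 2 ≤ D * (1 + C) * C := by
      intro k _
      set l : ℝ := 4 ^ (N + 1 + k) with hl
      have hl0 : 0 < l := by positivity
      have hlt : 1 / l ≤ t0 := by
        refine le_trans ?_ hNt.le
        rw [hl]
        exact one_div_le_one_div_of_le (by positivity)
          (pow_le_pow_right₀ (by norm_num) (by omega))
      have hb := er_int_bound hq hv hD0 (by positivity : 0 ≤ C * (1 / l)) hl0 (hD l hl0)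
        (fun x hx => (h3 x).trans (by gcongr)) (by positivity : 0 ≤ C * (1 / l))
        (hvol (1 / l) (by positivity) hlt)
      refine hb.trans (le_of_eq ?_)
      field_simp
    calc ((N : ℝ)⁻¹) ^ 2 * ∑ k ∈ Finset.range N, ∫ x, (er q v (4 ^ (N + 1 + k)) x) ^ 2
        ≤ ((N : ℝ)⁻¹) ^ 2 * ∑ _k ∈ Finset.range N, D * (1 + C) * C := by
          gcongr with k hk'
          exact hk k hk'
      _ = (N : ℝ)⁻¹ * (D * (1 + C) * C) := by
          have hN' : (0 : ℝ) < N := by exact_mod_cast hN0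
          rw [Finset.sum_const, Finset.card_range, nsmul_eq_mul]
          field_simp
  calc ∫ x, (avc q N x * lap v x + S x - lap v x) ^ 2
      ≤ ∫ x, (2 * ({x | q x ≤ 1 / 4 ^ (N + 1)}.indicator (fun _ => M ^ 2) x) + 2 * (S x) ^ 2) := by
        apply integral_mono hT.sq_int ((hi.const_mul 2).add (hSt.sq_int.const_mul 2))
        intro x
        exact En_cut M (hM x) (avc_nonneg q N x) (avc_le_one q hN0 x) (fun h => avc_one hN0 h)
    _ = 2 * (∫ x, ({x | q x ≤ 1 / 4 ^ (N + 1)}.indicator (fun _ => M ^ 2) x)) +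
        2 * ∫ x, (S x) ^ 2 := by
        rw [integral_add (hi.const_mul 2) (hSt.sq_int.const_mul 2),
          integral_const_mul, integral_const_mul]
    _ ≤ 2 * (M ^ 2 * (C * (1 / 4 ^ (N + 1)))) + 2 * ((N : ℝ)⁻¹ * (D * (1 + C) * C)) := by gcongr
    _ ≤ δ := hN1.le

end Pool.Agent.Helper749.Bi
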