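import Pool.Agent.Helper749.Bi.Basic

open MeasureTheory Metric Set Filter Topology
open scoped ENNReal NNReal RealInnerProductSpace ContDiff

set_option linter.unusedSectionVars false

namespace Pool.Agent.Helper749.Bi

variable {n : ℕ}

theorem rad_hasFDerivAt {F : ℝ → ℝ} {F' : ℝ} {z : E n} (h : HasDerivAt F F' (‖z‖ ^ 2)) :
    HasFDerivAt (fun z : E n => F (‖z‖ ^ 2)) ((2 * F') • innerSL ℝ z) z := by
  have h1 : HasFDerivAt (fun z : E n => ‖z‖ ^ 2) (2 • innerSL ℝ z) z :=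
    (hasStrictFDerivAt_norm_sq z).hasFDerivAt
  have h2 := h.comp_hasFDerivAt z h1
  refine h2.congr_fderiv ?_
  ext v
  simp
  ring

theorem rad_pd {F : ℝ → ℝ} {F' : ℝ} {z : E n} (h : HasDerivAt F F' (‖z‖ ^ 2)) (i : Fin n) :
    pd i (fun z : E n => F (‖z‖ ^ 2)) z = 2 * z i * F' := by
  unfold pd
  rw [(rad_hasFDerivAt h).fderiv]
  simp [EuclideanSpace.inner_single_right]
  ring

theorem rad_pd2 {F : ℝ → ℝ} {F' : ℝ} {z : E n} (h : HasDerivAt F F' (‖z‖ ^ 2)) (i : Fin n) :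
    pd i (fun z : E n => 2 * z i * F (‖z‖ ^ 2)) z = 2 * F (‖z‖ ^ 2) + 4 * z i ^ 2 * F' := by
  have h1 : HasFDerivAt (fun z : E n => 2 * z i) ((2 : ℝ) • (EuclideanSpace.proj i : E n →L[ℝ] ℝ)) z := by
    have := (EuclideanSpace.proj i : E n →L[ℝ] ℝ).hasFDerivAt (x := z)
    exact this.const_mul 2
  have h2 := h1.mul (rad_hasFDerivAt h)
  unfold pd
  have h3 : (fun z : E n => 2 * z i * F (‖z‖ ^ 2)) =
      (fun z : E n => 2 * z i) * fun z => F (‖z‖ ^ 2) := rfl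
  rw [h3, h2.fderiv]
  simp [EuclideanSpace.inner_single_right]
  ring

theorem lap_rad {F F1 F2 : ℝ → ℝ} (h1 : ∀ s, 0 ≤ s → HasDerivAt F (F1 s) s)
    (h2 : ∀ s, 0 ≤ s → HasDerivAt F1 (F2 s) s) (hs : ContDiff ℝ ∞ (fun z : E n => F (‖z‖ ^ 2))) :
    lap (fun z : E n => F (‖z‖ ^ 2)) =
      fun z => 4 * ‖z‖ ^ 2 * F2 (‖z‖ ^ 2) + 2 * n * F1 (‖z‖ ^ 2) := by
  rw [lap_eq hs]
  funext z
  have e1 : ∀ i, pd i (fun z : E n => F (‖z‖ ^ 2)) = fun z => 2 * z i * F1 (‖z‖ ^ 2) := by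
    intro i
    funext z
    exact rad_pd (h1 _ (by positivity)) i
  have e2 : ∀ i, pd i (pd i (fun z : E n => F (‖z‖ ^ 2))) z =
      2 * F1 (‖z‖ ^ 2) + 4 * z i ^ 2 * F2 (‖z‖ ^ 2) := by
    intro i
    rw [e1]
    exact rad_pd2 (h2 _ (by positivity)) i
  simp only [e2]
  rw [Finset.sum_add_distrib, ← Finset.sum_mul, ← Finset.sum_mul, ← Finset.mul_sum,
    ← EuclideanSpace.real_norm_sq_eq]
  simp
  ring

theorem bilap_rad {F F1 F2 F3 F4 : ℝ → ℝ} (h1 : ∀ s, 0 ≤ s → HasDerivAt F (F1 s) s)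
    (h2 : ∀ s, 0 ≤ s → HasDerivAt F1 (F2 s) s) (h3 : ∀ s, 0 ≤ s → HasDerivAt F2 (F3 s) s)
    (h4 : ∀ s, 0 ≤ s → HasDerivAt F3 (F4 s) s)
    (hs : ContDiff ℝ ∞ (fun z : E n => F (‖z‖ ^ 2))) :
    bilap (fun z : E n => F (‖z‖ ^ 2)) =
      fun z => 16 * (‖z‖ ^ 2) ^ 2 * F4 (‖z‖ ^ 2) + 16 * (n + 2) * ‖z‖ ^ 2 * F3 (‖z‖ ^ 2) +
        4 * n * (n + 2) * F2 (‖z‖ ^ 2) := by
  have e1 := lap_rad h1 h2 hs
  rw [bilap_eq hs]
  have hs' := lap_smooth hs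
  rw [e1] at hs' ⊢
  have g1 : ∀ s, 0 ≤ s → HasDerivAt (fun s => 4 * s * F2 s + 2 * n * F1 s)
      (4 * s * F3 s + (2 * n + 4) * F2 s) s := by
    intro s hs
    have a1 := ((hasDerivAt_id s).const_mul 4).mul (h3 s hs)
    have a2 := (h2 s hs).const_mul (2 * (n : ℝ))
    refine (a1.add a2).congr_deriv ?_
    simp
    ring
  have g2 : ∀ s, 0 ≤ s → HasDerivAt (fun s => 4 * s * F3 s + (2 * n + 4) * F2 s)
      (4 * s * F4 s + (2 * n + 8) * F3 s) s := by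
    intro s hs
    have a1 := ((hasDerivAt_id s).const_mul 4).mul (h4 s hs)
    have a2 := (h3 s hs).const_mul (2 * (n : ℝ) + 4)
    refine (a1.add a2).congr_deriv ?_
    simp
    ring
  have e2 := lap_rad (F := fun s => 4 * s * F2 s + 2 * n * F1 s) g1 g2 hs'
  rw [e2]
  funext z
  ring

end Pool.Agent.Helper749.Bi
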