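import Pool.Agent.Helper749.Bi.Basic

open MeasureTheory Metric Set Filter Topology
open scoped ENNReal NNReal RealInnerProductSpace ContDiff

set_option linter.unusedSectionVars false

namespace Pool.Agent.Helper749.Bi

variable {m : ℕ}

/-- prepend a coordinate -/
noncomputable def cn (s : ℝ) (z : E m) : E (m + 1) :=
  WithLp.toLp 2 (Fin.cons s z.ofLp : Fin (m + 1) → ℝ)

@[simp] theorem cn_zero (s : ℝ) (z : E m) : (cn s z) 0 = s := rfl

@[simp] theorem cn_succ (s : ℝ) (z : E m) (i : Fin m) : (cn s z) i.succ = z i := rfl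

theorem cn_norm_sq (s : ℝ) (z : E m) : ‖cn s z‖ ^ 2 = s ^ 2 + ‖z‖ ^ 2 := by
  rw [EuclideanSpace.real_norm_sq_eq, EuclideanSpace.real_norm_sq_eq, Fin.sum_univ_succ]
  simp

theorem peel {f : E (m + 1) → ℝ≥0∞} (hf : Measurable f) :
    ∫⁻ x, f x = ∫⁻ s : ℝ, ∫⁻ z : E m, f (cn s z) := by
  have h1 := (PiLp.volume_preserving_toLp (Fin (m + 1))).lintegral_comp hf
  rw [← h1]
  have h2 := (volume_preserving_piFinSuccAbove (fun _ : Fin (m + 1) => ℝ) 0).symm
  have hf2 : Measurable (fun y : Fin (m + 1) → ℝ => f (WithLp.toLp 2 y)) :=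
    hf.comp (PiLp.volume_preserving_toLp (Fin (m + 1))).measurable
  rw [← h2.lintegral_comp hf2]
  have hf3 := hf2.comp h2.measurable
  change ∫⁻ p, ((fun y : Fin (m + 1) → ℝ => f (WithLp.toLp 2 y)) ∘
    (MeasurableEquiv.piFinSuccAbove (fun _ : Fin (m + 1) => ℝ) 0).symm) p ∂(volume.prod volume) = _
  rw [lintegral_prod _ hf3.aemeasurable]
  apply lintegral_congr
  intro s
  have hf4 : Measurable (fun w : Fin m → ℝ => ((fun y : Fin (m + 1) → ℝ => f (WithLp.toLp 2 y)) ∘
    (MeasurableEquiv.piFinSuccAbove (fun _ : Fin (m + 1) => ℝ) 0).symm) (s, w)) :=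
    hf3.comp (measurable_const.prodMk measurable_id)
  have h3 := (PiLp.volume_preserving_ofLp (Fin m)).lintegral_comp hf4
  rw [← h3]
  refine lintegral_congr fun z => ?_
  simp only [Function.comp_apply]
  congr 1
  unfold cn
  congr 1
  change (Fin.insertNth (α := fun _ : Fin (m + 1) => ℝ) 0 s z.ofLp : Fin (m + 1) → ℝ) = _
  rw [Fin.insertNth_zero']

theorem radial {k : ℕ} {h : ℝ → ℝ≥0∞} (hh : Measurable h) :
    ∫⁻ z : E (k + 1), h ‖z‖ = ((k + 1 : ℕ) * volume (ball (0 : E (k + 1)) 1)) *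
      ∫⁻ r in Ioi (0 : ℝ), ENNReal.ofReal (r ^ k) * h r := by
  have e1 : ∫⁻ z : E (k + 1), h ‖z‖ =
      ∫⁻ z : ({(0 : E (k + 1))}ᶜ : Set (E (k + 1))), h ‖z.1‖ ∂((volume : Measure (E (k + 1))).comap (↑)) := by
    rw [lintegral_subtype_comap (measurableSet_singleton _).compl (fun z : E (k + 1) => h ‖z‖),
      restrict_compl_singleton]
  rw [e1]
  have e2 := (volume : Measure (E (k + 1))).measurePreserving_homeomorphUnitSphereProd.lintegral_comp_emb
    (Homeomorph.measurableEmbedding _) (h ∘ Subtype.val ∘ Prod.snd)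
  simp only [Function.comp_def, homeomorphUnitSphereProd_apply_snd_coe] at e2
  rw [e2]
  have hm : Measurable (fun x : Ioi (0 : ℝ) => h x) := hh.comp measurable_subtype_coe
  have hm2 : Measurable (fun b : sphere (0 : E (k + 1)) 1 × Ioi (0 : ℝ) => h b.2) :=
    hm.comp measurable_snd
  rw [lintegral_prod _ hm2.aemeasurable]
  simp only [lintegral_const]
  rw [Measure.toSphere_apply_univ, mul_comm]
  have hd : Module.finrank ℝ (E (k + 1)) = k + 1 := by simp
  rw [hd]
  congr 1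
  simp only [Nat.add_sub_cancel]
  unfold Measure.volumeIoiPow
  rw [lintegral_withDensity_eq_lintegral_mul _ (by fun_prop) hm]
  have := lintegral_subtype_comap (μ := (volume : Measure ℝ)) measurableSet_Ioi
    (fun r : ℝ => ENNReal.ofReal (r ^ k) * h r) (s := Ioi (0 : ℝ))
  rw [← this]
  rfl


/-- projection off the axis -/
noncomputable def Pj (y : E (m + 1)) : E (m + 1) := y - (y 0) • ev 0

/-- radial projection to the sphere in the hyperplane -/
noncomputable def Tj (y : E (m + 1)) : E (m + 1) := ‖Pj y‖⁻¹ • Pj y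

theorem Pj_cn (s : ℝ) (z : E m) : Pj (cn s z) = cn 0 z := by
  unfold Pj
  ext i
  refine Fin.cases ?_ (fun j => ?_) i
  · simp
  · simp [Fin.succ_ne_zero]

theorem Pj_continuous : Continuous (Pj (m := m)) := by
  unfold Pj
  fun_prop

theorem Tj_measurable : Measurable (Tj (m := m)) := by
  unfold Tj
  exact (Pj_continuous.norm.measurable.inv).smul Pj_continuous.measurable

theorem Pj_cn_norm (s : ℝ) (z : E m) : ‖Pj (cn s z)‖ = ‖z‖ := by
  have h := cn_norm_sq 0 z
  rw [Pj_cn]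
  have : ‖cn 0 z‖ ^ 2 = ‖z‖ ^ 2 := by rw [h]; ring
  exact (sq_eq_sq₀ (norm_nonneg _) (norm_nonneg _)).1 this

theorem Tj_cn_one (s r : ℝ) (z : E m) : (Tj (cn s (cn r z))) 1 = r / Real.sqrt (r ^ 2 + ‖z‖ ^ 2) := by
  unfold Tj
  rw [PiLp.smul_apply, Pj_cn_norm, Pj_cn]
  have h : Real.sqrt (r ^ 2 + ‖z‖ ^ 2) = ‖cn r z‖ := by
    rw [← cn_norm_sq, Real.sqrt_sq (norm_nonneg _)]
  rw [h, smul_eq_mul]
  have : (cn 0 (cn r z)) 1 = r := rfl
  rw [this]
  ring

/-- indicator of the unit interval -/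
noncomputable def chi (s : ℝ) : ℝ≥0∞ := (Iio (1 : ℝ)).indicator (fun _ => 1) s

theorem chi_meas : Measurable chi := measurable_const.indicator measurableSet_Iio

/-- indicator of the positive numbers -/
noncomputable def chp (s : ℝ) : ℝ≥0∞ := (Ioi (0 : ℝ)).indicator (fun _ => 1) s

theorem chp_meas : Measurable chp := measurable_const.indicator measurableSet_Ioi

/-- the angular integral -/
noncomputable def Jg (k : ℕ) (g : ℝ → ℝ≥0∞) : ℝ≥0∞ :=
  ∫⁻ θ in Ioo 0 Real.pi, ENNReal.ofReal (Real.sin θ ^ k) * g (Real.cos θ)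

theorem Jg_eq (k : ℕ) (g : ℝ → ℝ≥0∞) :
    ∫⁻ θ in Ioo (-Real.pi) Real.pi, chp (Real.sin θ) * (ENNReal.ofReal (Real.sin θ ^ k) *
      g (Real.cos θ)) = Jg k g := by
  unfold Jg
  rw [← lintegral_indicator measurableSet_Ioo, ← lintegral_indicator measurableSet_Ioo]
  apply lintegral_congr_ae
  have h0 : ∀ᵐ θ : ℝ, θ ≠ 0 := by
    rw [ae_iff]; simp
  filter_upwards [h0] with θ hθ
  by_cases h1 : θ ∈ Ioo (-Real.pi) Real.pi
  · rw [indicator_of_mem h1]
    by_cases h2 : 0 < θ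
    · have h3 : θ ∈ Ioo 0 Real.pi := ⟨h2, h1.2⟩
      rw [indicator_of_mem h3]
      have h4 : chp (Real.sin θ) = 1 := by
        unfold chp
        rw [indicator_of_mem]
        exact Real.sin_pos_of_mem_Ioo h3
      rw [h4, one_mul]
    · have h3 : θ ∉ Ioo 0 Real.pi := fun h => h2 h.1
      rw [indicator_of_notMem h3]
      have h4 : chp (Real.sin θ) = 0 := by
        unfold chp
        rw [indicator_of_notMem]
        simp only [mem_Ioi, not_lt]
        exact Real.sin_nonpos_of_nonpos_of_neg_pi_le (by linarith) h1.1.le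
      rw [h4, zero_mul]
  · have h3 : θ ∉ Ioo 0 Real.pi := fun h => h1 ⟨by linarith [h.1, Real.pi_pos], h.2⟩
    rw [indicator_of_notMem h1, indicator_of_notMem h3]

theorem polar_part (k : ℕ) {g : ℝ → ℝ≥0∞} (hg : Measurable g) (s : ℝ) :
    ∫⁻ r : ℝ, ∫⁻ ρ : ℝ, chp ρ * (ENNReal.ofReal (ρ ^ k) * (chi (s ^ 2 + (r ^ 2 + ρ ^ 2)) *
      g (r / Real.sqrt (r ^ 2 + ρ ^ 2)))) =
    (∫⁻ q in Ioi (0 : ℝ), ENNReal.ofReal (q ^ (k + 1)) * chi (s ^ 2 + q ^ 2)) * Jg k g := by
  have hm : Measurable (fun p : ℝ × ℝ => chp p.2 * (ENNReal.ofReal (p.2 ^ k) *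
      (chi (s ^ 2 + (p.1 ^ 2 + p.2 ^ 2)) * g (p.1 / Real.sqrt (p.1 ^ 2 + p.2 ^ 2))))) := by
    have h1 : Measurable (fun p : ℝ × ℝ => chp p.2) := chp_meas.comp measurable_snd
    have h2 : Measurable (fun p : ℝ × ℝ => chi (s ^ 2 + (p.1 ^ 2 + p.2 ^ 2))) :=
      chi_meas.comp (by fun_prop)
    have h3 : Measurable (fun p : ℝ × ℝ => g (p.1 / Real.sqrt (p.1 ^ 2 + p.2 ^ 2))) :=
      hg.comp (by fun_prop)
    exact h1.mul ((by fun_prop : Measurable fun p : ℝ × ℝ => ENNReal.ofReal (p.2 ^ k)).mul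
      (h2.mul h3))
  have e1 := lintegral_prod (μ := (volume : Measure ℝ)) (ν := (volume : Measure ℝ)) _ hm.aemeasurable
  simp only at e1
  rw [← e1]
  change ∫⁻ p : ℝ × ℝ, _ = _
  rw [← lintegral_comp_polarCoord_symm]
  have e2 : (polarCoord.target : Set (ℝ × ℝ)) = Ioi 0 ×ˢ Ioo (-Real.pi) Real.pi := rfl
  rw [e2]
  have e3 : ∀ p ∈ (Ioi (0:ℝ) ×ˢ Ioo (-Real.pi) Real.pi : Set (ℝ × ℝ)),
      ENNReal.ofReal p.1 • (fun p : ℝ × ℝ => chp p.2 * (ENNReal.ofReal (p.2 ^ k) *
      (chi (s ^ 2 + (p.1 ^ 2 + p.2 ^ 2)) * g (p.1 / Real.sqrt (p.1 ^ 2 + p.2 ^ 2)))))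
      (polarCoord.symm p) =
      (ENNReal.ofReal (p.1 ^ (k + 1)) * chi (s ^ 2 + p.1 ^ 2)) *
      (chp (Real.sin p.2) * (ENNReal.ofReal (Real.sin p.2 ^ k) * g (Real.cos p.2))) := by
    rintro ⟨q, θ⟩ ⟨hq, hθ⟩
    simp only [mem_Ioi] at hq
    simp only [polarCoord_symm_apply]
    have a1 : (q * Real.cos θ) ^ 2 + (q * Real.sin θ) ^ 2 = q ^ 2 := by
      have := Real.sin_sq_add_cos_sq θ
      calc (q * Real.cos θ) ^ 2 + (q * Real.sin θ) ^ 2
          = q ^ 2 * (Real.sin θ ^ 2 + Real.cos θ ^ 2) := by ring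
        _ = q ^ 2 := by rw [this, mul_one]
    rw [a1, Real.sqrt_sq hq.le, mul_div_cancel_left₀ _ hq.ne']
    by_cases hs : 0 < Real.sin θ
    · have c1 : chp (q * Real.sin θ) = 1 := by
        unfold chp
        exact indicator_of_mem (mul_pos hq hs : q * Real.sin θ ∈ Ioi 0) _
      have c2 : chp (Real.sin θ) = 1 := by
        unfold chp
        exact indicator_of_mem (hs : Real.sin θ ∈ Ioi 0) _
      rw [c1, c2, one_mul, one_mul, smul_eq_mul, mul_pow,
        ENNReal.ofReal_mul (by positivity : 0 ≤ q ^ k), pow_succ q k,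
        ENNReal.ofReal_mul (by positivity : 0 ≤ q ^ k)]
      ring
    · have c1 : chp (q * Real.sin θ) = 0 := by
        unfold chp
        apply indicator_of_notMem
        simp only [mem_Ioi, not_lt]
        push Not at hs
        exact mul_nonpos_of_nonneg_of_nonpos hq.le hs
      have c2 : chp (Real.sin θ) = 0 := by
        unfold chp
        exact indicator_of_notMem (by simpa using hs) _
      rw [c1, c2]
      simp
  rw [setLIntegral_congr_fun (measurableSet_Ioi.prod measurableSet_Ioo) e3]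
  rw [← Jg_eq]
  have hA : Measurable (fun q : ℝ => ENNReal.ofReal (q ^ (k + 1)) * chi (s ^ 2 + q ^ 2)) :=
    (by fun_prop : Measurable fun q : ℝ => ENNReal.ofReal (q ^ (k + 1))).mul
      (chi_meas.comp (by fun_prop))
  have hB : Measurable (fun θ : ℝ => chp (Real.sin θ) * (ENNReal.ofReal (Real.sin θ ^ k) *
      g (Real.cos θ))) :=
    (chp_meas.comp Real.measurable_sin).mul ((by fun_prop : Measurable fun θ : ℝ =>
      ENNReal.ofReal (Real.sin θ ^ k)).mul (hg.comp Real.measurable_cos))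
  have e4 : (volume : Measure (ℝ × ℝ)).restrict (Ioi 0 ×ˢ Ioo (-Real.pi) Real.pi) =
      (volume.restrict (Ioi 0)).prod (volume.restrict (Ioo (-Real.pi) Real.pi)) := by
    rw [Measure.prod_restrict]; rfl
  rw [e4, lintegral_prod_mul hA.aemeasurable hB.aemeasurable]

theorem law_aux (k : ℕ) : ∃ C : ℝ≥0∞, ∀ g : ℝ → ℝ≥0∞, Measurable g →
    ∫⁻ y in ball (0 : E (k + 1 + 1 + 1)) 1, g ((Tj y) 1) = C * Jg k g := by
  refine ⟨((k + 1 : ℕ) * volume (ball (0 : E (k + 1)) 1)) *
    ∫⁻ s : ℝ, ∫⁻ q in Ioi (0 : ℝ), ENNReal.ofReal (q ^ (k + 1)) * chi (s ^ 2 + q ^ 2),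
    fun g hg => ?_⟩
  have e1 : ∫⁻ y in ball (0 : E (k + 1 + 1 + 1)) 1, g ((Tj y) 1) =
      ∫⁻ y : E (k + 1 + 1 + 1), chi (‖y‖ ^ 2) * g ((Tj y) 1) := by
    rw [← lintegral_indicator measurableSet_ball]
    apply lintegral_congr
    intro y
    by_cases hy : y ∈ ball (0 : E (k + 1 + 1 + 1)) 1
    · rw [indicator_of_mem hy]
      have : chi (‖y‖ ^ 2) = 1 := by
        unfold chi
        apply indicator_of_mem
        have : ‖y‖ < 1 := by simpa using hy
        simp only [mem_Iio]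
        nlinarith [norm_nonneg y]
      rw [this, one_mul]
    · rw [indicator_of_notMem hy]
      have : chi (‖y‖ ^ 2) = 0 := by
        unfold chi
        apply indicator_of_notMem
        have : 1 ≤ ‖y‖ := by simpa using hy
        simp only [mem_Iio, not_lt]
        nlinarith [norm_nonneg y]
      rw [this, zero_mul]
  have hm1 : Measurable (fun y : E (k + 1 + 1 + 1) => chi (‖y‖ ^ 2) * g ((Tj y) 1)) := by
    have h1 : Measurable (fun y : E (k + 1 + 1 + 1) => chi (‖y‖ ^ 2)) :=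
      chi_meas.comp (by fun_prop)
    have h2 : Measurable (fun y : E (k + 1 + 1 + 1) => (Tj y) 1) :=
      (by fun_prop : Measurable fun y : E (k + 1 + 1 + 1) => y 1).comp Tj_measurable
    exact h1.mul (hg.comp h2)
  rw [e1, peel hm1]
  have e2 : ∀ s : ℝ, ∫⁻ y : E (k + 1 + 1), chi (‖cn s y‖ ^ 2) * g ((Tj (cn s y)) 1) =
      ((k + 1 : ℕ) * volume (ball (0 : E (k + 1)) 1)) *
      ((∫⁻ q in Ioi (0 : ℝ), ENNReal.ofReal (q ^ (k + 1)) * chi (s ^ 2 + q ^ 2)) * Jg k g) := by
    intro s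
    have hm2 : Measurable (fun y : E (k + 1 + 1) => chi (‖cn s y‖ ^ 2) * g ((Tj (cn s y)) 1)) := by
      have : Measurable (fun y : E (k + 1 + 1) => cn s y) := by
        have hc : Continuous (fun y : E (k + 1 + 1) => cn s y) := by
          unfold cn
          have : Continuous (fun y : E (k + 1 + 1) =>
            (Fin.cons s y.ofLp : Fin (k + 1 + 1 + 1) → ℝ)) := by
            refine continuous_pi (fun i => ?_)
            refine Fin.cases ?_ (fun j => ?_) i
            · simpa using continuous_const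
            · simp only [Fin.cons_succ]
              fun_prop
          exact (PiLp.continuous_toLp 2 _).comp this
        exact hc.measurable
      exact hm1.comp this
    rw [peel hm2, ← polar_part k hg s, ← lintegral_const_mul]
    · apply lintegral_congr
      intro r
      simp only [Tj_cn_one, cn_norm_sq]
      have hh : Measurable (fun ρ : ℝ => chi (s ^ 2 + (r ^ 2 + ρ ^ 2)) *
          g (r / Real.sqrt (r ^ 2 + ρ ^ 2))) :=
        (chi_meas.comp (by fun_prop)).mul (hg.comp (by fun_prop))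
      rw [radial hh]
      congr 1
      rw [← lintegral_indicator measurableSet_Ioi]
      apply lintegral_congr
      intro ρ
      by_cases hρ : ρ ∈ Ioi (0 : ℝ)
      · rw [indicator_of_mem hρ]
        have : chp ρ = 1 := indicator_of_mem hρ _
        rw [this, one_mul]
      · rw [indicator_of_notMem hρ]
        have : chp ρ = 0 := indicator_of_notMem hρ _
        rw [this, zero_mul]
    · have hm : Measurable (fun p : ℝ × ℝ => chp p.2 * (ENNReal.ofReal (p.2 ^ k) *
          (chi (s ^ 2 + (p.1 ^ 2 + p.2 ^ 2)) * g (p.1 / Real.sqrt (p.1 ^ 2 + p.2 ^ 2))))) := by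
        have h1 : Measurable (fun p : ℝ × ℝ => chp p.2) := chp_meas.comp measurable_snd
        have h2 : Measurable (fun p : ℝ × ℝ => chi (s ^ 2 + (p.1 ^ 2 + p.2 ^ 2))) :=
          chi_meas.comp (by fun_prop)
        have h3 : Measurable (fun p : ℝ × ℝ => g (p.1 / Real.sqrt (p.1 ^ 2 + p.2 ^ 2))) :=
          hg.comp (by fun_prop)
        exact h1.mul ((by fun_prop : Measurable fun p : ℝ × ℝ => ENNReal.ofReal (p.2 ^ k)).mul
          (h2.mul h3))
      exact hm.lintegral_prod_right'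
  simp only [e2]
  have hm3 : Measurable (fun s : ℝ =>
      ∫⁻ q in Ioi (0 : ℝ), ENNReal.ofReal (q ^ (k + 1)) * chi (s ^ 2 + q ^ 2)) := by
    have : Measurable (fun p : ℝ × ℝ => ENNReal.ofReal (p.2 ^ (k + 1)) * chi (p.1 ^ 2 + p.2 ^ 2)) :=
      (by fun_prop : Measurable fun p : ℝ × ℝ => ENNReal.ofReal (p.2 ^ (k + 1))).mul
      (chi_meas.comp (by fun_prop))
    exact this.lintegral_prod_right'
  rw [lintegral_const_mul _ (hm3.mul_const _), lintegral_mul_const _ hm3]
  ring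

end Pool.Agent.Helper749.Bi
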