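import Pool.Agent.Helper749.Bi.Cut2
import Pool.Agent.Helper749.Bi.Radial
import Pool.Agent.Helper749.Bi.SphLaw

open MeasureTheory Metric Set Filter Topology
open scoped ENNReal NNReal RealInnerProductSpace ContDiff

set_option linter.unusedSectionVars false

namespace Pool.Agent.Helper749.Bi

variable {m n : ℕ}

/-- squared distance function to the codimension two sphere -/
noncomputable def qr (r : ℝ) (x : E (m + 1)) : ℝ := (‖x‖ ^ 2 - (x 0) ^ 2 - r ^ 2) ^ 2 + (x 0) ^ 2

theorem sos_bound {A B : E n → ℝ} (hA : ContDiff ℝ ∞ A) (hB : ContDiff ℝ ∞ B) {v : E n → ℝ}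
    (hv : Tst v) : ∃ C : ℝ, 0 ≤ C ∧
    (∀ x ∈ tsupport v, ∑ i, (pd i (fun x => A x * A x + B x * B x) x) ^ 2 ≤
      C * (A x * A x + B x * B x)) ∧
    (∀ x ∈ tsupport v, |lap (fun x => A x * A x + B x * B x) x| ≤ C) := by
  have hq : ContDiff ℝ ∞ (fun x => A x * A x + B x * B x) := (hA.mul hA).add (hB.mul hB)
  have hg : Continuous (fun x => ∑ i, ((pd i A x) ^ 2 + (pd i B x) ^ 2)) :=
    continuous_finsetSum _ fun i _ =>
      ((pd_smooth hA i).continuous.pow 2).add ((pd_smooth hB i).continuous.pow 2)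
  obtain ⟨C1, hC1⟩ := hv.2.isCompact.exists_bound_of_continuousOn hg.continuousOn
  obtain ⟨C2, hC2⟩ := hv.2.isCompact.exists_bound_of_continuousOn (lap_smooth hq).continuous.continuousOn
  refine ⟨4 * |C1| + |C2|, by positivity, fun x hx => ?_, fun x hx => ?_⟩
  · have h1 := (le_abs_self _).trans ((hC1 x hx).trans (le_abs_self C1))
    have h2 : ∀ i, (pd i (fun x => A x * A x + B x * B x) x) ^ 2 ≤
        4 * (A x * A x + B x * B x) * ((pd i A x) ^ 2 + (pd i B x) ^ 2) := by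
      intro i
      rw [pd_add (hA.mul hA) (hB.mul hB), pd_mul hA hA, pd_mul hB hB]
      simp only
      nlinarith [sq_nonneg (A x * pd i B x - B x * pd i A x)]
    calc ∑ i, (pd i (fun x => A x * A x + B x * B x) x) ^ 2
        ≤ ∑ i, 4 * (A x * A x + B x * B x) * ((pd i A x) ^ 2 + (pd i B x) ^ 2) :=
          Finset.sum_le_sum fun i _ => h2 i
      _ = 4 * (A x * A x + B x * B x) * ∑ i, ((pd i A x) ^ 2 + (pd i B x) ^ 2) := by
          rw [Finset.mul_sum]
      _ ≤ 4 * (A x * A x + B x * B x) * |C1| := by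
          have : 0 ≤ A x * A x + B x * B x := add_nonneg (mul_self_nonneg _) (mul_self_nonneg _)
          gcongr
      _ ≤ (4 * |C1| + |C2|) * (A x * A x + B x * B x) := by
          have h3 : 0 ≤ A x * A x + B x * B x := add_nonneg (mul_self_nonneg _) (mul_self_nonneg _)
          have : 0 ≤ |C2| * (A x * A x + B x * B x) := by positivity
          nlinarith
  · have h1 := (hC2 x hx).trans (le_abs_self C2)
    rw [Real.norm_eq_abs] at h1
    have : 0 ≤ 4 * |C1| := by positivity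
    linarith

theorem coord_smooth (i : Fin n) : ContDiff ℝ ∞ (fun x : E n => x i) := by fun_prop

theorem qrA_smooth (r : ℝ) : ContDiff ℝ ∞ (fun x : E (m + 1) => ‖x‖ ^ 2 - (x 0) ^ 2 - r ^ 2) :=
  ((contDiff_norm_sq ℝ).sub ((coord_smooth 0).pow 2)).sub contDiff_const

theorem qr_eq (r : ℝ) : (qr r : E (m + 1) → ℝ) = fun x =>
    (‖x‖ ^ 2 - (x 0) ^ 2 - r ^ 2) * (‖x‖ ^ 2 - (x 0) ^ 2 - r ^ 2) + x 0 * x 0 := by
  funext x
  unfold qr
  ring

theorem qr_smooth (r : ℝ) : ContDiff ℝ ∞ (qr r : E (m + 1) → ℝ) := by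
  rw [qr_eq]
  exact ((qrA_smooth r).mul (qrA_smooth r)).add ((coord_smooth 0).mul (coord_smooth 0))

theorem qr_nonneg (r : ℝ) (x : E (m + 1)) : 0 ≤ qr r x := by unfold qr; positivity

theorem qr_bound (r : ℝ) {v : E (m + 1) → ℝ} (hv : Tst v) : ∃ C : ℝ, 0 ≤ C ∧
    (∀ x ∈ tsupport v, ∑ i, (pd i (qr r) x) ^ 2 ≤ C * qr r x) ∧
    (∀ x ∈ tsupport v, |lap (qr r) x| ≤ C) := by
  have := sos_bound (qrA_smooth (m := m) r) (coord_smooth 0) hv
  rw [← qr_eq] at this
  obtain ⟨C, h0, h1, h2⟩ := this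
  refine ⟨C, h0, fun x hx => ?_, h2⟩
  have h3 := h1 x hx
  rw [qr_eq] at h3 ⊢
  exact h3

/-- Pythagoras -/
theorem Pj_norm_sq (x : E (m + 1)) : ‖Pj x‖ ^ 2 = ‖x‖ ^ 2 - (x 0) ^ 2 := by
  have h0 : (Pj x) 0 = 0 := by unfold Pj; simp
  have hs : ∀ i : Fin m, (Pj x) i.succ = x i.succ := by
    intro i
    unfold Pj
    simp [Fin.succ_ne_zero]
  rw [EuclideanSpace.real_norm_sq_eq, EuclideanSpace.real_norm_sq_eq, Fin.sum_univ_succ,
    Fin.sum_univ_succ, h0]
  simp only [hs]
  ring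

theorem split_norm_sq (x : E (m + 1)) (p : E (m + 1)) (hp : p 0 = 0) :
    ‖x - p‖ ^ 2 = (x 0) ^ 2 + ‖Pj x - p‖ ^ 2 := by
  have h := Pj_norm_sq (x - p)
  have e : Pj (x - p) = Pj x - p := by
    unfold Pj
    rw [PiLp.sub_apply, hp, sub_zero]
    abel
  rw [e, PiLp.sub_apply, hp, sub_zero] at h
  linarith

theorem near_pt (r : ℝ) (hr : 0 < r) (x : E (m + 1 + 1)) :
    ∃ p : E (m + 1 + 1), p 0 = 0 ∧ ‖p‖ = r ∧ ‖x - p‖ ^ 2 ≤ (1 + 1 / r ^ 2) * qr r x := by
  have key : ∃ p : E (m + 1 + 1), p 0 = 0 ∧ ‖p‖ = r ∧ ‖Pj x - p‖ ^ 2 = (‖Pj x‖ - r) ^ 2 := by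
    by_cases h : Pj x = 0
    · refine ⟨r • ev 1, by simp, ?_, ?_⟩
      · rw [norm_smul, PiLp.norm_single]
        simp [abs_of_pos hr]
      · rw [h]
        rw [zero_sub, norm_neg, norm_smul, PiLp.norm_single]
        simp
    · have hn : 0 < ‖Pj x‖ := norm_pos_iff.2 h
      refine ⟨(r / ‖Pj x‖) • Pj x, ?_, ?_, ?_⟩
      · have : (Pj x) 0 = 0 := by unfold Pj; simp
        simp [this]
      · rw [norm_smul, norm_div, norm_norm, Real.norm_of_nonneg hr.le]
        field_simp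
      · have e : Pj x - (r / ‖Pj x‖) • Pj x = (1 - r / ‖Pj x‖) • Pj x := by
          rw [sub_smul, one_smul]
        rw [e, norm_smul, mul_pow, Real.norm_eq_abs, sq_abs]
        field_simp
  obtain ⟨p, hp0, hp1, hp2⟩ := key
  refine ⟨p, hp0, hp1, ?_⟩
  rw [split_norm_sq x p hp0, hp2]
  have h1 := Pj_norm_sq x
  have h2 : (‖Pj x‖ - r) ^ 2 ≤ (1 / r ^ 2) * (‖x‖ ^ 2 - (x 0) ^ 2 - r ^ 2) ^ 2 := by
    rw [← h1]
    have e : ‖Pj x‖ ^ 2 - r ^ 2 = (‖Pj x‖ - r) * (‖Pj x‖ + r) := by ring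
    rw [e, mul_pow]
    have h3 : r ^ 2 ≤ (‖Pj x‖ + r) ^ 2 := by
      have := norm_nonneg (Pj x)
      gcongr
      linarith
    calc (‖Pj x‖ - r) ^ 2 = (1 / r ^ 2) * ((‖Pj x‖ - r) ^ 2 * r ^ 2) := by field_simp
      _ ≤ (1 / r ^ 2) * ((‖Pj x‖ - r) ^ 2 * (‖Pj x‖ + r) ^ 2) := by gcongr
  unfold qr
  have h4 : 0 ≤ (‖x‖ ^ 2 - (x 0) ^ 2 - r ^ 2) ^ 2 := sq_nonneg _
  have h5 : 0 ≤ (1 / r ^ 2) * (x 0) ^ 2 := by positivity
  nlinarith

theorem van_bound {r : ℝ} (hr : 0 < r) {v : E (m + 1 + 1) → ℝ} (hv : Tst v)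
    (h0 : ∀ x, x 0 = 0 → ‖x‖ = r → v x = 0) : ∃ C : ℝ, 0 ≤ C ∧ ∀ x, (v x) ^ 2 ≤ C * qr r x := by
  obtain ⟨K, hK⟩ := (hv.1.of_le (by simp) : ContDiff ℝ 1 v).lipschitzWith_of_hasCompactSupport
    hv.2 one_ne_zero
  refine ⟨(K : ℝ) ^ 2 * (1 + 1 / r ^ 2), by positivity, fun x => ?_⟩
  obtain ⟨p, hp0, hp1, hp2⟩ := near_pt r hr x
  have h1 := hK.dist_le_mul x p
  rw [Real.dist_eq, dist_eq_norm, h0 p hp0 hp1, sub_zero] at h1
  calc (v x) ^ 2 = |v x| ^ 2 := (sq_abs _).symm
    _ ≤ (K * ‖x - p‖) ^ 2 := by gcongr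
    _ = (K : ℝ) ^ 2 * ‖x - p‖ ^ 2 := by ring
    _ ≤ (K : ℝ) ^ 2 * ((1 + 1 / r ^ 2) * qr r x) := by gcongr
    _ = _ := by ring

theorem ann_vol {r b : ℝ} (hr : 0 < r) (hb : 0 ≤ b) (hbr : b ≤ r ^ 2) :
    volume {z : E (m + 1) | |‖z‖ ^ 2 - r ^ 2| ≤ b} ≤
      ENNReal.ofReal (2 * (b / r) * ((m + 1 : ℕ) * (2 * r) ^ m)) * volume (ball (0 : E (m + 1)) 1) := by
  set β := b / r with hβ
  have hβ0 : 0 ≤ β := by positivity
  have hβr : β ≤ r := by rw [hβ, div_le_iff₀ hr]; nlinarith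
  have hsub : {z : E (m + 1) | |‖z‖ ^ 2 - r ^ 2| ≤ b} ⊆
      closedBall (0 : E (m + 1)) (r + β) \ ball 0 (r - β) := by
    intro z hz
    have hz' : |‖z‖ ^ 2 - r ^ 2| ≤ b := hz
    have e : ‖z‖ ^ 2 - r ^ 2 = (‖z‖ - r) * (‖z‖ + r) := by ring
    rw [e, abs_mul, abs_of_nonneg (by positivity : 0 ≤ ‖z‖ + r)] at hz'
    have h1 : |‖z‖ - r| ≤ β := by
      rw [hβ, le_div_iff₀ hr]
      have : |‖z‖ - r| * r ≤ |‖z‖ - r| * (‖z‖ + r) := by
        gcongr
        linarith [norm_nonneg z]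
      linarith
    rw [abs_le] at h1
    constructor
    · simp only [mem_closedBall, dist_zero_right]; linarith
    · simp only [mem_ball, dist_zero_right, not_lt]; linarith
  have hfin : volume (ball (0 : E (m + 1)) (r - β)) ≠ ⊤ := measure_ball_lt_top.ne
  have hsub2 : ball (0 : E (m + 1)) (r - β) ⊆ closedBall 0 (r + β) := by
    intro z hz
    simp only [mem_ball, dist_zero_right, mem_closedBall] at *
    linarith
  have hd : Module.finrank ℝ (E (m + 1)) = m + 1 := by simp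
  calc volume {z : E (m + 1) | |‖z‖ ^ 2 - r ^ 2| ≤ b}
      ≤ volume (closedBall (0 : E (m + 1)) (r + β) \ ball 0 (r - β)) := measure_mono hsub
    _ = volume (closedBall (0 : E (m + 1)) (r + β)) - volume (ball (0 : E (m + 1)) (r - β)) :=
        measure_sdiff hsub2 measurableSet_ball.nullMeasurableSet hfin
    _ = ENNReal.ofReal ((r + β) ^ (m + 1) - (r - β) ^ (m + 1)) * volume (ball (0 : E (m + 1)) 1) := by
        rw [Measure.addHaar_closedBall volume (0 : E (m + 1)) (by positivity : 0 ≤ r + β),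
          Measure.addHaar_ball volume (0 : E (m + 1)) (by linarith : 0 ≤ r - β),
          hd, ENNReal.ofReal_sub _ (pow_nonneg (by linarith) _),
          ENNReal.sub_mul (fun _ _ => measure_ball_lt_top.ne)]
    _ ≤ _ := by
        gcongr
        have h1 := abs_pow_sub_pow_le (r + β) (r - β) (m + 1)
        have h2 : max |r + β| |r - β| = r + β := by
          rw [abs_of_nonneg (by positivity), abs_of_nonneg (by linarith), max_eq_left (by linarith)]
        rw [h2] at h1
        have h3 : |r + β - (r - β)| = 2 * β := by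
          rw [show r + β - (r - β) = 2 * β by ring, abs_of_nonneg (by positivity)]
        rw [h3] at h1
        simp only [Nat.add_sub_cancel] at h1
        calc (r + β) ^ (m + 1) - (r - β) ^ (m + 1) ≤ |(r + β) ^ (m + 1) - (r - β) ^ (m + 1)| :=
              le_abs_self _
          _ ≤ 2 * β * ((m + 1 : ℕ) : ℝ) * (r + β) ^ m := h1
          _ ≤ 2 * β * ((m + 1 : ℕ) : ℝ) * (2 * r) ^ m := by
              gcongr
              linarith
          _ = _ := by ring

theorem qr_vol {r : ℝ} (hr : 0 < r) : ∃ C t0 : ℝ, 0 ≤ C ∧ 0 < t0 ∧ ∀ t, 0 < t → t ≤ t0 →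
    volume {x : E (m + 1 + 1) | qr r x ≤ t} ≤ ENNReal.ofReal (C * t) := by
  set wv : ℝ := (volume (ball (0 : E (m + 1)) 1)).toReal with hwv
  have hwve : volume (ball (0 : E (m + 1)) 1) = ENNReal.ofReal wv :=
    (ENNReal.ofReal_toReal measure_ball_lt_top.ne).symm
  have hwv0 : 0 ≤ wv := ENNReal.toReal_nonneg
  refine ⟨2 * (2 * (1 / r) * ((m + 1 : ℕ) * (2 * r) ^ m)) * wv, r ^ 4, by positivity,
    by positivity, fun t ht htr => ?_⟩
  set b := Real.sqrt t with hb
  have hb0 : 0 ≤ b := Real.sqrt_nonneg _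
  have hb2 : b * b = t := Real.mul_self_sqrt ht.le
  have hbr : b ≤ r ^ 2 := by
    rw [hb, Real.sqrt_le_left (by positivity)]
    calc t ≤ r ^ 4 := htr
      _ = (r ^ 2) ^ 2 := by ring
  have hS : MeasurableSet {x : E (m + 1 + 1) | qr r x ≤ t} :=
    measurableSet_le (qr_smooth r).continuous.measurable measurable_const
  have hA : MeasurableSet {z : E (m + 1) | |‖z‖ ^ 2 - r ^ 2| ≤ b} :=
    measurableSet_le (by fun_prop) measurable_const
  rw [← lintegral_indicator_one hS, peel ((measurable_one).indicator hS)]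
  calc ∫⁻ s : ℝ, ∫⁻ z : E (m + 1), {x : E (m + 1 + 1) | qr r x ≤ t}.indicator 1 (cn s z)
      ≤ ∫⁻ s : ℝ, (Icc (-b) b).indicator (fun _ =>
          volume {z : E (m + 1) | |‖z‖ ^ 2 - r ^ 2| ≤ b}) s := by
        apply lintegral_mono
        intro s
        simp only
        have hq : ∀ z : E (m + 1), qr r (cn s z) = (‖z‖ ^ 2 - r ^ 2) ^ 2 + s ^ 2 := by
          intro z
          unfold qr
          rw [cn_norm_sq, cn_zero]
          ring
        by_cases hs : s ∈ Icc (-b) b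
        · rw [indicator_of_mem hs, ← lintegral_indicator_one hA]
          apply lintegral_mono
          intro z
          by_cases hz : cn s z ∈ {x : E (m + 1 + 1) | qr r x ≤ t}
          · have h1 : qr r (cn s z) ≤ t := hz
            rw [hq] at h1
            have h2 : z ∈ {z : E (m + 1) | |‖z‖ ^ 2 - r ^ 2| ≤ b} := by
              have : |‖z‖ ^ 2 - r ^ 2| ≤ b := by
                apply abs_le_of_sq_le_sq _ hb0
                nlinarith [sq_nonneg s]
              exact this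
            simp only
            rw [indicator_of_mem hz, indicator_of_mem h2]
            simp
          · simp only
            rw [indicator_of_notMem hz]
            exact zero_le
        · rw [indicator_of_notMem hs]
          apply le_of_eq
          rw [lintegral_eq_zero_iff']
          · refine Eventually.of_forall fun z => ?_
            apply indicator_of_notMem
            intro h1
            have h1' : qr r (cn s z) ≤ t := h1
            rw [hq] at h1'
            apply hs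
            rw [mem_Icc, ← abs_le]
            apply abs_le_of_sq_le_sq _ hb0
            nlinarith [sq_nonneg (‖z‖ ^ 2 - r ^ 2)]
          · apply Measurable.aemeasurable
            have hcn : Measurable (fun z : E (m + 1) => cn s z) := by
              have hc : Continuous (fun y : E (m + 1) => cn s y) := by
                unfold cn
                have : Continuous (fun y : E (m + 1) =>
                  (Fin.cons s y.ofLp : Fin (m + 1 + 1) → ℝ)) := by
                  refine continuous_pi (fun i => ?_)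
                  refine Fin.cases ?_ (fun j => ?_) i
                  · simpa using continuous_const
                  · simp only [Fin.cons_succ]
                    fun_prop
                exact (PiLp.continuous_toLp 2 _).comp this
              exact hc.measurable
            exact (measurable_one.indicator hS).comp hcn
    _ = volume {z : E (m + 1) | |‖z‖ ^ 2 - r ^ 2| ≤ b} * ENNReal.ofReal (2 * b) := by
        rw [lintegral_indicator measurableSet_Icc, setLIntegral_const, Real.volume_Icc]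
        congr 2
        ring
    _ ≤ (ENNReal.ofReal (2 * (b / r) * ((m + 1 : ℕ) * (2 * r) ^ m)) *
          ENNReal.ofReal wv) * ENNReal.ofReal (2 * b) := by
        gcongr
        rw [← hwve]
        exact ann_vol hr hb0 hbr
    _ = ENNReal.ofReal (2 * (2 * (1 / r) * ((m + 1 : ℕ) * (2 * r) ^ m)) * wv * t) := by
        rw [← ENNReal.ofReal_mul (by positivity), ← ENNReal.ofReal_mul (by positivity), ← hb2]
        congr 1
        ring


variable {a : ℕ}

theorem cutK {r : ℝ} (hr : 0 < r) {v : X a → ℝ} (hv : Tst v) (h0 : ∀ x ∈ Kr a r, v x = 0) :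
    ∀ δ : ℝ, 0 < δ → ∃ χ : X a → ℝ, ContDiff ℝ ∞ χ ∧
      En (fun x => χ x * v x - v x) ≤ δ ∧ (∃ η : ℝ, 0 < η ∧ ∀ x : X a, qr r x < η → χ x = 0) ∧
      (∀ x : X a, δ ≤ qr r x → χ x = 1) := by
  obtain ⟨C1, h10, h11, h12⟩ := qr_bound (m := 2 * a + 3) r hv
  obtain ⟨C2, h20, h21⟩ := van_bound (m := 2 * a + 2) hr hv (fun x hx hx' => h0 x ⟨hx, hx'⟩)
  obtain ⟨C3, t0, h30, ht0, h31⟩ := qr_vol (m := 2 * a + 2) hr
  refine cut_slow (q := (qr r : X a → ℝ)) (qr_smooth (m := 2 * a + 3) r)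
    (qr_nonneg (m := 2 * a + 3) r) hv (C := C1 + C2 + C3) (t0 := t0) (by positivity) ht0 ?_ ?_ ?_ ?_
  · intro x hx
    have := qr_nonneg (m := 2 * a + 3) r x
    refine (h11 x hx).trans ?_
    exact mul_le_mul_of_nonneg_right (by linarith) this
  · intro x hx
    exact (h12 x hx).trans (by linarith)
  · intro x
    have := qr_nonneg (m := 2 * a + 3) r x
    refine (h21 x).trans ?_
    exact mul_le_mul_of_nonneg_right (by linarith) this
  · intro t ht htt
    refine (h31 t ht htt).trans ?_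
    gcongr
    linarith

theorem nsq_pd (i : Fin n) : pd i (fun z : E n => ‖z‖ ^ 2) = fun z => 2 * z i := by
  funext z
  have := rad_pd (n := n) (F := fun s => s) (F' := 1) (z := z) (hasDerivAt_id _) i
  rw [mul_one] at this
  exact this

theorem nsq_lap : lap (fun z : E n => ‖z‖ ^ 2) = fun _ => 2 * (n : ℝ) := by
  have h := lap_rad (n := n) (F := fun s => s) (F1 := fun _ => 1) (F2 := fun _ => 0)
    (fun s _ => hasDerivAt_id s) (fun s _ => hasDerivAt_const s 1) (contDiff_norm_sq ℝ)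
  rw [h]
  funext z
  simp

theorem cut0 (ha : 0 < a) {v : X a → ℝ} (hv : Tst v) :
    ∀ δ : ℝ, 0 < δ → ∃ χ : X a → ℝ, ContDiff ℝ ∞ χ ∧
      En (fun x => χ x * v x - v x) ≤ δ ∧ (∃ η : ℝ, 0 < η ∧ ∀ x, ‖x‖ ^ 2 < η → χ x = 0) ∧
      (∀ x, δ ≤ ‖x‖ ^ 2 → χ x = 1) := by
  refine cut_fast (q := fun x : X a => ‖x‖ ^ 2) (contDiff_norm_sq ℝ) hv
    (C := 4 + 2 * (2 * a + 4 : ℕ)) (by positivity) ?_ ?_ ?_
  · intro x _
    simp only [nsq_pd]
    have e : ∑ i : Fin (2 * a + 4), (2 * x i) ^ 2 = 4 * ‖x‖ ^ 2 := by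
      rw [EuclideanSpace.real_norm_sq_eq, Finset.mul_sum]
      apply Finset.sum_congr rfl
      intro i _
      ring
    rw [e]
    apply mul_le_mul_of_nonneg_right _ (by positivity)
    have : (0 : ℝ) ≤ 2 * ((2 * a + 4 : ℕ) : ℝ) := by positivity
    linarith
  · intro x _
    rw [nsq_lap]
    rw [abs_of_nonneg (by positivity)]
    linarith
  · intro δ hδ
    set wv : ℝ := (volume (ball (0 : X a) 1)).toReal with hwv
    have hwve : volume (ball (0 : X a) 1) = ENNReal.ofReal wv :=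
      (ENNReal.ofReal_toReal measure_ball_lt_top.ne).symm
    have hwv0 : 0 ≤ wv := ENNReal.toReal_nonneg
    set μ : ℝ := max 1 (max (1 / δ) (wv / δ)) with hμ
    have hμ1 : 1 ≤ μ := le_max_left _ _
    have hμ0 : 0 < μ := by linarith
    have hμ2 : 1 / δ ≤ μ := (le_max_left _ _).trans (le_max_right _ _)
    have hμ3 : wv / δ ≤ μ := (le_max_right _ _).trans (le_max_right _ _)
    have hinv : 1 / μ ≤ δ := by
      rw [div_le_iff₀ hδ] at hμ2
      rw [div_le_iff₀ hμ0]
      linarith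
    refine ⟨μ ^ 2, one_le_pow₀ hμ1, ?_, (1 / μ) ^ (2 * a + 4) * wv, by positivity, ?_, ?_⟩
    · refine le_trans ?_ hinv
      apply one_div_le_one_div_of_le hμ0
      nlinarith
    · have hs : {x : X a | ‖x‖ ^ 2 ≤ 1 / μ ^ 2} ⊆ closedBall 0 (1 / μ) := by
        intro x hx
        have hx' : ‖x‖ ^ 2 ≤ 1 / μ ^ 2 := hx
        simp only [mem_closedBall, dist_zero_right]
        apply le_of_sq_le_sq _ (by positivity)
        rw [div_pow, one_pow]
        exact hx'
      refine (measure_mono hs).trans ?_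
      rw [Measure.addHaar_closedBall volume (0 : X a) (by positivity : 0 ≤ 1 / μ), hwve,
        ← ENNReal.ofReal_mul (by positivity)]
      simp
    · have e : (μ ^ 2) ^ 2 * ((1 / μ) ^ (2 * a + 4) * wv) = (1 / μ) ^ (2 * a) * wv := by
        rw [pow_add, ← pow_mul]
        field_simp
      rw [e]
      have h1 : (1 / μ) ^ (2 * a) ≤ (1 / μ) ^ 1 :=
        pow_le_pow_of_le_one (by positivity) (by rw [div_le_one hμ0]; exact hμ1) (by omega)
      rw [pow_one] at h1
      calc (1 / μ) ^ (2 * a) * wv ≤ (1 / μ) * wv := by gcongr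
        _ = wv / μ := by ring
        _ ≤ δ := by
          rw [div_le_iff₀ hμ0]
          rw [div_le_iff₀ hδ] at hμ3
          linarith

end Pool.Agent.Helper749.Bi
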