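import Pool.Agent.Helper749.Bi.Radial

open MeasureTheory Metric Set Filter Topology
open scoped ENNReal NNReal RealInnerProductSpace ContDiff

set_option linter.unusedSectionVars false

namespace Pool.Agent.Helper749.Bi

/-- smooth cutoff: 1 for s ≤ 1, 0 for s ≥ 4 -/
noncomputable def Hc (s : ℝ) : ℝ := Real.smoothTransition ((4 - s) / 3)

theorem Hc_smooth : ContDiff ℝ ∞ Hc := by
  unfold Hc
  exact Real.smoothTransition.contDiff.comp (by fun_prop)

theorem Hc_one {s : ℝ} (h : s ≤ 1) : Hc s = 1 :=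
  Real.smoothTransition.one_of_one_le (by linarith)

theorem Hc_zero {s : ℝ} (h : 4 ≤ s) : Hc s = 0 :=
  Real.smoothTransition.zero_of_nonpos (by linarith)

theorem Hc_nonneg (s : ℝ) : 0 ≤ Hc s := Real.smoothTransition.nonneg _

theorem Hc_le_one (s : ℝ) : Hc s ≤ 1 := Real.smoothTransition.le_one _

/-- derivatives of the cutoff -/
noncomputable def Hd (m : ℕ) : ℝ → ℝ := deriv^[m] Hc

theorem Hd_smooth (m : ℕ) : ContDiff ℝ ∞ (Hd m) := by
  induction m with
  | zero => exact Hc_smooth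
  | succ m ih =>
    unfold Hd at ih ⊢
    rw [Function.iterate_succ_apply']
    exact ContDiff.deriv' ih

theorem Hd_hasDeriv (m : ℕ) (s : ℝ) : HasDerivAt (Hd m) (Hd (m + 1) s) s := by
  have h := ((Hd_smooth m).differentiable (by simp) s).hasDerivAt
  have e : Hd (m + 1) = deriv (Hd m) := by
    unfold Hd
    rw [Function.iterate_succ_apply']
  rw [e]
  exact h

theorem Hd_zero : Hd 0 = Hc := rfl

theorem Hd_lt {m : ℕ} {s : ℝ} (h : s < 1) : Hd (m + 1) s = 0 := by
  induction m generalizing s with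
  | zero =>
    have e : Hd 1 = deriv Hc := rfl
    rw [e]
    have h1 : Hc =ᶠ[𝓝 s] fun _ => 1 := by
      filter_upwards [Iio_mem_nhds h] with y hy
      exact Hc_one (le_of_lt hy)
    rw [h1.deriv_eq]
    simp
  | succ m ih =>
    have e : Hd (m + 1 + 1) = deriv (Hd (m + 1)) := by
      unfold Hd
      rw [Function.iterate_succ_apply']
    rw [e]
    have h1 : Hd (m + 1) =ᶠ[𝓝 s] fun _ => 0 := by
      filter_upwards [Iio_mem_nhds h] with y hy
      exact ih hy
    rw [h1.deriv_eq]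
    simp

theorem Hd_gt {m : ℕ} {s : ℝ} (h : 4 < s) : Hd m s = 0 := by
  induction m generalizing s with
  | zero => exact Hc_zero h.le
  | succ m ih =>
    have e : Hd (m + 1) = deriv (Hd m) := by
      unfold Hd
      rw [Function.iterate_succ_apply']
    rw [e]
    have h1 : Hd m =ᶠ[𝓝 s] fun _ => 0 := by
      filter_upwards [Ioi_mem_nhds h] with y hy
      exact ih hy
    rw [h1.deriv_eq]
    simp

theorem Hd_bound1 (m : ℕ) : ∃ C : ℝ, 0 ≤ C ∧ ∀ s, 0 ≤ s → |Hd m s| ≤ C := by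
  obtain ⟨C, hC⟩ := (isCompact_Icc (a := (0:ℝ)) (b := 4)).exists_bound_of_continuousOn
    (Hd_smooth m).continuous.continuousOn
  refine ⟨max C 0, le_max_right _ _, fun s hs => ?_⟩
  by_cases h : s ≤ 4
  · exact (hC s ⟨hs, h⟩).trans (le_max_left _ _)
  · rw [Hd_gt (by linarith)]
    simp

theorem Hd_bound : ∃ C : ℝ, 0 ≤ C ∧ ∀ m, m ≤ 4 → ∀ s, 0 ≤ s → |Hd m s| ≤ C := by
  choose C hC0 hC using Hd_bound1
  refine ⟨∑ m ∈ Finset.range 5, C m, Finset.sum_nonneg (fun i _ => hC0 i), fun m hm s hs => ?_⟩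
  exact (hC m s hs).trans (Finset.single_le_sum (f := C) (fun i _ => hC0 i)
    (Finset.mem_range.2 (by omega)))

theorem hP (m : ℕ) {s τ : ℝ} (h : 0 < s + τ) :
    HasDerivAt (fun s => ((s + τ) ^ m)⁻¹) (-(m : ℝ) * ((s + τ) ^ (m + 1))⁻¹) s := by
  have h1 : HasDerivAt (fun s : ℝ => s + τ) 1 s := (hasDerivAt_id s).add_const τ
  have h2 := (h1.pow m).inv (pow_ne_zero m h.ne')
  refine h2.congr_deriv ?_
  rcases m with _ | m
  · simp
  · have : s + τ ≠ 0 := h.ne'
    simp only [Pi.pow_apply, Nat.add_sub_cancel]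
    field_simp
    ring

end Pool.Agent.Helper749.Bi
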