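import Pool.Agent.Helper749.Bi.Chain

open MeasureTheory Metric Set Filter Topology
open scoped ENNReal NNReal RealInnerProductSpace ContDiff

set_option linter.unusedSectionVars false

namespace Pool.Agent.Helper749.Bi

variable {a : ℕ}

/-- the domain -/
def Om (a : ℕ) (ρ : ℕ → ℝ) : Set (X a) := {x | ¬ (x 0 = 0 ∧ ‖x‖ ∈ insert (0 : ℝ) (range ρ))}

theorem Om_open {ρ : ℕ → ℝ} (hρ : Tendsto ρ atTop (𝓝 0)) : IsOpen (Om a ρ) := by
  have h1 : IsClosed (insert (0 : ℝ) (range ρ)) := hρ.isCompact_insert_range.isClosed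
  have h2 : IsClosed {x : X a | x 0 = 0 ∧ ‖x‖ ∈ insert (0 : ℝ) (range ρ)} := by
    apply IsClosed.inter
    · exact isClosed_eq (by fun_prop) continuous_const
    · exact h1.preimage continuous_norm
  exact h2.isOpen_compl

theorem Om_of_ne {ρ : ℕ → ℝ} {x : X a} (hx : x 0 ≠ 0) : x ∈ Om a ρ := fun h => hx h.1

theorem half_pre (a : ℕ) (ρ : ℕ → ℝ) (c : ℝ) (hc : c ≠ 0) :
    IsPreconnected (Om a ρ ∩ {x | 0 ≤ c * x 0}) := by
  have h1 : IsPreconnected {x : X a | 0 < c * x 0} := by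
    apply Convex.isPreconnected
    intro x hx y hy s t hs ht hst
    have hx' : 0 < c * x 0 := hx
    have hy' : 0 < c * y 0 := hy
    simp only [mem_ofPred_eq, PiLp.add_apply, PiLp.smul_apply, smul_eq_mul]
    rcases hs.eq_or_lt with h | h
    · rw [← h] at hst ⊢
      rw [zero_add] at hst
      rw [hst]
      simpa using hy'
    · have e1 : 0 < s * (c * x 0) := by positivity
      have e2 : 0 ≤ t * (c * y 0) := by positivity
      nlinarith
  refine h1.subset_closure ?_ ?_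
  · intro x hx
    have hx' : 0 < c * x 0 := hx
    refine ⟨Om_of_ne (fun h => ?_), hx'.le⟩
    rw [h, mul_zero] at hx'
    exact lt_irrefl _ hx'
  · rintro x ⟨_, hx⟩
    have hx' : 0 ≤ c * x 0 := hx
    -- approximate x by x + (1/(k+1)) c e0
    have hlim : Tendsto (fun k : ℕ => x + ((1 / ((k : ℝ) + 1)) * c) • (ev 0 : X a)) atTop (𝓝 x) := by
      have h2 : Tendsto (fun k : ℕ => (1 / ((k : ℝ) + 1)) * c) atTop (𝓝 0) := by
        have := tendsto_one_div_add_atTop_nhds_zero_nat (𝕜 := ℝ).mul_const c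
        simpa using this
      have h3 := (h2.smul_const (ev 0 : X a)).const_add x
      simpa using h3
    refine mem_closure_of_tendsto hlim (Eventually.of_forall fun k => ?_)
    simp only [mem_ofPred_eq, PiLp.add_apply, PiLp.smul_apply, smul_eq_mul]
    have h4 : (ev 0 : X a) 0 = 1 := by simp
    rw [h4]
    have h5 : 0 < c * (1 / ((k : ℝ) + 1) * c * 1) := by
      have : 0 < c * c := mul_self_pos.2 hc
      have h6 : 0 < 1 / ((k : ℝ) + 1) := by positivity
      nlinarith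
    nlinarith

theorem Om_conn {ρ : ℕ → ℝ} (hρ : ∀ i, ρ i ≤ 1 / 2) : IsConnected (Om a ρ) := by
  have hp : (pr a 1) ∈ Om a ρ := by
    rintro ⟨_, h⟩
    have hn : ‖pr a 1‖ = 1 := pr_norm zero_le_one
    rw [hn] at h
    rcases h with h | ⟨i, h⟩
    · norm_num at h
    · have := hρ i
      rw [h] at this
      norm_num at this
  have hp0 : (pr a 1) 0 = 0 := (pr_mem (a := a) zero_le_one).1
  refine ⟨⟨_, hp⟩, ?_⟩
  have h1 := half_pre a ρ 1 one_ne_zero
  have h2 := half_pre a ρ (-1) (by norm_num)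
  have m1 : pr a 1 ∈ Om a ρ ∩ {x | 0 ≤ 1 * x 0} := ⟨hp, by simp [hp0]⟩
  have m2 : pr a 1 ∈ Om a ρ ∩ {x | 0 ≤ -1 * x 0} := ⟨hp, by simp [hp0]⟩
  have h3 := IsPreconnected.union (pr a 1) m1 m2 h1 h2
  have e : Om a ρ ∩ {x | 0 ≤ 1 * x 0} ∪ Om a ρ ∩ {x | 0 ≤ -1 * x 0} = Om a ρ := by
    ext x
    constructor
    · rintro (h | h)
      · exact h.1
      · exact h.1
    · intro h
      rcases le_total 0 (x 0) with h' | h'
      · left
        exact ⟨h, by simpa using h'⟩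
      · right
        refine ⟨h, ?_⟩
        simp only [mem_ofPred_eq]
        linarith
  rwa [e] at h3

theorem Om_frontier {ρ : ℕ → ℝ} (hρ : Tendsto ρ atTop (𝓝 0)) : (0 : X a) ∈ frontier (Om a ρ) := by
  rw [(Om_open hρ).frontier_eq]
  constructor
  · have hlim : Tendsto (fun k : ℕ => (1 / ((k : ℝ) + 1)) • (ev 0 : X a)) atTop (𝓝 0) := by
      have h3 := (tendsto_one_div_add_atTop_nhds_zero_nat (𝕜 := ℝ)).smul_const (ev 0 : X a)
      simpa using h3
    refine mem_closure_of_tendsto hlim (Eventually.of_forall fun k => Om_of_ne ?_)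
    have : (0 : ℝ) < 1 / ((k : ℝ) + 1) := by positivity
    simp only [PiLp.smul_apply, smul_eq_mul]
    simp
    positivity
  · intro h
    apply h
    refine ⟨rfl, ?_⟩
    rw [norm_zero]
    exact mem_insert _ _

theorem lint_eq {f : X a → ℝ} (hf : Tst f) :
    ∫⁻ x, ‖f x‖ₑ ^ 2 = ENNReal.ofReal (∫ x, (f x) ^ 2) := by
  rw [ofReal_integral_eq_lintegral_ofReal hf.sq_int (Eventually.of_forall fun x => sq_nonneg _)]
  apply lintegral_congr
  intro x
  rw [Real.enorm_eq_ofReal_abs, ← ENNReal.ofReal_pow (abs_nonneg _), sq_abs]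

/-- divergence of the Wiener sum -/
theorem wiener_top (ha : 0 < a) {κ : ℕ → ℕ} (hκ : Function.Injective κ) :
    (∑' k : ℕ, (2 : ℝ≥0∞) ^ ((k + 1) * (2 * a + 4 - 4)) *
        ⨅ (φ : X a → ℝ)
          (_ : ContDiff ℝ (⊤ : ℕ∞) φ ∧ HasCompactSupport φ ∧
            ∃ U : Set (X a), IsOpen U ∧
              {x : X a |
                ((1 : ℝ) / 2) ^ (k + 1) / 2 ≤ ‖x‖ ∧ ‖x‖ ≤ ((1 : ℝ) / 2) ^ (k + 1)} \
                  (Om a (fun J => dy (κ J))) ⊆ U ∧
              ∀ x ∈ U, φ x = 1),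
          ∫⁻ x, ‖lap φ x‖ₑ ^ 2) = ⊤ := by
  obtain ⟨c, hc0, hc⟩ := cap_lower (a := a) ha
  set f : ℕ → ℝ≥0∞ := fun k => (2 : ℝ≥0∞) ^ ((k + 1) * (2 * a + 4 - 4)) *
        ⨅ (φ : X a → ℝ)
          (_ : ContDiff ℝ (⊤ : ℕ∞) φ ∧ HasCompactSupport φ ∧
            ∃ U : Set (X a), IsOpen U ∧
              {x : X a |
                ((1 : ℝ) / 2) ^ (k + 1) / 2 ≤ ‖x‖ ∧ ‖x‖ ≤ ((1 : ℝ) / 2) ^ (k + 1)} \
                  (Om a (fun J => dy (κ J))) ⊆ U ∧
              ∀ x ∈ U, φ x = 1),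
          ∫⁻ x, ‖lap φ x‖ₑ ^ 2 with hf
  have h1 : ∀ J, ENNReal.ofReal c ≤ f (κ J) := by
    intro J
    rw [hf]
    simp only
    have e1 : (2 : ℝ≥0∞) ^ ((κ J + 1) * (2 * a + 4 - 4)) =
        ENNReal.ofReal (((2 : ℝ) ^ (κ J + 1)) ^ (2 * a)) := by
      rw [show 2 * a + 4 - 4 = 2 * a by omega, ENNReal.ofReal_pow (by positivity),
        ENNReal.ofReal_pow (by norm_num), pow_mul]
      norm_num
    have e2 : ENNReal.ofReal (c * dy (κ J) ^ (2 * a)) ≤ ⨅ (φ : X a → ℝ)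
          (_ : ContDiff ℝ (⊤ : ℕ∞) φ ∧ HasCompactSupport φ ∧
            ∃ U : Set (X a), IsOpen U ∧
              {x : X a |
                ((1 : ℝ) / 2) ^ (κ J + 1) / 2 ≤ ‖x‖ ∧ ‖x‖ ≤ ((1 : ℝ) / 2) ^ (κ J + 1)} \
                  (Om a (fun J => dy (κ J))) ⊆ U ∧
              ∀ x ∈ U, φ x = 1),
          ∫⁻ x, ‖lap φ x‖ₑ ^ 2 := by
      refine le_iInf₂ fun φ hφ => ?_
      obtain ⟨h1, h2, U, hU, hsub, hU1⟩ := hφ
      have hT : Tst φ := ⟨h1, h2⟩
      rw [lint_eq hT.lap]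
      apply ENNReal.ofReal_le_ofReal
      refine hc _ (dy_pos _) φ hT ?_
      intro x hx
      apply hU1
      apply hsub
      have hd : dy (κ J) = ((1 : ℝ) / 2) ^ (κ J + 1) := rfl
      constructor
      · refine ⟨?_, ?_⟩
        · rw [hx.2, hd]
          have : (0 : ℝ) < ((1 : ℝ) / 2) ^ (κ J + 1) := by positivity
          linarith
        · rw [hx.2, hd]
      · intro h
        apply h
        refine ⟨hx.1, ?_⟩
        rw [hx.2]
        exact mem_insert_of_mem _ ⟨J, rfl⟩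
    calc ENNReal.ofReal c = ENNReal.ofReal (((2 : ℝ) ^ (κ J + 1)) ^ (2 * a)) *
          ENNReal.ofReal (c * dy (κ J) ^ (2 * a)) := by
          rw [← ENNReal.ofReal_mul (by positivity)]
          congr 1
          unfold dy
          rw [one_div, inv_pow, inv_pow]
          have : ((2 : ℝ) ^ (κ J + 1)) ^ (2 * a) ≠ 0 := by positivity
          field_simp
      _ ≤ _ := by
          rw [e1]
          gcongr
  have h2 : ∑' J, f (κ J) ≤ ∑' k, f k := ENNReal.tsum_comp_le_tsum_of_injective hκ f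
  have h3 : ∑' _J : ℕ, ENNReal.ofReal c ≤ ∑' J, f (κ J) := ENNReal.tsum_le_tsum h1
  have h4 : ∑' _J : ℕ, ENNReal.ofReal c = ⊤ :=
    ENNReal.tsum_const_eq_top_of_ne_zero (by simpa using hc0)
  rw [h4] at h3
  exact top_le_iff.1 (h3.trans h2)

theorem hyper_null : ∀ᵐ x : X a, x 0 ≠ 0 := by
  have h := Measure.addHaar_submodule (volume : Measure (X a))
    (LinearMap.ker (EuclideanSpace.proj 0 : X a →L[ℝ] ℝ).toLinearMap) (by
      intro h
      have h2 : (ev 0 : X a) ∈ (LinearMap.ker (EuclideanSpace.proj 0 :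
        X a →L[ℝ] ℝ).toLinearMap) := by rw [h]; trivial
      simp at h2)
  rw [ae_iff]
  refine measure_mono_null ?_ h
  intro y hy
  simpa using hy

theorem bilapU0_zero {x : X a} (hx : ‖x‖ < 1) : bilap (U0 a) x = 0 := by
  have h1 : ∀ y ∈ ball (0 : X a) 1, lap (U0 a) y = 0 := by
    intro y hy
    rw [lap_eq U0_tst.1]
    apply Finset.sum_eq_zero
    intro i _
    have h2 : ∀ z ∈ ball (0 : X a) 1, pd i (U0 a) z = 0 := by
      intro z hz
      have h3 : U0 a =ᶠ[𝓝 z] fun _ => 1 := by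
        filter_upwards [isOpen_ball.mem_nhds hz] with t ht
        apply U0_one
        have : ‖t‖ < 1 := by simpa using ht
        exact this.le
      unfold pd
      rw [h3.fderiv_eq]
      simp
    have h4 : pd i (U0 a) =ᶠ[𝓝 y] fun _ => 0 := by
      filter_upwards [isOpen_ball.mem_nhds hy] with t ht
      exact h2 t ht
    unfold pd at h4 ⊢
    rw [h4.fderiv_eq]
    simp
  rw [bilap_eq U0_tst.1, lap_eq U0_tst.lap.1]
  apply Finset.sum_eq_zero
  intro i _
  have hx' : x ∈ ball (0 : X a) 1 := by simpa using hx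
  have h2 : ∀ z ∈ ball (0 : X a) 1, pd i (lap (U0 a)) z = 0 := by
    intro z hz
    have h3 : lap (U0 a) =ᶠ[𝓝 z] fun _ => 0 := by
      filter_upwards [isOpen_ball.mem_nhds hz] with t ht
      exact h1 t ht
    unfold pd
    rw [h3.fderiv_eq]
    simp
  have h4 : pd i (lap (U0 a)) =ᶠ[𝓝 x] fun _ => 0 := by
    filter_upwards [isOpen_ball.mem_nhds hx'] with t ht
    exact h2 t ht
  have h5 : pd i (pd i (lap (U0 a))) x = fderiv ℝ (pd i (lap (U0 a))) x (ev i) := rfl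
  rw [h5, h4.fderiv_eq]
  simp

theorem not_tsupport {f : X a → ℝ} {x : X a} (h : ∀ᶠ y in 𝓝 x, f y = 0) : x ∉ tsupport f := by
  rw [notMem_tsupport_iff_eventuallyEq]
  exact h

end Pool.Agent.Helper749.Bi
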