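import Pool.Agent.Helper749.Bi.Basic

open MeasureTheory Metric Set Filter Topology
open scoped ENNReal NNReal RealInnerProductSpace ContDiff

set_option linter.unusedSectionVars false

namespace Pool.Agent.Helper749.Bi

variable {n : ℕ}

/-- energy -/
noncomputable def En (f : E n → ℝ) : ℝ := ∫ x, (lap f x) ^ 2

theorem En_nonneg (f : E n → ℝ) : 0 ≤ En f := integral_nonneg fun _ => sq_nonneg _

theorem Tst.sq_int {f : E n → ℝ} (hf : Tst f) : Integrable (fun x => (f x) ^ 2) := by
  have := Tst.mul_int hf.1.continuous hf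
  refine this.congr (Eventually.of_forall fun x => ?_)
  simp only
  ring

theorem En_add {f g : E n → ℝ} (hf : Tst f) (hg : Tst g) :
    En (fun x => f x + g x) ≤ 2 * En f + 2 * En g := by
  unfold En
  rw [lap_add hf.1 hg.1, ← integral_const_mul, ← integral_const_mul,
    ← integral_add (hf.lap.sq_int.const_mul 2) (hg.lap.sq_int.const_mul 2)]
  apply integral_mono ((hf.lap.add hg.lap).sq_int)
    ((hf.lap.sq_int.const_mul 2).add (hg.lap.sq_int.const_mul 2))
  intro x
  simp only [Pi.add_apply]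
  nlinarith [sq_nonneg (lap f x - lap g x)]

theorem En_cmul {f : E n → ℝ} (hf : Tst f) (c : ℝ) :
    En (fun x => c * f x) = c ^ 2 * En f := by
  unfold En
  rw [lap_cmul hf.1, ← integral_const_mul]
  congr 1
  funext x
  ring

theorem En_neg {f : E n → ℝ} (hf : Tst f) : En (fun x => -f x) = En f := by
  have := En_cmul hf (-1)
  simpa using this

theorem En_sub_comm {f g : E n → ℝ} (hf : Tst f) (hg : Tst g) :
    En (fun x => f x - g x) = En (fun x => g x - f x) := by
  have := En_neg (hf.sub hg)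
  rw [← this]
  congr 1
  funext x
  ring

theorem En_sub {f g : E n → ℝ} (hf : Tst f) (hg : Tst g) :
    En (fun x => f x - g x) ≤ 2 * En f + 2 * En g := by
  have h := En_add hf (hg.cmul (-1))
  rw [En_cmul hg] at h
  have e : (fun x => f x + -1 * g x) = fun x => f x - g x := by funext x; ring
  rw [e] at h
  linarith

theorem En_tri {f g h : E n → ℝ} (hf : Tst f) (hg : Tst g) (hh : Tst h) :
    En (fun x => f x - h x) ≤ 2 * En (fun x => f x - g x) + 2 * En (fun x => g x - h x) := by
  have := En_add (hf.sub hg) (hg.sub hh)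
  have e : (fun x => f x - g x + (g x - h x)) = fun x => f x - h x := by funext x; ring
  rwa [e] at this

theorem En_bilap {f : E n → ℝ} (hf : Tst f) : En f = ∫ x, f x * bilap f x := by
  rw [ibp_bilap hf.1 hf]
  unfold En
  congr 1
  funext x
  ring

theorem cs_int {f g : E n → ℝ} (hf : Tst f) (hg : Tst g) :
    (∫ x, f x * g x) ^ 2 ≤ (∫ x, (f x) ^ 2) * ∫ x, (g x) ^ 2 := by
  have h : ∀ s : ℝ, 0 ≤ (∫ x, (f x) ^ 2) * (s * s) + (2 * ∫ x, f x * g x) * s +
      ∫ x, (g x) ^ 2 := by
    intro s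
    have e : ∫ x, (s * f x + g x) ^ 2 = (∫ x, (f x) ^ 2) * (s * s) + (2 * ∫ x, f x * g x) * s +
      ∫ x, (g x) ^ 2 := by
      have i1 := hf.sq_int.mul_const (s * s)
      have i2 := ((Tst.mul_int hf.1.continuous hg).const_mul 2).mul_const s
      have i3 : Integrable (fun x => f x ^ 2 * (s * s) + 2 * (f x * g x) * s) := i1.add i2
      rw [← integral_mul_const, ← integral_const_mul, ← integral_mul_const, ← integral_add i1 i2,
        ← integral_add i3 hg.sq_int]
      congr 1
      funext x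
      ring
    rw [← e]
    exact integral_nonneg fun _ => sq_nonneg _
  have h2 := discrim_le_zero h
  unfold discrim at h2
  nlinarith

theorem duality {f g : E n → ℝ} (hf : Tst f) (hg : Tst g) :
    (∫ x, f x * bilap g x) ^ 2 ≤ En f * En g := by
  rw [ibp_bilap hf.1 hg]
  exact cs_int hf.lap hg.lap

theorem En_scale {f : E n → ℝ} (hf : Tst f) {ε : ℝ} (hε : 0 < ε) :
    ε ^ 4 * En (fun x => f (ε⁻¹ • x)) = ε ^ n * En f := by
  unfold En
  rw [lap_scale hf.1]
  have h := Measure.integral_comp_inv_smul (volume : Measure (E n))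
    (fun x => (lap f x) ^ 2) ε
  simp only [finrank_euclideanSpace, Fintype.card_fin] at h
  rw [abs_of_nonneg (by positivity), smul_eq_mul] at h
  rw [← h, ← integral_const_mul]
  congr 1
  funext x
  field_simp

theorem int_scale (F : E n → ℝ) {ε : ℝ} (hε : 0 < ε) :
    ∫ x, F (ε⁻¹ • x) = ε ^ n * ∫ x, F x := by
  have h := Measure.integral_comp_inv_smul (volume : Measure (E n)) F ε
  simp only [finrank_euclideanSpace, Fintype.card_fin] at h
  rw [abs_of_nonneg (by positivity), smul_eq_mul] at h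
  exact h

theorem En_small {f : E n → ℝ} (hf : Tst f) {S L : ℝ} (hS : ∀ x, |f x| ≤ S)
    (hL : ∫ x, |bilap f x| ≤ L) (hS0 : 0 ≤ S) : En f ≤ S * L := by
  rw [En_bilap hf]
  calc ∫ x, f x * bilap f x ≤ ∫ x, S * |bilap f x| := by
        apply integral_mono (Tst.mul_int hf.1.continuous hf.bilap) (hf.bilap.integrable.abs.const_mul S)
        intro x
        simp only
        calc f x * bilap f x ≤ |f x * bilap f x| := le_abs_self _
          _ = |f x| * |bilap f x| := abs_mul _ _
          _ ≤ S * |bilap f x| := by gcongr; exact hS x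
    _ = S * ∫ x, |bilap f x| := integral_const_mul _ _
    _ ≤ S * L := by gcongr

/-- the ambient space -/
abbrev X (a : ℕ) : Type := E (2 * a + 4)

variable {a : ℕ}

/-- invariance under rotations fixing the axis -/
def Inv (f : X a → ℝ) : Prop := ∀ x y : X a, x 0 = y 0 → ‖x‖ = ‖y‖ → f x = f y

/-- codimension two sphere -/
def Kr (a : ℕ) (r : ℝ) : Set (X a) := {x | x 0 = 0 ∧ ‖x‖ = r}

/-- a point on the sphere -/
noncomputable def pr (a : ℕ) (r : ℝ) : X a := r • (EuclideanSpace.single 1 (1 : ℝ) : X a)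

theorem pr_mem {r : ℝ} (hr : 0 ≤ r) : pr a r ∈ Kr a r := by
  unfold pr Kr
  refine ⟨by simp, ?_⟩
  rw [norm_smul, PiLp.norm_single]
  simp [abs_of_nonneg hr]

theorem Inv.eq {f : X a → ℝ} (hf : Inv f) {r : ℝ} (hr : 0 ≤ r) {x : X a} (hx : x ∈ Kr a r) :
    f x = f (pr a r) := by
  have h := pr_mem (a := a) hr
  exact hf x (pr a r) (hx.1.trans h.1.symm) (hx.2.trans h.2.symm)

theorem Inv.add {f g : X a → ℝ} (hf : Inv f) (hg : Inv g) : Inv (fun x => f x + g x) :=
  fun x y h1 h2 => by simp only; rw [hf x y h1 h2, hg x y h1 h2]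

theorem Inv.sub {f g : X a → ℝ} (hf : Inv f) (hg : Inv g) : Inv (fun x => f x - g x) :=
  fun x y h1 h2 => by simp only; rw [hf x y h1 h2, hg x y h1 h2]

theorem Inv.cmul {f : X a → ℝ} (hf : Inv f) (c : ℝ) : Inv (fun x => c * f x) :=
  fun x y h1 h2 => by simp only; rw [hf x y h1 h2]

/-- good sequences -/
structure GS (s : ℕ → X a → ℝ) (w : X a → ℝ) : Prop where
  tst : ∀ j, Tst (s j)
  inv : ∀ j, Inv (s j)
  unif : ∀ ε > 0, ∃ J, ∀ j ≥ J, ∀ x, |s j x - w x| ≤ ε
  cau : ∀ ε > 0, ∃ J, ∀ i ≥ J, ∀ j ≥ J, En (fun x => s i x - s j x) ≤ ε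

theorem GS.const {f : X a → ℝ} (hf : Tst f) (hi : Inv f) : GS (fun _ => f) f where
  tst := fun _ => hf
  inv := fun _ => hi
  unif := fun ε hε => ⟨0, fun j _ x => by simp [hε.le]⟩
  cau := fun ε hε => ⟨0, fun i _ j _ => by
    have : En (fun x => f x - f x) = 0 := by
      have h := En_cmul hf 0
      simp only [zero_mul, ne_eq, OfNat.ofNat_ne_zero, not_false_eq_true, zero_pow] at h
      simpa using h
    rw [this]; exact hε.le⟩

theorem GS.add {s t : ℕ → X a → ℝ} {w v : X a → ℝ} (hs : GS s w) (ht : GS t v) :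
    GS (fun j x => s j x + t j x) (fun x => w x + v x) where
  tst := fun j => (hs.tst j).add (ht.tst j)
  inv := fun j => (hs.inv j).add (ht.inv j)
  unif := fun ε hε => by
    obtain ⟨J1, h1⟩ := hs.unif (ε / 2) (by positivity)
    obtain ⟨J2, h2⟩ := ht.unif (ε / 2) (by positivity)
    refine ⟨max J1 J2, fun j hj x => ?_⟩
    have a1 := h1 j (le_of_max_le_left hj) x
    have a2 := h2 j (le_of_max_le_right hj) x
    calc |s j x + t j x - (w x + v x)| = |(s j x - w x) + (t j x - v x)| := by ring_nf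
      _ ≤ |s j x - w x| + |t j x - v x| := abs_add_le _ _
      _ ≤ ε := by linarith
  cau := fun ε hε => by
    obtain ⟨J1, h1⟩ := hs.cau (ε / 4) (by positivity)
    obtain ⟨J2, h2⟩ := ht.cau (ε / 4) (by positivity)
    refine ⟨max J1 J2, fun i hi j hj => ?_⟩
    have a1 := h1 i (le_of_max_le_left hi) j (le_of_max_le_left hj)
    have a2 := h2 i (le_of_max_le_right hi) j (le_of_max_le_right hj)
    have a3 := En_add ((hs.tst i).sub (hs.tst j)) ((ht.tst i).sub (ht.tst j))
    have e : (fun x => s i x + t i x - (s j x + t j x)) =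
      fun x => s i x - s j x + (t i x - t j x) := by funext x; ring
    rw [e]
    linarith

theorem GS.cmul {s : ℕ → X a → ℝ} {w : X a → ℝ} (hs : GS s w) (c : ℝ) :
    GS (fun j x => c * s j x) (fun x => c * w x) where
  tst := fun j => (hs.tst j).cmul c
  inv := fun j => (hs.inv j).cmul c
  unif := fun ε hε => by
    obtain ⟨J1, h1⟩ := hs.unif (ε / (|c| + 1)) (by positivity)
    refine ⟨J1, fun j hj x => ?_⟩
    have a1 := h1 j hj x
    calc |c * s j x - c * w x| = |c| * |s j x - w x| := by rw [← mul_sub, abs_mul]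
      _ ≤ (|c| + 1) * (ε / (|c| + 1)) := by gcongr; linarith
      _ = ε := by field_simp
  cau := fun ε hε => by
    obtain ⟨J1, h1⟩ := hs.cau (ε / (c ^ 2 + 1)) (by positivity)
    refine ⟨J1, fun i hi j hj => ?_⟩
    have a1 := h1 i hi j hj
    have e : (fun x => c * s i x - c * s j x) = fun x => c * (s i x - s j x) := by
      funext x; ring
    rw [e, En_cmul ((hs.tst i).sub (hs.tst j))]
    calc c ^ 2 * En (fun x => s i x - s j x) ≤ (c ^ 2 + 1) * (ε / (c ^ 2 + 1)) := by
          have := En_nonneg (fun x => s i x - s j x)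
          gcongr; linarith
      _ = ε := by field_simp

theorem GS.limInv {s : ℕ → X a → ℝ} {w : X a → ℝ} (hs : GS s w) : Inv w := by
  intro x y h1 h2
  by_contra hne
  have hpos : 0 < |w x - w y| := abs_pos.2 (sub_ne_zero.2 hne)
  obtain ⟨J, hJ⟩ := hs.unif (|w x - w y| / 4) (by positivity)
  have a1 := hJ J le_rfl x
  have a2 := hJ J le_rfl y
  rw [hs.inv J x y h1 h2] at a1
  have : |w x - w y| ≤ |w x - s J y| + |s J y - w y| := by
    have := abs_add_le (w x - s J y) (s J y - w y)
    simpa using this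
  rw [abs_sub_comm (w x) (s J y)] at this
  linarith

theorem GS.tendsto {s : ℕ → X a → ℝ} {w : X a → ℝ} (hs : GS s w) :
    TendstoUniformly s w atTop := by
  rw [Metric.tendstoUniformly_iff]
  intro ε hε
  obtain ⟨J, hJ⟩ := hs.unif (ε / 2) (by positivity)
  filter_upwards [eventually_ge_atTop J] with j hj x
  rw [dist_comm, Real.dist_eq]
  linarith [hJ j hj x]

theorem GS.continuous {s : ℕ → X a → ℝ} {w : X a → ℝ} (hs : GS s w) : Continuous w :=
  hs.tendsto.continuous (Eventually.frequently (Eventually.of_forall fun j =>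
    (hs.tst j).1.continuous))

theorem GS.bound {s : ℕ → X a → ℝ} {w : X a → ℝ} (hs : GS s w) :
    ∃ M : ℝ, 0 ≤ M ∧ ∀ x, |w x| ≤ M := by
  obtain ⟨J, hJ⟩ := hs.unif 1 one_pos
  obtain ⟨M, hM0, hM⟩ := (hs.tst J).bound
  refine ⟨M + 1, by positivity, fun x => ?_⟩
  have h1 := hJ J le_rfl x
  have h2 := hM x
  have : |w x| ≤ |w x - s J x| + |s J x| := by
    have := abs_add_le (w x - s J x) (s J x)
    simpa using this
  rw [abs_sub_comm] at this
  linarith

theorem GS.enb {s : ℕ → X a → ℝ} {w : X a → ℝ} (hs : GS s w) :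
    ∃ C : ℝ, 0 ≤ C ∧ ∀ᶠ j in atTop, En (s j) ≤ C := by
  obtain ⟨J, hJ⟩ := hs.cau 1 one_pos
  refine ⟨2 * 1 + 2 * En (s J), by have := En_nonneg (s J); positivity, ?_⟩
  filter_upwards [eventually_ge_atTop J] with j hj
  have h1 := hJ j hj J le_rfl
  have h2 := En_add ((hs.tst j).sub (hs.tst J)) (hs.tst J)
  have e : (fun x => s j x - s J x + s J x) = s j := by funext x; ring
  rw [e] at h2
  linarith

end Pool.Agent.Helper749.Bi
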