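import Pool.Agent.Helper749.Bi.Kernel1

open MeasureTheory Metric Set Filter Topology
open scoped ENNReal NNReal RealInnerProductSpace ContDiff

set_option linter.unusedSectionVars false

namespace Pool.Agent.Helper749.Bi

variable {a : ℕ}

theorem ca_nonneg (a : ℕ) : 0 ≤ ca a := by unfold ca; positivity

theorem Gm_nonneg {τ : ℝ} (hτ : 0 < τ) (z : E (2 * a + 4)) : 0 ≤ Gm a τ z := by
  have := ca_nonneg a
  unfold Gm; positivity

theorem Gm_continuous {τ : ℝ} (hτ : 0 < τ) : Continuous (Gm a τ) := by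
  unfold Gm
  refine Continuous.mul continuous_const (Continuous.inv₀ (by fun_prop) ?_)
  intro x; positivity

theorem Gm_one_integrable (a : ℕ) : Integrable (Gm a 1) := by
  unfold Gm
  have h := integrable_rpow_neg_one_add_norm_sq (E := E (2 * a + 4)) (μ := volume)
    (r := 2 * (a + 4 : ℝ)) (by simp; linarith)
  refine Integrable.const_mul ?_ _
  refine h.congr (Eventually.of_forall fun z => ?_)
  simp only
  have h1 : -(2 * (a + 4 : ℝ)) / 2 = -((a + 4 : ℕ) : ℝ) := by push_cast; ring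
  rw [h1, Real.rpow_neg (by positivity), Real.rpow_natCast, add_comm]

/-- total mass -/
noncomputable def kap (a : ℕ) : ℝ := ∫ z, Gm a 1 z

theorem kap_pos (ha : 0 < a) : 0 < kap a := by
  unfold kap
  rw [integral_pos_iff_support_of_nonneg (fun z => Gm_nonneg one_pos z) (Gm_one_integrable a)]
  have : Function.support (Gm a 1) = univ := by
    ext z
    simp only [Function.mem_support, mem_univ, iff_true]
    have h : 0 < ca a := by unfold ca; positivity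
    unfold Gm
    positivity
  rw [this]
  simp

/-- scaling relation -/
theorem Gm_scale {τ : ℝ} (hτ : 0 < τ) (z : E (2 * a + 4)) :
    Gm a τ (Real.sqrt τ • z) = (Real.sqrt τ ^ (2 * a + 4))⁻¹ * Gm a 1 z := by
  unfold Gm
  rw [norm_smul, Real.norm_of_nonneg (Real.sqrt_nonneg _), mul_pow, Real.sq_sqrt hτ.le]
  have h1 : Real.sqrt τ ^ (2 * a + 4) = τ ^ (a + 2) := by
    rw [show 2 * a + 4 = 2 * (a + 2) by ring, pow_mul, Real.sq_sqrt hτ.le]
  rw [h1, show τ * ‖z‖ ^ 2 + τ = τ * (‖z‖ ^ 2 + 1) by ring, mul_pow]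
  have hz : ‖z‖ ^ 2 + 1 ≠ 0 := by positivity
  field_simp
  ring

theorem Gm_integral_mul {τ : ℝ} (hτ : 0 < τ) (φ : E (2 * a + 4) → ℝ) :
    ∫ z, Gm a τ z * φ z = ∫ z, Gm a 1 z * φ (Real.sqrt τ • z) := by
  have hs : 0 < Real.sqrt τ := Real.sqrt_pos.2 hτ
  have h := Measure.integral_comp_smul (volume : Measure (E (2 * a + 4)))
    (fun z => Gm a τ z * φ z) (Real.sqrt τ)
  simp only [finrank_euclideanSpace, Fintype.card_fin, Gm_scale hτ] at h
  rw [abs_of_nonneg (by positivity)] at h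
  have h2 : ∀ z, (Real.sqrt τ ^ (2 * a + 4))⁻¹ * Gm a 1 z * φ (Real.sqrt τ • z) =
      (Real.sqrt τ ^ (2 * a + 4))⁻¹ * (Gm a 1 z * φ (Real.sqrt τ • z)) := fun z => by ring
  simp only [h2] at h
  rw [integral_const_mul, smul_eq_mul] at h
  have h3 : (Real.sqrt τ ^ (2 * a + 4))⁻¹ ≠ 0 := by positivity
  exact (mul_left_cancel₀ h3 h).symm

theorem Gm_integrable {τ : ℝ} (hτ : 0 < τ) : Integrable (Gm a τ) := by
  have hs : 0 < Real.sqrt τ := Real.sqrt_pos.2 hτ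
  have h1 : Integrable (fun z => Gm a τ (Real.sqrt τ • z)) := by
    simp only [Gm_scale hτ]
    exact (Gm_one_integrable a).const_mul _
  exact (integrable_comp_smul_iff volume (Gm a τ) hs.ne').1 h1

theorem Gm_integral {τ : ℝ} (hτ : 0 < τ) : ∫ z, Gm a τ z = kap a := by
  have := Gm_integral_mul hτ (fun _ : E (2 * a + 4) => (1 : ℝ))
  simpa [kap] using this

theorem kap_nonneg (a : ℕ) : 0 ≤ kap a := integral_nonneg (fun z => Gm_nonneg one_pos z)

/-- uniform L¹ bound for the bilaplacian of the truncated kernel -/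
theorem bk_L1 (a : ℕ) : ∃ C : ℝ, 0 ≤ C ∧ ∀ τ, 0 < τ → ∫ z, |bilap (bk a τ) z| ≤ C := by
  obtain ⟨C, hC0, hC⟩ := bilap_bk_outer a
  refine ⟨kap a + C * volume.real (closedBall (0 : E (2 * a + 4)) 2), ?_, fun τ hτ => ?_⟩
  · have := kap_nonneg a
    positivity
  · have hb : ∀ z : E (2 * a + 4), |bilap (bk a τ) z| ≤
        Gm a τ z + (closedBall (0 : E (2 * a + 4)) 2).indicator (fun _ => C) z := by
      intro z
      by_cases h1 : ‖z‖ < 1
      · rw [bilap_bk_inner hτ h1, abs_of_nonneg (Gm_nonneg hτ z)]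
        have : 0 ≤ (closedBall (0 : E (2 * a + 4)) 2).indicator (fun _ => C) z :=
          indicator_nonneg (fun _ _ => hC0) z
        linarith
      · push Not at h1
        have hg := Gm_nonneg (a := a) hτ z
        by_cases h2 : ‖z‖ ≤ 2
        · rw [indicator_of_mem (by simpa using h2)]
          linarith [hC τ hτ z h1]
        · push Not at h2
          rw [bilap_bk_zero hτ h2]
          have : 0 ≤ (closedBall (0 : E (2 * a + 4)) 2).indicator (fun _ => C) z :=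
            indicator_nonneg (fun _ _ => hC0) z
          simp only [abs_zero]
          linarith
    have hi : Integrable ((closedBall (0 : E (2 * a + 4)) 2).indicator (fun _ => C)) := by
      rw [integrable_indicator_iff measurableSet_closedBall]
      exact integrableOn_const (measure_closedBall_lt_top.ne)
    calc ∫ z, |bilap (bk a τ) z| ≤
        ∫ z, (Gm a τ z + (closedBall (0 : E (2 * a + 4)) 2).indicator (fun _ => C) z) :=
          integral_mono ((bk_tst hτ).bilap.integrable.abs) ((Gm_integrable hτ).add hi) hb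
      _ = kap a + C * volume.real (closedBall (0 : E (2 * a + 4)) 2) := by
          rw [integral_add (Gm_integrable hτ) hi, Gm_integral hτ,
            integral_indicator measurableSet_closedBall]
          simp [mul_comm]


/-- truncated kernel at scale `R` -/
noncomputable def kk (a : ℕ) (τ R : ℝ) (z : E (2 * a + 4)) : ℝ :=
  (R ^ (2 * a))⁻¹ * bk a (τ / R ^ 2) (R⁻¹ • z)

theorem kk_eq {τ R : ℝ} (hτ : 0 < τ) (hR : 0 < R) (z : E (2 * a + 4)) :
    kk a τ R z = ((‖z‖ ^ 2 + τ) ^ a)⁻¹ * Hc (‖z‖ ^ 2 / R ^ 2) := by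
  unfold kk bk
  rw [norm_smul, norm_inv, Real.norm_of_nonneg hR.le, mul_pow, inv_pow]
  have h1 : (R ^ 2)⁻¹ * ‖z‖ ^ 2 + τ / R ^ 2 = (‖z‖ ^ 2 + τ) / R ^ 2 := by field_simp
  rw [h1, div_pow, ← pow_mul, inv_div]
  have h2 : (R ^ 2)⁻¹ * ‖z‖ ^ 2 = ‖z‖ ^ 2 / R ^ 2 := by field_simp
  rw [h2]
  have hz : ‖z‖ ^ 2 + τ ≠ 0 := by positivity
  field_simp

theorem kk_tst {τ R : ℝ} (hτ : 0 < τ) (hR : 0 < R) : Tst (kk a τ R) :=
  (Tst.scale (bk_tst (by positivity)) (inv_ne_zero hR.ne')).cmul _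

theorem bilap_cmul {n : ℕ} {f : E n → ℝ} (hf : ContDiff ℝ ∞ f) (c : ℝ) :
    bilap (fun x => c * f x) = fun x => c * bilap f x := by
  rw [bilap_eq (contDiff_const.mul hf), bilap_eq hf, lap_cmul hf, lap_cmul (lap_smooth hf)]

theorem bilap_kk {τ R : ℝ} (hτ : 0 < τ) (hR : 0 < R) (z : E (2 * a + 4)) :
    bilap (kk a τ R) z = (R ^ (2 * a + 4))⁻¹ * bilap (bk a (τ / R ^ 2)) (R⁻¹ • z) := by
  have hb := bk_smooth (a := a) (τ := τ / R ^ 2) (by positivity)
  unfold kk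
  rw [bilap_cmul (smooth_scale hb _), bilap_scale hb]
  simp only
  rw [inv_pow, pow_add]
  field_simp

theorem bilap_kk_inner {τ R : ℝ} (hτ : 0 < τ) (hR : 0 < R) {z : E (2 * a + 4)} (hz : ‖z‖ < R) :
    bilap (kk a τ R) z = Gm a τ z := by
  rw [bilap_kk hτ hR, bilap_bk_inner (by positivity)]
  · unfold Gm
    rw [norm_smul, norm_inv, Real.norm_of_nonneg hR.le, mul_pow, inv_pow]
    have h1 : (R ^ 2)⁻¹ * ‖z‖ ^ 2 + τ / R ^ 2 = (‖z‖ ^ 2 + τ) / R ^ 2 := by field_simp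
    rw [h1, div_pow, div_pow, inv_div, ← pow_mul, ← pow_mul]
    have hz : ‖z‖ ^ 2 + τ ≠ 0 := by positivity
    field_simp
    ring
  · rw [norm_smul, norm_inv, Real.norm_of_nonneg hR.le, inv_mul_lt_iff₀ hR, mul_one]
    exact hz

theorem kk_L1 (a : ℕ) : ∃ C : ℝ, 0 ≤ C ∧ ∀ τ R, 0 < τ → 0 < R →
    ∫ z, |bilap (kk a τ R) z| ≤ C := by
  obtain ⟨C, hC0, hC⟩ := bk_L1 a
  refine ⟨C, hC0, fun τ R hτ hR => ?_⟩
  have h := Measure.integral_comp_inv_smul (volume : Measure (E (2 * a + 4)))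
    (fun z => |bilap (bk a (τ / R ^ 2)) z|) R
  simp only [finrank_euclideanSpace, Fintype.card_fin] at h
  rw [abs_of_nonneg (by positivity)] at h
  simp only [bilap_kk hτ hR, abs_mul]
  rw [integral_const_mul, h, abs_of_nonneg (by positivity), smul_eq_mul, ← mul_assoc,
    inv_mul_cancel₀ (by positivity), one_mul]
  exact hC _ (by positivity)

theorem kk_nonneg {τ R : ℝ} (hτ : 0 < τ) (hR : 0 < R) (z : E (2 * a + 4)) : 0 ≤ kk a τ R z := by
  rw [kk_eq hτ hR]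
  have := Hc_nonneg (‖z‖ ^ 2 / R ^ 2)
  positivity

theorem kk_le {τ R : ℝ} (hτ : 0 < τ) (hR : 0 < R) {z : E (2 * a + 4)} (hz : z ≠ 0) :
    kk a τ R z ≤ (‖z‖ ^ (2 * a))⁻¹ := by
  rw [kk_eq hτ hR]
  have hz' : 0 < ‖z‖ := norm_pos_iff.2 hz
  calc ((‖z‖ ^ 2 + τ) ^ a)⁻¹ * Hc (‖z‖ ^ 2 / R ^ 2) ≤ ((‖z‖ ^ 2 + τ) ^ a)⁻¹ * 1 := by
        gcongr
        exact Hc_le_one _
    _ ≤ (‖z‖ ^ (2 * a))⁻¹ := by
        rw [mul_one, pow_mul]
        gcongr
        linarith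

theorem bern (a : ℕ) {x : ℝ} (hx : 0 ≤ x) : 1 - ((1 + x) ^ a)⁻¹ ≤ a * x := by
  have h0 : (0 : ℝ) < 1 + x := by linarith
  have h1 := one_add_mul_le_pow (a := (-(x / (1 + x)) : ℝ)) (by
    have : x / (1 + x) ≤ 1 := by rw [div_le_one h0]; linarith
    linarith) a
  have h2 : (1 + -(x / (1 + x)) : ℝ) = (1 + x)⁻¹ := by field_simp; ring
  rw [h2, inv_pow] at h1
  have h3 : x / (1 + x) ≤ x := by
    rw [div_le_iff₀ h0]; nlinarith
  have h4 : (a : ℝ) * (x / (1 + x)) ≤ a * x := by gcongr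
  linarith

theorem bern2 (a : ℕ) {x : ℝ} (hx : 0 ≤ x) : 1 - ((1 + x) ^ a)⁻¹ ≤ Real.sqrt (a * x) := by
  have h1 := bern a hx
  have h2 : 1 - ((1 + x) ^ a)⁻¹ ≤ 1 := by
    have : (0 : ℝ) ≤ ((1 + x) ^ a)⁻¹ := by positivity
    linarith
  have h0 : (0 : ℝ) ≤ a * x := by positivity
  by_cases h : a * x ≤ 1
  · refine h1.trans ?_
    apply Real.le_sqrt_of_sq_le
    nlinarith
  · push Not at h
    refine h2.trans ?_
    rw [Real.one_le_sqrt]
    exact h.le

theorem kern_diff (a : ℕ) {s τ : ℝ} (hs : 0 < s) (hτ : 0 < τ) :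
    ((s ^ 2) ^ a)⁻¹ - ((s ^ 2 + τ) ^ a)⁻¹ ≤ Real.sqrt (a * τ) * (s ^ (2 * a + 1))⁻¹ := by
  have h := bern2 a (x := τ / s ^ 2) (by positivity)
  have e1 : ((s ^ 2 + τ) ^ a)⁻¹ = ((s ^ 2) ^ a)⁻¹ * ((1 + τ / s ^ 2) ^ a)⁻¹ := by
    rw [← mul_inv, ← mul_pow]
    congr 2
    field_simp
  have e2 : Real.sqrt (a * (τ / s ^ 2)) = Real.sqrt (a * τ) / s := by
    rw [← mul_div_assoc, Real.sqrt_div' _ (by positivity), Real.sqrt_sq hs.le]
  have e3 : ((s ^ 2) ^ a)⁻¹ - ((s ^ 2 + τ) ^ a)⁻¹ =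
      ((s ^ 2) ^ a)⁻¹ * (1 - ((1 + τ / s ^ 2) ^ a)⁻¹) := by
    rw [e1]; ring
  rw [e3]
  calc ((s ^ 2) ^ a)⁻¹ * (1 - ((1 + τ / s ^ 2) ^ a)⁻¹) ≤
      ((s ^ 2) ^ a)⁻¹ * (Real.sqrt (a * τ) / s) := by
        rw [← e2]; gcongr
    _ = Real.sqrt (a * τ) * (s ^ (2 * a + 1))⁻¹ := by
        rw [pow_succ s (2 * a), pow_mul]
        field_simp

theorem kk_diff {τ R : ℝ} (hτ : 0 < τ) (hR : 0 < R) {z : E (2 * a + 4)} (hz : z ≠ 0) :
    |kk a τ R z - (‖z‖ ^ (2 * a))⁻¹| ≤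
      Real.sqrt (a * τ) * (‖z‖ ^ (2 * a + 1))⁻¹ + (R ^ (2 * a))⁻¹ := by
  have hz' : 0 < ‖z‖ := norm_pos_iff.2 hz
  have h1 := kk_le (a := a) hτ hR hz
  have h2 := kk_nonneg (a := a) hτ hR z
  rw [abs_sub_comm, abs_of_nonneg (by linarith)]
  by_cases h : ‖z‖ ≤ R
  · have h3 : Hc (‖z‖ ^ 2 / R ^ 2) = 1 := by
      apply Hc_one
      rw [div_le_one (by positivity)]
      gcongr
    rw [kk_eq hτ hR, h3, mul_one, pow_mul]
    have := kern_diff a hz' hτ
    have h4 : (0 : ℝ) ≤ (R ^ (2 * a))⁻¹ := by positivity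
    linarith
  · push Not at h
    have h5 : (‖z‖ ^ (2 * a))⁻¹ ≤ (R ^ (2 * a))⁻¹ := by gcongr
    have h6 : 0 ≤ Real.sqrt (a * τ) * (‖z‖ ^ (2 * a + 1))⁻¹ := by positivity
    linarith

/-- the bilaplacian of the kernels is an approximate identity -/
theorem Gm_tendsto {φ : E (2 * a + 4) → ℝ} (hφ : Continuous φ) {M : ℝ} (hM : ∀ x, |φ x| ≤ M)
    (t : E (2 * a + 4)) {τ : ℕ → ℝ} (hτ : ∀ j, 0 < τ j) (hτ0 : Tendsto τ atTop (𝓝 0)) :
    Tendsto (fun j => ∫ z, Gm a (τ j) z * φ (z + t)) atTop (𝓝 (kap a * φ t)) := by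
  have e : ∀ j, ∫ z, Gm a (τ j) z * φ (z + t) =
      ∫ z, Gm a 1 z * φ (Real.sqrt (τ j) • z + t) := fun j =>
    Gm_integral_mul (hτ j) (fun z => φ (z + t))
  simp only [e]
  have e2 : kap a * φ t = ∫ z, Gm a 1 z * φ t := by
    rw [integral_mul_const]; rfl
  rw [e2]
  apply tendsto_integral_of_dominated_convergence (fun z => Gm a 1 z * M)
  · intro j
    apply Continuous.aestronglyMeasurable
    have := Gm_continuous (a := a) one_pos
    fun_prop
  · exact (Gm_one_integrable a).mul_const M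
  · intro j
    refine Eventually.of_forall fun z => ?_
    rw [norm_mul, Real.norm_of_nonneg (Gm_nonneg one_pos z), Real.norm_eq_abs]
    have := Gm_nonneg (a := a) one_pos z
    gcongr
    exact hM _
  · refine Eventually.of_forall fun z => ?_
    apply Tendsto.const_mul
    have h1 : Tendsto (fun j => Real.sqrt (τ j) • z + t) atTop (𝓝 (Real.sqrt 0 • z + t)) :=
      (((Real.continuous_sqrt.tendsto 0).comp hτ0).smul_const z).add_const t
    simp only [Real.sqrt_zero, zero_smul, zero_add] at h1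
    exact (hφ.tendsto t).comp h1

end Pool.Agent.Helper749.Bi
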