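import Pool.Agent.Helper749.Bi.Cutoff

open MeasureTheory Metric Set Filter Topology
open scoped ENNReal NNReal RealInnerProductSpace ContDiff

set_option linter.unusedSectionVars false

namespace Pool.Agent.Helper749.Bi

variable {a : ℕ}

/-- constant -/
noncomputable def ca (a : ℕ) : ℝ := 16 * a * (a + 1) * (a + 2) * (a + 3)

/-- mollified bilaplacian of the kernel -/
noncomputable def Gm (a : ℕ) (τ : ℝ) (z : E (2 * a + 4)) : ℝ :=
  ca a * τ ^ 2 * ((‖z‖ ^ 2 + τ) ^ (a + 4))⁻¹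

/-- truncated kernel at scale 1 -/
noncomputable def bk (a : ℕ) (τ : ℝ) (z : E (2 * a + 4)) : ℝ :=
  ((‖z‖ ^ 2 + τ) ^ a)⁻¹ * Hc (‖z‖ ^ 2)

theorem bk_smooth {τ : ℝ} (hτ : 0 < τ) : ContDiff ℝ ∞ (bk a τ) := by
  unfold bk
  refine ContDiff.mul ?_ (Hc_smooth.comp (contDiff_norm_sq ℝ))
  refine ContDiff.inv ?_ ?_
  · exact ((contDiff_norm_sq ℝ).add contDiff_const).pow a
  · intro x
    positivity

theorem bk_zero {τ : ℝ} {z : E (2 * a + 4)} (h : 2 ≤ ‖z‖) : bk a τ z = 0 := by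
  unfold bk
  rw [Hc_zero (by nlinarith), mul_zero]

theorem bk_tst {τ : ℝ} (hτ : 0 < τ) : Tst (bk a τ) := by
  refine ⟨bk_smooth hτ, ?_⟩
  apply HasCompactSupport.intro (isCompact_closedBall (0 : E (2 * a + 4)) 2)
  intro x hx
  apply bk_zero
  simp only [mem_closedBall, dist_zero_right, not_le] at hx
  exact hx.le

/-- derivatives of the profile -/
noncomputable def Pd (a : ℕ) (τ : ℝ) (s : ℝ) : ℝ := ((s + τ) ^ a)⁻¹

theorem Pd_hasDeriv (m : ℕ) {s τ : ℝ} (h : 0 < s + τ) :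
    HasDerivAt (Pd m τ) (-(m : ℝ) * Pd (m + 1) τ s) s := hP m h

theorem Pd_cderiv (c : ℝ) (m : ℕ) {s τ : ℝ} (h : 0 < s + τ) :
    HasDerivAt (fun s => c * Pd m τ s) (c * (-(m : ℝ)) * Pd (m + 1) τ s) s :=
  ((Pd_hasDeriv m h).const_mul c).congr_deriv (by ring)

theorem mul_deriv {c d : ℝ} {m k : ℕ} {s τ : ℝ} (h : 0 < s + τ) :
    HasDerivAt (fun s => d * (c * Pd m τ s * Hd k s))
      (d * (c * (-(m : ℝ)) * Pd (m + 1) τ s * Hd k s) + d * (c * Pd m τ s * Hd (k + 1) s)) s :=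
  (((Pd_cderiv c m h).mul (Hd_hasDeriv k s)).const_mul d).congr_deriv (by ring)

/-- first derivative etc of the profile -/
noncomputable def F0 (a : ℕ) (τ s : ℝ) : ℝ := Pd a τ s * Hd 0 s
noncomputable def F1 (a : ℕ) (τ s : ℝ) : ℝ :=
  -(a : ℝ) * Pd (a + 1) τ s * Hd 0 s + Pd a τ s * Hd 1 s
noncomputable def F2 (a : ℕ) (τ s : ℝ) : ℝ :=
  (a : ℝ) * (a + 1) * Pd (a + 2) τ s * Hd 0 s - 2 * a * Pd (a + 1) τ s * Hd 1 s +
    Pd a τ s * Hd 2 s
noncomputable def F3 (a : ℕ) (τ s : ℝ) : ℝ :=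
  -(a : ℝ) * (a + 1) * (a + 2) * Pd (a + 3) τ s * Hd 0 s
    + 3 * a * (a + 1) * Pd (a + 2) τ s * Hd 1 s
    - 3 * a * Pd (a + 1) τ s * Hd 2 s + Pd a τ s * Hd 3 s
noncomputable def F4 (a : ℕ) (τ s : ℝ) : ℝ :=
  (a : ℝ) * (a + 1) * (a + 2) * (a + 3) * Pd (a + 4) τ s * Hd 0 s
    - 4 * a * (a + 1) * (a + 2) * Pd (a + 3) τ s * Hd 1 s
    + 6 * a * (a + 1) * Pd (a + 2) τ s * Hd 2 s
    - 4 * a * Pd (a + 1) τ s * Hd 3 s + Pd a τ s * Hd 4 s

theorem F0_deriv {τ s : ℝ} (h : 0 < s + τ) : HasDerivAt (F0 a τ) (F1 a τ s) s := by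
  unfold F0
  refine ((Pd_hasDeriv a h).mul (Hd_hasDeriv 0 s)).congr_deriv ?_
  unfold F1
  ring

theorem F1_deriv {τ s : ℝ} (h : 0 < s + τ) : HasDerivAt (F1 a τ) (F2 a τ s) s := by
  unfold F1
  refine ((((Pd_hasDeriv (a + 1) h).const_mul (-(a : ℝ))).mul (Hd_hasDeriv 0 s)).add
    ((Pd_hasDeriv a h).mul (Hd_hasDeriv 1 s))).congr_deriv ?_
  unfold F2
  push_cast
  ring

theorem F2_deriv {τ s : ℝ} (h : 0 < s + τ) : HasDerivAt (F2 a τ) (F3 a τ s) s := by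
  unfold F2
  refine (((((Pd_hasDeriv (a + 2) h).const_mul ((a : ℝ) * (a + 1))).mul (Hd_hasDeriv 0 s)).sub
    (((Pd_hasDeriv (a + 1) h).const_mul (2 * (a : ℝ))).mul (Hd_hasDeriv 1 s))).add
    ((Pd_hasDeriv a h).mul (Hd_hasDeriv 2 s))).congr_deriv ?_
  unfold F3
  push_cast
  ring

theorem F3_deriv {τ s : ℝ} (h : 0 < s + τ) : HasDerivAt (F3 a τ) (F4 a τ s) s := by
  unfold F3
  refine ((((((Pd_hasDeriv (a + 3) h).const_mul (-(a : ℝ) * (a + 1) * (a + 2))).mul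
    (Hd_hasDeriv 0 s)).add
    (((Pd_hasDeriv (a + 2) h).const_mul (3 * (a : ℝ) * (a + 1))).mul (Hd_hasDeriv 1 s))).sub
    (((Pd_hasDeriv (a + 1) h).const_mul (3 * (a : ℝ))).mul (Hd_hasDeriv 2 s))).add
    ((Pd_hasDeriv a h).mul (Hd_hasDeriv 3 s))).congr_deriv ?_
  unfold F4
  push_cast
  ring

theorem bilap_bk {τ : ℝ} (hτ : 0 < τ) (z : E (2 * a + 4)) :
    bilap (bk a τ) z = 16 * (‖z‖ ^ 2) ^ 2 * F4 a τ (‖z‖ ^ 2) +
      16 * (2 * a + 6) * ‖z‖ ^ 2 * F3 a τ (‖z‖ ^ 2) +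
        4 * (2 * a + 4) * (2 * a + 6) * F2 a τ (‖z‖ ^ 2) := by
  have e : bk a τ = fun z => F0 a τ (‖z‖ ^ 2) := rfl
  have hs : ContDiff ℝ ∞ (fun z : E (2 * a + 4) => F0 a τ (‖z‖ ^ 2)) := bk_smooth hτ
  rw [e, bilap_rad (fun s h => F0_deriv (by linarith)) (fun s h => F1_deriv (by linarith))
    (fun s h => F2_deriv (by linarith)) (fun s h => F3_deriv (by linarith)) hs]
  push_cast
  ring

theorem bilap_bk_inner {τ : ℝ} (hτ : 0 < τ) {z : E (2 * a + 4)} (hz : ‖z‖ < 1) :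
    bilap (bk a τ) z = Gm a τ z := by
  rw [bilap_bk hτ]
  have hs : ‖z‖ ^ 2 < 1 := by nlinarith [norm_nonneg z]
  unfold F4 F3 F2 Gm ca
  rw [Hd_lt hs, Hd_lt hs, Hd_lt hs, Hd_lt hs]
  have e0 : Hd 0 (‖z‖ ^ 2) = 1 := Hc_one hs.le
  rw [e0]
  unfold Pd
  have hp : ‖z‖ ^ 2 + τ ≠ 0 := by positivity
  generalize ‖z‖ ^ 2 = s at hp ⊢
  field_simp
  ring

theorem Pd_le {m : ℕ} {τ s : ℝ} (hτ : 0 < τ) (h : 1 ≤ s) : |Pd m τ s| ≤ 1 := by
  unfold Pd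
  rw [abs_of_nonneg (by positivity)]
  exact inv_le_one_of_one_le₀ (one_le_pow₀ (by linarith))

theorem term_le {c p h C K : ℝ} (hc : |c| ≤ K) (hp : |p| ≤ 1) (hh : |h| ≤ C) (hK : 0 ≤ K) :
    |c * p * h| ≤ K * C := by
  rw [abs_mul, abs_mul]
  have hC : 0 ≤ C := (abs_nonneg h).trans hh
  calc |c| * |p| * |h| ≤ K * 1 * C := by gcongr
    _ = K * C := by ring

theorem bilap_bk_outer (a : ℕ) : ∃ C : ℝ, 0 ≤ C ∧ ∀ τ, 0 < τ → ∀ z : E (2 * a + 4), 1 ≤ ‖z‖ →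
    |bilap (bk a τ) z| ≤ C := by
  obtain ⟨C, hC0, hC⟩ := Hd_bound
  set M : ℝ := (a + 4 : ℝ) ^ 4 with hM
  have hM0 : 0 ≤ M := by positivity
  have ha : (0 : ℝ) ≤ a := Nat.cast_nonneg a
  have b4 : ∀ τ, 0 < τ → ∀ s, 1 ≤ s → |F4 a τ s| ≤ 16 * (M * C) := by
    intro τ hτ s hs
    have t1 : |(a : ℝ) * (a + 1) * (a + 2) * (a + 3) * Pd (a + 4) τ s * Hd 0 s| ≤ M * C := by
      refine term_le ?_ (Pd_le hτ hs) (hC 0 (by norm_num) s (by linarith)) hM0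
      rw [abs_of_nonneg (by positivity), hM]
      nlinarith [mul_nonneg ha ha, pow_nonneg ha 3, pow_nonneg ha 4]
    have t2 : |(4 : ℝ) * a * (a + 1) * (a + 2) * Pd (a + 3) τ s * Hd 1 s| ≤ 4 * M * C := by
      refine term_le ?_ (Pd_le hτ hs) (hC 1 (by norm_num) s (by linarith)) (by positivity)
      rw [abs_of_nonneg (by positivity), hM]
      nlinarith [mul_nonneg ha ha, pow_nonneg ha 3, pow_nonneg ha 4]
    have t3 : |(6 : ℝ) * a * (a + 1) * Pd (a + 2) τ s * Hd 2 s| ≤ 6 * M * C := by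
      refine term_le ?_ (Pd_le hτ hs) (hC 2 (by norm_num) s (by linarith)) (by positivity)
      rw [abs_of_nonneg (by positivity), hM]
      nlinarith [mul_nonneg ha ha, pow_nonneg ha 3, pow_nonneg ha 4]
    have t4 : |(4 : ℝ) * a * Pd (a + 1) τ s * Hd 3 s| ≤ 4 * M * C := by
      refine term_le ?_ (Pd_le hτ hs) (hC 3 (by norm_num) s (by linarith)) (by positivity)
      rw [abs_of_nonneg (by positivity), hM]
      nlinarith [mul_nonneg ha ha, pow_nonneg ha 3, pow_nonneg ha 4]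
    have t5 : |1 * Pd a τ s * Hd 4 s| ≤ M * C := by
      refine term_le ?_ (Pd_le hτ hs) (hC 4 (by norm_num) s (by linarith)) hM0
      rw [abs_of_nonneg (by positivity), hM]
      nlinarith [mul_nonneg ha ha, pow_nonneg ha 3, pow_nonneg ha 4]
    unfold F4
    rw [abs_le] at *
    constructor <;> linarith [t1.1, t1.2, t2.1, t2.2, t3.1, t3.2, t4.1, t4.2, t5.1, t5.2]
  have b3 : ∀ τ, 0 < τ → ∀ s, 1 ≤ s → |F3 a τ s| ≤ 8 * (M * C) := by
    intro τ hτ s hs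
    have t1 : |-(a : ℝ) * (a + 1) * (a + 2) * Pd (a + 3) τ s * Hd 0 s| ≤ M * C := by
      refine term_le ?_ (Pd_le hτ hs) (hC 0 (by norm_num) s (by linarith)) hM0
      rw [abs_mul, abs_mul, abs_neg, abs_of_nonneg ha, abs_of_nonneg (by positivity),
        abs_of_nonneg (by positivity), hM]
      nlinarith [mul_nonneg ha ha, pow_nonneg ha 3, pow_nonneg ha 4]
    have t2 : |(3 : ℝ) * a * (a + 1) * Pd (a + 2) τ s * Hd 1 s| ≤ 3 * M * C := by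
      refine term_le ?_ (Pd_le hτ hs) (hC 1 (by norm_num) s (by linarith)) (by positivity)
      rw [abs_of_nonneg (by positivity), hM]
      nlinarith [mul_nonneg ha ha, pow_nonneg ha 3, pow_nonneg ha 4]
    have t3 : |(3 : ℝ) * a * Pd (a + 1) τ s * Hd 2 s| ≤ 3 * M * C := by
      refine term_le ?_ (Pd_le hτ hs) (hC 2 (by norm_num) s (by linarith)) (by positivity)
      rw [abs_of_nonneg (by positivity), hM]
      nlinarith [mul_nonneg ha ha, pow_nonneg ha 3, pow_nonneg ha 4]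
    have t4 : |1 * Pd a τ s * Hd 3 s| ≤ M * C := by
      refine term_le ?_ (Pd_le hτ hs) (hC 3 (by norm_num) s (by linarith)) hM0
      rw [abs_of_nonneg (by positivity), hM]
      nlinarith [mul_nonneg ha ha, pow_nonneg ha 3, pow_nonneg ha 4]
    unfold F3
    rw [abs_le] at *
    constructor <;> linarith [t1.1, t1.2, t2.1, t2.2, t3.1, t3.2, t4.1, t4.2]
  have b2 : ∀ τ, 0 < τ → ∀ s, 1 ≤ s → |F2 a τ s| ≤ 4 * (M * C) := by
    intro τ hτ s hs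
    have t1 : |(a : ℝ) * (a + 1) * Pd (a + 2) τ s * Hd 0 s| ≤ M * C := by
      refine term_le ?_ (Pd_le hτ hs) (hC 0 (by norm_num) s (by linarith)) hM0
      rw [abs_of_nonneg (by positivity), hM]
      nlinarith [mul_nonneg ha ha, pow_nonneg ha 3, pow_nonneg ha 4]
    have t2 : |(2 : ℝ) * a * Pd (a + 1) τ s * Hd 1 s| ≤ 2 * M * C := by
      refine term_le ?_ (Pd_le hτ hs) (hC 1 (by norm_num) s (by linarith)) (by positivity)
      rw [abs_of_nonneg (by positivity), hM]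
      nlinarith [mul_nonneg ha ha, pow_nonneg ha 3, pow_nonneg ha 4]
    have t4 : |1 * Pd a τ s * Hd 2 s| ≤ M * C := by
      refine term_le ?_ (Pd_le hτ hs) (hC 2 (by norm_num) s (by linarith)) hM0
      rw [abs_of_nonneg (by positivity), hM]
      nlinarith [mul_nonneg ha ha, pow_nonneg ha 3, pow_nonneg ha 4]
    unfold F2
    rw [abs_le] at *
    constructor <;> linarith [t1.1, t1.2, t2.1, t2.2, t4.1, t4.2]
  refine ⟨16 * 4 ^ 2 * (16 * (M * C)) + 16 * (2 * a + 6) * 4 * (8 * (M * C)) +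
    4 * (2 * a + 4) * (2 * a + 6) * (4 * (M * C)), by positivity, fun τ hτ z hz => ?_⟩
  by_cases h4 : ‖z‖ ^ 2 ≤ 4
  · have hs : 1 ≤ ‖z‖ ^ 2 := by nlinarith
    rw [bilap_bk hτ]
    have c4 := b4 τ hτ _ hs
    have c3 := b3 τ hτ _ hs
    have c2 := b2 τ hτ _ hs
    generalize ‖z‖ ^ 2 = s at *
    have hs0 : 0 ≤ s := by linarith
    calc |16 * s ^ 2 * F4 a τ s + 16 * (2 * a + 6) * s * F3 a τ s +
          4 * (2 * a + 4) * (2 * a + 6) * F2 a τ s|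
        ≤ |16 * s ^ 2 * F4 a τ s| + |16 * (2 * a + 6) * s * F3 a τ s| +
          |4 * (2 * a + 4) * (2 * a + 6) * F2 a τ s| := abs_add_three _ _ _
      _ = 16 * s ^ 2 * |F4 a τ s| + 16 * (2 * a + 6) * s * |F3 a τ s| +
          4 * (2 * a + 4) * (2 * a + 6) * |F2 a τ s| := by
          rw [abs_mul (16 * s ^ 2), abs_mul (16 * (2 * (a : ℝ) + 6) * s),
            abs_mul (4 * (2 * (a : ℝ) + 4) * (2 * a + 6)),
            abs_of_nonneg (by positivity : (0:ℝ) ≤ 16 * s ^ 2),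
            abs_of_nonneg (by positivity : (0:ℝ) ≤ 16 * (2 * a + 6) * s),
            abs_of_nonneg (by positivity : (0:ℝ) ≤ 4 * (2 * a + 4) * (2 * a + 6))]
      _ ≤ _ := by gcongr
  · push Not at h4
    rw [bilap_bk hτ]
    unfold F4 F3 F2
    rw [Hd_gt h4, Hd_gt h4, Hd_gt h4, Hd_gt h4, Hd_gt h4]
    simp
    positivity

theorem bilap_bk_zero {τ : ℝ} (hτ : 0 < τ) {z : E (2 * a + 4)} (hz : 2 < ‖z‖) :
    bilap (bk a τ) z = 0 := by
  have h4 : 4 < ‖z‖ ^ 2 := by nlinarith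
  rw [bilap_bk hτ]
  unfold F4 F3 F2
  rw [Hd_gt h4, Hd_gt h4, Hd_gt h4, Hd_gt h4, Hd_gt h4]
  simp

end Pool.Agent.Helper749.Bi
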