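import Pool.Agent.Helper749.Bi.SphLaw

open MeasureTheory Metric Set Filter Topology
open scoped ENNReal NNReal RealInnerProductSpace ContDiff

set_option linter.unusedSectionVars false

namespace Pool.Agent.Helper749.Bi

variable {m : ℕ}

/-- uniform measure on the codimension two unit sphere -/
noncomputable def sg (m : ℕ) : Measure (E (m + 1)) :=
  (volume (ball (0 : E (m + 1)) 1))⁻¹ • (volume.restrict (ball (0 : E (m + 1)) 1)).map Tj

theorem vol_ball_ne_zero : volume (ball (0 : E (m + 1)) 1) ≠ 0 :=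
  (measure_ball_pos _ _ one_pos).ne'

theorem vol_ball_ne_top : volume (ball (0 : E (m + 1)) 1) ≠ ⊤ := measure_ball_lt_top.ne

instance sg_prob : IsProbabilityMeasure (sg m) := by
  constructor
  unfold sg
  rw [Measure.smul_apply, Measure.map_apply Tj_measurable MeasurableSet.univ, preimage_univ,
    Measure.restrict_apply_univ, smul_eq_mul]
  exact ENNReal.inv_mul_cancel vol_ball_ne_zero vol_ball_ne_top

theorem Pj_zero (y : E (m + 1)) : (Pj y) 0 = 0 := by
  unfold Pj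
  simp

theorem sg_K : ∀ᵐ t ∂(sg (m + 1)), t 0 = 0 ∧ ‖t‖ = 1 := by
  unfold sg
  apply Measure.ae_smul_measure
  have hms : MeasurableSet {t : E (m + 1 + 1) | t 0 = 0 ∧ ‖t‖ = 1} := by
    apply MeasurableSet.inter
    · exact measurableSet_eq_fun (by fun_prop) (by fun_prop)
    · exact measurableSet_eq_fun (by fun_prop) (by fun_prop)
  rw [ae_map_iff Tj_measurable.aemeasurable hms]
  apply ae_restrict_of_ae
  have h1 : ∀ᵐ y : E (m + 1 + 1), y 1 ≠ 0 := by
    have h := Measure.addHaar_submodule (volume : Measure (E (m + 1 + 1)))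
      (LinearMap.ker (EuclideanSpace.proj 1 : E (m + 1 + 1) →L[ℝ] ℝ).toLinearMap) (by
        intro h
        have h2 : (ev 1 : E (m + 1 + 1)) ∈ (LinearMap.ker (EuclideanSpace.proj 1 :
          E (m + 1 + 1) →L[ℝ] ℝ).toLinearMap) := by rw [h]; trivial
        simp at h2)
    rw [ae_iff]
    refine measure_mono_null ?_ h
    intro y hy
    simpa using hy
  filter_upwards [h1] with y hy
  have hP : Pj y ≠ 0 := by
    intro h
    apply hy
    have h2 : (Pj y) 1 = y 1 := by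
      unfold Pj
      simp
    rw [← h2, h]
    rfl
  constructor
  · unfold Tj
    rw [PiLp.smul_apply, Pj_zero, smul_zero]
  · unfold Tj
    rw [norm_smul, norm_inv, norm_norm, inv_mul_cancel₀ (norm_ne_zero_iff.2 hP)]

theorem ax_inner (y : E (m + 1)) : y 0 = ⟪(ev 0 : E (m + 1)), y⟫ := by
  rw [EuclideanSpace.inner_single_left]
  simp

/-- invariance of the sphere measure under isometries fixing the axis -/
theorem sg_iso (ρ : E (m + 1) ≃ₗᵢ[ℝ] E (m + 1)) (h0 : ρ (ev 0) = ev 0) :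
    (sg m).map ρ = sg m := by
  have hc : ∀ y, (ρ y) 0 = y 0 := by
    intro y
    rw [ax_inner, ax_inner]
    nth_rewrite 1 [← h0]
    exact ρ.inner_map_map _ _
  have hP : ∀ y, Pj (ρ y) = ρ (Pj y) := by
    intro y
    unfold Pj
    rw [map_sub, map_smul, h0, hc]
  have hT : ∀ y, Tj (ρ y) = ρ (Tj y) := by
    intro y
    unfold Tj
    rw [hP, ρ.norm_map, map_smul]
  have hmp : MeasurePreserving ρ (volume.restrict (ball (0 : E (m + 1)) 1))
      (volume.restrict (ball (0 : E (m + 1)) 1)) := by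
    have h := ρ.measurePreserving.restrict_preimage (s := ball (0 : E (m + 1)) 1) measurableSet_ball
    have e : ρ ⁻¹' (ball (0 : E (m + 1)) 1) = ball 0 1 := by
      ext y
      simp
    rwa [e] at h
  unfold sg
  rw [Measure.map_smul, Measure.map_map ρ.continuous.measurable Tj_measurable]
  congr 1
  have e : (ρ ∘ Tj) = Tj ∘ ρ := by
    funext y
    simp only [Function.comp_apply, hT]
  rw [e, ← Measure.map_map Tj_measurable ρ.continuous.measurable, hmp.map_eq]

theorem sg_inv {x y : E (m + 1)} (h0 : x 0 = y 0) (hn : ‖x‖ = ‖y‖) :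
    (sg m).map (fun t => ‖x - t‖) = (sg m).map (fun t => ‖y - t‖) := by
  set ρ := (ℝ ∙ (x - y))ᗮ.reflection with hρ
  have h1 : ρ x = y := Submodule.reflection_sub hn
  have h2 : ρ (ev 0) = ev 0 := by
    apply Submodule.reflection_mem_subspace_eq_self
    rw [Submodule.mem_orthogonal_singleton_iff_inner_left]
    rw [← ax_inner]
    simp [h0]
  have h3 := sg_iso ρ h2
  have e : (fun t => ‖y - t‖) ∘ ρ = fun t => ‖x - t‖ := by
    funext t
    simp only [Function.comp_apply]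
    rw [← h1, ← map_sub, ρ.norm_map]
  nth_rewrite 2 [← h3]
  rw [Measure.map_map (by fun_prop) ρ.continuous.measurable, e]

theorem Jg_one_pos (k : ℕ) : Jg k (fun _ => 1) ≠ 0 ∧ Jg k (fun _ => 1) ≠ ⊤ := by
  have e : Jg k (fun _ => 1) = ENNReal.ofReal (∫ θ in (0 : ℝ)..Real.pi, Real.sin θ ^ k) := by
    unfold Jg
    simp only [mul_one]
    rw [intervalIntegral.integral_of_le Real.pi_pos.le, ← integral_Ioc_eq_integral_Ioo.symm,
      ofReal_integral_eq_lintegral_ofReal]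
    · have : Continuous (fun θ => Real.sin θ ^ k) := by fun_prop
      exact (this.integrableOn_Icc (a := 0) (b := Real.pi)).mono_set Ioo_subset_Icc_self
    · filter_upwards [ae_restrict_mem measurableSet_Ioo] with θ hθ
      exact pow_nonneg (Real.sin_pos_of_mem_Ioo hθ).le _
  rw [e]
  exact ⟨by simpa using integral_sin_pow_pos k, ENNReal.ofReal_ne_top⟩

theorem law {k : ℕ} {g : ℝ → ℝ≥0∞} (hg : Measurable g) :
    ∫⁻ t, g (t 1) ∂(sg (k + 1 + 1)) = Jg k g / Jg k (fun _ => 1) := by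
  obtain ⟨C, hC⟩ := law_aux k
  have e : ∀ g : ℝ → ℝ≥0∞, Measurable g → ∫⁻ t, g (t 1) ∂(sg (k + 1 + 1)) =
      (volume (ball (0 : E (k + 1 + 1 + 1)) 1))⁻¹ * (C * Jg k g) := by
    intro g hg
    have hm : Measurable (fun t : E (k + 1 + 1 + 1) => g (t 1)) := hg.comp (by fun_prop)
    unfold sg
    rw [lintegral_smul_measure, lintegral_map hm Tj_measurable, hC g hg, smul_eq_mul]
  have h1 := e (fun _ => 1) measurable_const
  simp only [lintegral_const, measure_univ, mul_one] at h1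
  rw [e g hg]
  obtain ⟨j0, j1⟩ := Jg_one_pos k
  rw [← mul_assoc] at h1
  rw [ENNReal.div_eq_inv_mul, ← mul_assoc]
  congr 1
  exact (ENNReal.eq_inv_of_mul_eq_one_left h1.symm)


/-! ### the two basic integrals -/

theorem Jg_F1 (k : ℕ) :
    Jg k (fun s => (ENNReal.ofReal (Real.sqrt (1 - s ^ 2)) ^ k)⁻¹) = ENNReal.ofReal Real.pi := by
  unfold Jg
  have e : ∀ θ ∈ Ioo 0 Real.pi, ENNReal.ofReal (Real.sin θ ^ k) *
      (ENNReal.ofReal (Real.sqrt (1 - Real.cos θ ^ 2)) ^ k)⁻¹ = 1 := by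
    intro θ hθ
    have hs := Real.sin_pos_of_mem_Ioo hθ
    have h1 : Real.sqrt (1 - Real.cos θ ^ 2) = Real.sin θ := by
      rw [← Real.sin_sq, Real.sqrt_sq hs.le]
    rw [h1, ← ENNReal.ofReal_pow hs.le]
    apply ENNReal.mul_inv_cancel
    · simp only [ne_eq, ENNReal.ofReal_eq_zero, not_le]
      positivity
    · exact ENNReal.ofReal_ne_top
  rw [setLIntegral_congr_fun measurableSet_Ioo e]
  simp

/-- finite bound for the potential of order `k` -/
theorem F1_bound (k : ℕ) : ∃ C : ℝ≥0∞, C ≠ ⊤ ∧ ∀ x : E (k + 1 + 1 + 1),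
    ∫⁻ t, (ENNReal.ofReal ‖x - t‖ ^ k)⁻¹ ∂(sg (k + 1 + 1)) ≤ C := by
  obtain ⟨j0, j1⟩ := Jg_one_pos k
  refine ⟨ENNReal.ofReal Real.pi / Jg k (fun _ => 1), ENNReal.div_ne_top ENNReal.ofReal_ne_top j0,
    fun x => ?_⟩
  set r := Real.sqrt (‖x‖ ^ 2 - (x 0) ^ 2) with hr
  set y : E (k + 1 + 1 + 1) := (x 0) • ev 0 + r • ev 1 with hy
  have hx0 : (x 0) ^ 2 ≤ ‖x‖ ^ 2 := by
    rw [EuclideanSpace.real_norm_sq_eq]
    exact Finset.single_le_sum (f := fun i => x i ^ 2) (fun i _ => sq_nonneg _) (Finset.mem_univ 0)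
  have hr2 : r ^ 2 = ‖x‖ ^ 2 - (x 0) ^ 2 := Real.sq_sqrt (by linarith)
  have hy0 : y 0 = x 0 := by
    rw [hy]
    simp
  have hy1 : y 1 = r := by
    rw [hy]
    simp
  have hyi : ∀ t : E (k + 1 + 1 + 1), ⟪y, t⟫ = x 0 * t 0 + r * t 1 := by
    intro t
    rw [hy, inner_add_left, real_inner_smul_left, real_inner_smul_left,
      EuclideanSpace.inner_single_left, EuclideanSpace.inner_single_left]
    simp
  have hyn : ‖y‖ ^ 2 = ‖x‖ ^ 2 := by
    rw [← real_inner_self_eq_norm_sq, hyi, hy0, hy1]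
    linarith
  have hyn' : ‖x‖ = ‖y‖ := ((sq_eq_sq₀ (norm_nonneg _) (norm_nonneg _)).1 hyn).symm
  have hG : Measurable (fun s : ℝ => (ENNReal.ofReal s ^ k)⁻¹) := by fun_prop
  have e1 : ∀ z : E (k + 1 + 1 + 1), ∫⁻ t, (ENNReal.ofReal ‖z - t‖ ^ k)⁻¹ ∂(sg (k + 1 + 1)) =
      ∫⁻ s, (ENNReal.ofReal s ^ k)⁻¹ ∂((sg (k + 1 + 1)).map (fun t => ‖z - t‖)) := by
    intro z
    rw [lintegral_map hG (by fun_prop)]
  rw [e1, sg_inv hy0.symm hyn', ← e1]
  have hg : Measurable (fun s : ℝ => (ENNReal.ofReal (Real.sqrt (1 - s ^ 2)) ^ k)⁻¹) := by fun_prop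
  rw [← Jg_F1 k, ← law hg]
  apply lintegral_mono_ae
  filter_upwards [sg_K (m := k + 1)] with t ht
  gcongr
  rw [Real.sqrt_le_left (norm_nonneg _)]
  have h5 : ‖y - t‖ ^ 2 = ‖y‖ ^ 2 - 2 * ⟪y, t⟫ + ‖t‖ ^ 2 := norm_sub_sq_real y t
  rw [h5, hyn, hyi, ht.1, ht.2]
  nlinarith [sq_nonneg (r - t 1), sq_nonneg (x 0)]

/-- the self-potential of the sphere -/
theorem Jg_A (a : ℕ) :
    Jg (2 * a + 1) (fun s => ENNReal.ofReal ((2 - 2 * s) ^ a)⁻¹) =
      ENNReal.ofReal (2 / (a + 1)) := by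
  unfold Jg
  have e : ∀ θ ∈ Ioo 0 Real.pi, ENNReal.ofReal (Real.sin θ ^ (2 * a + 1)) *
      ENNReal.ofReal ((2 - 2 * Real.cos θ) ^ a)⁻¹ =
      ENNReal.ofReal ((2 ^ a)⁻¹ * ((1 + Real.cos θ) ^ a * Real.sin θ)) := by
    intro θ hθ
    have hs := Real.sin_pos_of_mem_Ioo hθ
    have hc : Real.cos θ < 1 := by
      have := Real.cos_lt_cos_of_nonneg_of_le_pi le_rfl hθ.2.le hθ.1
      simpa using this
    rw [← ENNReal.ofReal_mul (by positivity)]
    congr 1
    have h1 : Real.sin θ ^ 2 = (1 - Real.cos θ) * (1 + Real.cos θ) := by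
      rw [Real.sin_sq]; ring
    rw [pow_succ, pow_mul, h1, mul_pow, show 2 - 2 * Real.cos θ = 2 * (1 - Real.cos θ) by ring,
      mul_pow]
    have h2 : (1 - Real.cos θ) ≠ 0 := by linarith
    field_simp
  rw [setLIntegral_congr_fun measurableSet_Ioo e]
  have hcont : Continuous (fun θ => (2 ^ a : ℝ)⁻¹ * ((1 + Real.cos θ) ^ a * Real.sin θ)) := by
    fun_prop
  have hF : ∫ θ in (0 : ℝ)..Real.pi, (2 ^ a : ℝ)⁻¹ * ((1 + Real.cos θ) ^ a * Real.sin θ) =
      2 / (a + 1) := by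
    have hd : ∀ θ ∈ uIcc 0 Real.pi, HasDerivAt
        (fun θ => -((2 ^ a : ℝ)⁻¹ * ((1 + Real.cos θ) ^ (a + 1) / (a + 1))))
        ((2 ^ a : ℝ)⁻¹ * ((1 + Real.cos θ) ^ a * Real.sin θ)) θ := by
      intro θ _
      have h1 : HasDerivAt (fun θ => 1 + Real.cos θ) (-Real.sin θ) θ :=
        (Real.hasDerivAt_cos θ).const_add 1
      have h2 := ((((h1.pow (a + 1)).div_const (a + 1 : ℝ)).const_mul (2 ^ a : ℝ)⁻¹)).neg
      refine h2.congr_deriv ?_
      simp only [Nat.add_sub_cancel]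
      push_cast
      field_simp
    rw [intervalIntegral.integral_eq_sub_of_hasDerivAt hd (hcont.intervalIntegrable _ _)]
    simp only [Real.cos_pi, Real.cos_zero]
    rw [show (1 : ℝ) + -1 = 0 by ring, zero_pow (by omega), show (1 : ℝ) + 1 = 2 by ring, pow_succ]
    field_simp
    simp
  rw [← hF, intervalIntegral.integral_of_le Real.pi_pos.le, ← integral_Ioc_eq_integral_Ioo.symm,
      ofReal_integral_eq_lintegral_ofReal]
  · exact (hcont.integrableOn_Icc (a := 0) (b := Real.pi)).mono_set Ioo_subset_Icc_self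
  · filter_upwards [ae_restrict_mem measurableSet_Ioo] with θ hθ
    have hs := Real.sin_pos_of_mem_Ioo hθ
    have := Real.neg_one_le_cos θ
    have h1 : 0 ≤ 1 + Real.cos θ := by linarith
    simp only [Pi.zero_apply]
    positivity

theorem Jg_one (k : ℕ) :
    Jg k (fun _ => 1) = ENNReal.ofReal (∫ θ in (0 : ℝ)..Real.pi, Real.sin θ ^ k) := by
  unfold Jg
  simp only [mul_one]
  rw [intervalIntegral.integral_of_le Real.pi_pos.le, ← integral_Ioc_eq_integral_Ioo.symm,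
    ofReal_integral_eq_lintegral_ofReal]
  · have : Continuous (fun θ => Real.sin θ ^ k) := by fun_prop
    exact (this.integrableOn_Icc (a := 0) (b := Real.pi)).mono_set Ioo_subset_Icc_self
  · filter_upwards [ae_restrict_mem measurableSet_Ioo] with θ hθ
    exact pow_nonneg (Real.sin_pos_of_mem_Ioo hθ).le _

/-- self-potential constant -/
noncomputable def Ac (a : ℕ) : ℝ := 2 / (a + 1) / ∫ θ in (0 : ℝ)..Real.pi, Real.sin θ ^ (2 * a + 1)

theorem Ac_eq (a : ℕ) :
    ∫⁻ t, ENNReal.ofReal (‖(ev 1 : E (2 * a + 1 + 1 + 1 + 1)) - t‖ ^ (2 * a))⁻¹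
      ∂(sg (2 * a + 1 + 1 + 1)) = ENNReal.ofReal (Ac a) := by
  have hg : Measurable (fun s : ℝ => ENNReal.ofReal ((2 - 2 * s) ^ a)⁻¹) := by fun_prop
  unfold Ac
  rw [ENNReal.ofReal_div_of_pos (integral_sin_pow_pos _), ← Jg_A, ← Jg_one, ← law hg]
  apply lintegral_congr_ae
  filter_upwards [sg_K (m := 2 * a + 1 + 1)] with t ht
  have h5 : ‖(ev 1 : E (2 * a + 1 + 1 + 1 + 1)) - t‖ ^ 2 = 2 - 2 * t 1 := by
    rw [norm_sub_sq_real, ht.2, EuclideanSpace.inner_single_left]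
    simp
    ring
  rw [pow_mul, h5]

end Pool.Agent.Helper749.Bi
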