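import Pool.Agent.Helper749.Bi.Energy
import Pool.Agent.Helper749.Bi.Kernel
import Pool.Agent.Helper749.Bi.Sph
import Pool.Agent.Helper749.Bi.Av

open MeasureTheory Metric Set Filter Topology
open scoped ENNReal NNReal RealInnerProductSpace ContDiff

set_option linter.unusedSectionVars false

namespace Pool.Agent.Helper749.Bi

variable {a : ℕ}

/-- the sphere measure in the ambient space -/
noncomputable def sga (a : ℕ) : Measure (X a) := sg (2 * a + 3)

instance sga_prob : IsProbabilityMeasure (sga a) :=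
  inferInstanceAs (IsProbabilityMeasure (sg (2 * a + 3)))

theorem sga_K : ∀ᵐ t ∂(sga a), t 0 = 0 ∧ ‖t‖ = 1 := sg_K (m := 2 * a + 2)

theorem sga_norm : ∀ᵐ t ∂(sga a), ‖t‖ = 1 := sga_K.mono fun _ h => h.2

theorem sga_inv {x y : X a} (h0 : x 0 = y 0) (hn : ‖x‖ = ‖y‖) :
    (sga a).map (fun t => ‖x - t‖) = (sga a).map (fun t => ‖y - t‖) := sg_inv (m := 2 * a + 3) h0 hn

theorem sga_F1 (a : ℕ) : ∃ C : ℝ≥0∞, C ≠ ⊤ ∧ ∀ x : X a,
    ∫⁻ t, (ENNReal.ofReal ‖x - t‖ ^ (2 * a + 1))⁻¹ ∂(sga a) ≤ C := F1_bound (2 * a + 1)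

theorem sga_A (a : ℕ) :
    ∫⁻ t, ENNReal.ofReal (‖(ev 1 : X a) - t‖ ^ (2 * a))⁻¹ ∂(sga a) = ENNReal.ofReal (Ac a) :=
  Ac_eq a

theorem Inv_of {κ : ℝ → ℝ} (hκ : Measurable κ) : Inv (fun x : X a => ∫ t, κ ‖x - t‖ ∂(sga a)) := by
  intro x y h0 hn
  have e : ∀ z : X a, ∫ t, κ ‖z - t‖ ∂(sga a) = ∫ s, κ s ∂((sga a).map (fun t => ‖z - t‖)) := by
    intro z
    rw [integral_map (by fun_prop) hκ.aestronglyMeasurable]
  simp only [e]
  rw [sga_inv h0 hn]

/-- real version of the uniform bound -/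
theorem F1_real (a : ℕ) : ∃ C : ℝ, 0 ≤ C ∧ ∀ x : X a,
    (∀ᵐ t ∂(sga a), x - t ≠ 0) ∧ Integrable (fun t => (‖x - t‖ ^ (2 * a + 1))⁻¹) (sga a) ∧
    ∫ t, (‖x - t‖ ^ (2 * a + 1))⁻¹ ∂(sga a) ≤ C := by
  obtain ⟨C, hC, hF⟩ := sga_F1 a
  refine ⟨C.toReal, ENNReal.toReal_nonneg, fun x => ?_⟩
  have hm : Measurable (fun t : X a => (ENNReal.ofReal ‖x - t‖ ^ (2 * a + 1))⁻¹) := by fun_prop
  have h1 : ∀ᵐ t ∂(sga a), (ENNReal.ofReal ‖x - t‖ ^ (2 * a + 1))⁻¹ < ⊤ :=
    ae_lt_top hm (ne_top_of_le_ne_top hC (hF x))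
  have h2 : ∀ᵐ t ∂(sga a), x - t ≠ 0 := by
    filter_upwards [h1] with t ht h0
    rw [h0] at ht
    simp at ht
  have h3 : ∀ᵐ t ∂(sga a), (ENNReal.ofReal ‖x - t‖ ^ (2 * a + 1))⁻¹ =
      ENNReal.ofReal (‖x - t‖ ^ (2 * a + 1))⁻¹ := by
    filter_upwards [h2] with t ht
    have : 0 < ‖x - t‖ := norm_pos_iff.2 ht
    rw [ENNReal.ofReal_inv_of_pos (by positivity), ENNReal.ofReal_pow this.le]
  have h4 : ∫⁻ t, ENNReal.ofReal (‖x - t‖ ^ (2 * a + 1))⁻¹ ∂(sga a) ≤ C := by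
    rw [← lintegral_congr_ae h3]; exact hF x
  have hm2 : Measurable (fun t : X a => (‖x - t‖ ^ (2 * a + 1))⁻¹) := by fun_prop
  have hnn : 0 ≤ᵐ[sga a] fun t : X a => (‖x - t‖ ^ (2 * a + 1))⁻¹ :=
    Eventually.of_forall fun t => by positivity
  refine ⟨h2, ?_, ?_⟩
  · refine ⟨hm2.aestronglyMeasurable, ?_⟩
    rw [hasFiniteIntegral_iff_ofReal hnn]
    exact lt_of_le_of_lt h4 hC.lt_top
  · rw [integral_eq_lintegral_of_nonneg_ae hnn hm2.aestronglyMeasurable]
    exact ENNReal.toReal_mono hC h4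

/-- the constant of the uniform bound -/
noncomputable def C1 (a : ℕ) : ℝ := (F1_real a).choose

theorem C1_nonneg (a : ℕ) : 0 ≤ C1 a := (F1_real a).choose_spec.1

theorem C1_spec (x : X a) : (∀ᵐ t ∂(sga a), x - t ≠ 0) ∧
    Integrable (fun t => (‖x - t‖ ^ (2 * a + 1))⁻¹) (sga a) ∧
    ∫ t, (‖x - t‖ ^ (2 * a + 1))⁻¹ ∂(sga a) ≤ C1 a := (F1_real a).choose_spec.2 x

/-- the potential of the sphere -/
noncomputable def Phi (a : ℕ) (x : X a) : ℝ := ∫ t, (‖x - t‖ ^ (2 * a))⁻¹ ∂(sga a)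

theorem pw_le (a : ℕ) {s : ℝ} (hs : 0 ≤ s) : (s ^ (2 * a))⁻¹ ≤ 1 + (s ^ (2 * a + 1))⁻¹ := by
  rcases hs.eq_or_lt with h | h
  · rw [← h]
    rcases Nat.eq_zero_or_pos a with ha | ha
    · subst ha; simp
    · rw [zero_pow (by omega), zero_pow (by omega)]; simp
  · by_cases h1 : 1 ≤ s
    · have : (s ^ (2 * a))⁻¹ ≤ 1 := inv_le_one_of_one_le₀ (one_le_pow₀ h1)
      have h2 : (0 : ℝ) ≤ (s ^ (2 * a + 1))⁻¹ := by positivity
      linarith
    · push Not at h1
      have h3 : s ^ (2 * a + 1) ≤ s ^ (2 * a) := by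
        rw [pow_succ]
        have : 0 ≤ s ^ (2 * a) := by positivity
        nlinarith
      have : (s ^ (2 * a))⁻¹ ≤ (s ^ (2 * a + 1))⁻¹ := by
        gcongr
      linarith

theorem Phi_integrable (x : X a) : Integrable (fun t => (‖x - t‖ ^ (2 * a))⁻¹) (sga a) := by
  refine ((integrable_const (1 : ℝ)).add (C1_spec x).2.1).mono' ?_ ?_
  · have : Measurable (fun t : X a => (‖x - t‖ ^ (2 * a))⁻¹) := by fun_prop
    exact this.aestronglyMeasurable
  · refine Eventually.of_forall fun t => ?_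
    rw [Real.norm_of_nonneg (by positivity)]
    exact pw_le a (norm_nonneg _)

theorem Phi_nonneg (x : X a) : 0 ≤ Phi a x := integral_nonneg fun t => by positivity

theorem Phi_le (x : X a) : Phi a x ≤ 1 + C1 a := by
  unfold Phi
  have h := C1_spec x
  calc ∫ t, (‖x - t‖ ^ (2 * a))⁻¹ ∂(sga a) ≤ ∫ t, (1 + (‖x - t‖ ^ (2 * a + 1))⁻¹) ∂(sga a) :=
        integral_mono (Phi_integrable x) ((integrable_const (1 : ℝ)).add h.2.1)
          (fun t => pw_le a (norm_nonneg _))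
    _ ≤ 1 + C1 a := by
        rw [integral_add (integrable_const (1 : ℝ)) h.2.1]
        simp only [integral_const, probReal_univ, smul_eq_mul, mul_one]
        linarith [h.2.2]

theorem Phi_Inv : Inv (Phi a) := Inv_of (κ := fun s => (s ^ (2 * a))⁻¹) (by fun_prop)

theorem Phi_zero : Phi a 0 = 1 := by
  unfold Phi
  have : (fun t : X a => (‖(0 : X a) - t‖ ^ (2 * a))⁻¹) =ᵐ[sga a] fun _ => (1 : ℝ) := by
    filter_upwards [sga_norm] with t ht
    simp [ht]
  rw [integral_congr_ae this]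
  simp

theorem Ac_pos (a : ℕ) : 0 < Ac a := by
  unfold Ac
  have := integral_sin_pow_pos (2 * a + 1)
  positivity

theorem Phi_one : Phi a (ev 1) = Ac a := by
  unfold Phi
  rw [integral_eq_lintegral_of_nonneg_ae (Eventually.of_forall fun t => by positivity)
    (Phi_integrable _).aestronglyMeasurable]
  simp only [sga_A]
  exact ENNReal.toReal_ofReal (Ac_pos a).le

theorem Phi_far {x : X a} (hx : 1 < ‖x‖) : Phi a x ≤ ((‖x‖ - 1) ^ (2 * a))⁻¹ := by
  unfold Phi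
  have h0 : 0 < ‖x‖ - 1 := by linarith
  calc ∫ t, (‖x - t‖ ^ (2 * a))⁻¹ ∂(sga a) ≤ ∫ _t, ((‖x‖ - 1) ^ (2 * a))⁻¹ ∂(sga a) := by
        apply integral_mono_ae (Phi_integrable x) (integrable_const _)
        filter_upwards [sga_norm] with t ht
        have h1 := norm_sub_norm_le x t
        rw [ht] at h1
        gcongr
    _ = _ := by simp

/-- the approximating kernels -/
noncomputable def kj (a : ℕ) (j : ℕ) : X a → ℝ := kk a (1 / ((j : ℝ) + 1)) ((j : ℝ) + 1)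

theorem kj_tst (j : ℕ) : Tst (kj a j) := kk_tst (by positivity) (by positivity)

theorem kj_le (j : ℕ) {z : X a} (hz : z ≠ 0) : kj a j z ≤ (‖z‖ ^ (2 * a))⁻¹ :=
  kk_le (by positivity) (by positivity) hz

theorem kj_nonneg (j : ℕ) (z : X a) : 0 ≤ kj a j z := kk_nonneg (by positivity) (by positivity) z

/-- error bound -/
noncomputable def ej (a : ℕ) (j : ℕ) : ℝ :=
  Real.sqrt (a * (1 / ((j : ℝ) + 1))) * C1 a + (((j : ℝ) + 1) ^ (2 * a))⁻¹

theorem ej_tendsto (ha : 0 < a) : Tendsto (ej a) atTop (𝓝 0) := by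
  have h1 : Tendsto (fun j : ℕ => 1 / ((j : ℝ) + 1)) atTop (𝓝 0) := tendsto_one_div_add_atTop_nhds_zero_nat
  have h2 : Tendsto (fun j : ℕ => Real.sqrt (a * (1 / ((j : ℝ) + 1))) * C1 a) atTop
      (𝓝 (Real.sqrt (a * 0) * C1 a)) :=
    ((Real.continuous_sqrt.tendsto _).comp (h1.const_mul (a : ℝ))).mul_const _
  have h3 : Tendsto (fun j : ℕ => (((j : ℝ) + 1) ^ (2 * a))⁻¹) atTop (𝓝 0) := by
    have h4 := h1.pow (2 * a)
    rw [zero_pow (by omega)] at h4
    refine h4.congr fun j => ?_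
    rw [one_div, inv_pow]
  have h5 := h2.add h3
  simp only [mul_zero, Real.sqrt_zero, zero_mul, add_zero] at h5
  exact h5

theorem Av_err (j : ℕ) (x : X a) : |Av (sga a) (kj a j) x - Phi a x| ≤ ej a j := by
  have h := C1_spec x
  have hi := (kj_tst (a := a) j).av_int (σ := sga a) x
  unfold Av Phi
  rw [← integral_sub hi (Phi_integrable x)]
  calc |∫ t, (kj a j (x - t) - (‖x - t‖ ^ (2 * a))⁻¹) ∂(sga a)|
      ≤ ∫ t, |kj a j (x - t) - (‖x - t‖ ^ (2 * a))⁻¹| ∂(sga a) := abs_integral_le_integral_abs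
    _ ≤ ∫ t, (Real.sqrt (a * (1 / ((j : ℝ) + 1))) * (‖x - t‖ ^ (2 * a + 1))⁻¹ +
        (((j : ℝ) + 1) ^ (2 * a))⁻¹) ∂(sga a) := by
        apply integral_mono_ae (hi.sub (Phi_integrable x)).abs
          ((h.2.1.const_mul _).add (integrable_const _))
        filter_upwards [h.1] with t ht
        exact kk_diff (by positivity) (by positivity) ht
    _ ≤ ej a j := by
        rw [integral_add (h.2.1.const_mul _) (integrable_const _), integral_const_mul]
        simp only [integral_const, probReal_univ, smul_eq_mul, one_mul]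
        unfold ej
        gcongr
        exact h.2.2

theorem kj_Inv (j : ℕ) : Inv (Av (sga a) (kj a j)) := by
  have e : Av (sga a) (kj a j) = fun x => ∫ t, (fun s : ℝ => ((s ^ 2 + 1 / ((j : ℝ) + 1)) ^ a)⁻¹ *
      Hc (s ^ 2 / ((j : ℝ) + 1) ^ 2)) ‖x - t‖ ∂(sga a) := by
    funext x
    unfold Av
    congr 1
    funext t
    exact kk_eq (by positivity) (by positivity) _
  rw [e]
  refine Inv_of (κ := fun s : ℝ => ((s ^ 2 + 1 / ((j : ℝ) + 1)) ^ a)⁻¹ *
      Hc (s ^ 2 / ((j : ℝ) + 1) ^ 2)) ?_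
  have h1 := Hc_smooth.continuous.measurable
  have h2 : Measurable (fun s : ℝ => Hc (s ^ 2 / ((j : ℝ) + 1) ^ 2)) := h1.comp (by fun_prop)
  have h3 : Measurable (fun s : ℝ => ((s ^ 2 + 1 / ((j : ℝ) + 1)) ^ a)⁻¹) := by fun_prop
  exact h3.mul h2

theorem Av_kj_bound (j : ℕ) (x : X a) : |Av (sga a) (kj a j) x| ≤ 1 + C1 a := by
  have h := C1_spec x
  have hi := (kj_tst (a := a) j).av_int (σ := sga a) x
  unfold Av
  rw [abs_of_nonneg (integral_nonneg fun t => kj_nonneg j _)]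
  calc ∫ t, kj a j (x - t) ∂(sga a) ≤ ∫ t, (‖x - t‖ ^ (2 * a))⁻¹ ∂(sga a) := by
        apply integral_mono_ae hi (Phi_integrable x)
        filter_upwards [h.1] with t ht
        exact kj_le j ht
    _ ≤ 1 + C1 a := Phi_le x

theorem L1_bound (a : ℕ) : ∃ L : ℝ, 0 ≤ L ∧ ∀ j, ∫ x, |bilap (kj a j) x| ≤ L := by
  obtain ⟨C, hC0, hC⟩ := kk_L1 a
  exact ⟨C, hC0, fun j => hC _ _ (by positivity) (by positivity)⟩

theorem Av_en {k : X a → ℝ} (hk : Tst k) {S L : ℝ} (hS0 : 0 ≤ S) (hS : ∀ x, |Av (sga a) k x| ≤ S)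
    (hL : ∫ x, |bilap k x| ≤ L) : En (Av (sga a) k) ≤ S * L := by
  apply En_small (Av_tst hk sga_norm) hS _ hS0
  rw [Av_bilap hk]
  exact (Av_L1 hk.bilap sga_norm).trans hL

theorem bilap_sub {n : ℕ} {f g : E n → ℝ} (hf : ContDiff ℝ ∞ f) (hg : ContDiff ℝ ∞ g) :
    bilap (fun x => f x - g x) = fun x => bilap f x - bilap g x := by
  rw [bilap_eq (hf.sub hg), bilap_eq hf, bilap_eq hg, lap_sub hf hg,
    lap_sub (lap_smooth hf) (lap_smooth hg)]

theorem Av_kj_GS (ha : 0 < a) : GS (fun j => Av (sga a) (kj a j)) (Phi a) where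
  tst := fun j => Av_tst (kj_tst j) sga_norm
  inv := fun j => kj_Inv j
  unif := fun ε hε => by
    obtain ⟨J, hJ⟩ := ((ej_tendsto ha).eventually (Iio_mem_nhds hε)).exists_forall_of_atTop
    exact ⟨J, fun j hj x => (Av_err j x).trans (le_of_lt (hJ j hj))⟩
  cau := fun ε hε => by
    obtain ⟨L, hL0, hL⟩ := L1_bound a
    obtain ⟨J, hJ⟩ := ((ej_tendsto ha).eventually
      (Iio_mem_nhds (show 0 < ε / (4 * (L + 1)) by positivity))).exists_forall_of_atTop
    refine ⟨J, fun i hi j hj => ?_⟩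
    have h1 : ej a i < ε / (4 * (L + 1)) := hJ i hi
    have h2 : ej a j < ε / (4 * (L + 1)) := hJ j hj
    have e : (fun x => Av (sga a) (kj a i) x - Av (sga a) (kj a j) x) =
        Av (sga a) (fun x => kj a i x - kj a j x) := (Av_sub (kj_tst i) (kj_tst j)).symm
    rw [e]
    have hS : ∀ x, |Av (sga a) (fun x => kj a i x - kj a j x) x| ≤ 2 * (ε / (4 * (L + 1))) := by
      intro x
      rw [Av_sub (kj_tst i) (kj_tst j)]
      have a1 := Av_err i x
      have a2 := Av_err j x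
      rw [abs_le] at *
      constructor <;> linarith [a1.1, a1.2, a2.1, a2.2]
    have hLL : ∫ x, |bilap (fun x => kj a i x - kj a j x) x| ≤ 2 * L := by
      rw [bilap_sub (kj_tst i).1 (kj_tst j).1]
      calc ∫ x, |bilap (kj a i) x - bilap (kj a j) x|
          ≤ ∫ x, (|bilap (kj a i) x| + |bilap (kj a j) x|) := by
            apply integral_mono (((kj_tst i).bilap.sub (kj_tst j).bilap).integrable.abs)
              ((kj_tst i).bilap.integrable.abs.add (kj_tst j).bilap.integrable.abs)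
            intro x
            exact abs_sub _ _
        _ ≤ 2 * L := by
            rw [integral_add (kj_tst i).bilap.integrable.abs (kj_tst j).bilap.integrable.abs]
            linarith [hL i, hL j]
    refine (Av_en ((kj_tst i).sub (kj_tst j)) (by positivity) hS hLL).trans ?_
    have : 2 * (ε / (4 * (L + 1))) * (2 * L) = ε * (L / (L + 1)) := by field_simp; ring
    rw [this]
    have h5 : L / (L + 1) ≤ 1 := by rw [div_le_one (by positivity)]; linarith
    nlinarith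

end Pool.Agent.Helper749.Bi
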