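import Pool.Agent.Helper749.Bi.Pot1

open MeasureTheory Metric Set Filter Topology
open scoped ENNReal NNReal RealInnerProductSpace ContDiff

set_option linter.unusedSectionVars false

namespace Pool.Agent.Helper749.Bi

variable {a : ℕ}

/-- limits of pairings against integrable functions -/
theorem GS.pair {s : ℕ → X a → ℝ} {w : X a → ℝ} (hs : GS s w) {g : X a → ℝ} (hg : Tst g) :
    Tendsto (fun j => ∫ x, s j x * g x) atTop (𝓝 (∫ x, w x * g x)) := by
  have hi := hg.integrable.abs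
  rw [Metric.tendsto_atTop]
  intro ε hε
  set I := ∫ x, |g x| with hI
  have hI0 : 0 ≤ I := integral_nonneg fun _ => abs_nonneg _
  obtain ⟨J, hJ⟩ := hs.unif (ε / (2 * (I + 1))) (by positivity)
  refine ⟨J, fun j hj => ?_⟩
  rw [Real.dist_eq, ← integral_sub (Tst.mul_int (hs.tst j).1.continuous hg)
    (Tst.mul_int hs.continuous hg)]
  calc |∫ x, (s j x * g x - w x * g x)| ≤ ∫ x, |s j x * g x - w x * g x| :=
        abs_integral_le_integral_abs
    _ ≤ ∫ x, ε / (2 * (I + 1)) * |g x| := by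
        apply integral_mono ((Tst.mul_int (hs.tst j).1.continuous hg).sub
          (Tst.mul_int hs.continuous hg)).abs (hi.const_mul _)
        intro x
        simp only [Pi.sub_apply]
        rw [← sub_mul, abs_mul]
        gcongr
        exact hJ j hj x
    _ = ε * (I / (2 * (I + 1))) := by rw [integral_const_mul, ← hI]; ring
    _ < ε := by
        have : I / (2 * (I + 1)) < 1 := by
          rw [div_lt_one (by positivity)]; linarith
        nlinarith

theorem pair_formula (ha : 0 < a) {φ : X a → ℝ} (hφ : Tst φ) :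
    Tendsto (fun j => ∫ x, Av (sga a) (kj a j) x * bilap φ x) atTop
      (𝓝 (kap a * ∫ t, φ t ∂(sga a))) := by
  obtain ⟨M, hM0, hM⟩ := hφ.bound
  obtain ⟨r, hr0, hr⟩ := hφ.rad
  have e1 : ∀ j, ∫ x, Av (sga a) (kj a j) x * bilap φ x =
      ∫ t, (∫ z, bilap (kj a j) z * φ (z + t)) ∂(sga a) := by
    intro j
    rw [ibp_bilap' (Av_smooth (kj_tst j)) hφ, Av_bilap (kj_tst j), Av_fubini (kj_tst j).bilap hφ]
  have e2 : ∀ᶠ j : ℕ in atTop, ∫ t, (∫ z, bilap (kj a j) z * φ (z + t)) ∂(sga a) =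
      ∫ t, (∫ z, Gm a (1 / ((j : ℝ) + 1)) z * φ (z + t)) ∂(sga a) := by
    have h1 : ∀ᶠ j : ℕ in atTop, r + 1 < (j : ℝ) :=
      tendsto_natCast_atTop_atTop.eventually_gt_atTop (r + 1)
    filter_upwards [h1] with j hj
    apply integral_congr_ae
    filter_upwards [sga_norm] with t ht
    congr 1
    funext z
    by_cases hz : ‖z‖ < (j : ℝ) + 1
    · unfold kj
      rw [bilap_kk_inner (by positivity) (by positivity) hz]
    · push Not at hz
      have : φ (z + t) = 0 := by
        apply hr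
        have h2 := norm_sub_norm_le z (-t)
        rw [norm_neg, ht, sub_neg_eq_add] at h2
        linarith
      rw [this, mul_zero, mul_zero]
  have hτ0 : Tendsto (fun j : ℕ => 1 / ((j : ℝ) + 1)) atTop (𝓝 0) :=
    tendsto_one_div_add_atTop_nhds_zero_nat
  have e3 : Tendsto (fun j : ℕ => ∫ t, (∫ z, Gm a (1 / ((j : ℝ) + 1)) z * φ (z + t)) ∂(sga a))
      atTop (𝓝 (∫ t, kap a * φ t ∂(sga a))) := by
    apply tendsto_integral_of_dominated_convergence (fun _ => kap a * M)
    · intro j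
      have hc : Continuous (fun p : X a × X a => Gm a (1 / ((j : ℝ) + 1)) p.2 * φ (p.2 + p.1)) := by
        have h1 := Gm_continuous (a := a) (τ := 1 / ((j : ℝ) + 1)) (by positivity)
        have h2 := hφ.1.continuous
        exact (h1.comp continuous_snd).mul (h2.comp (by fun_prop))
      exact (hc.stronglyMeasurable.integral_prod_right').aestronglyMeasurable
    · exact integrable_const _
    · intro j
      refine Eventually.of_forall fun t => ?_
      have hG := Gm_integrable (a := a) (τ := 1 / ((j : ℝ) + 1)) (by positivity)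
      calc ‖∫ z, Gm a (1 / ((j : ℝ) + 1)) z * φ (z + t)‖
          ≤ ∫ z, ‖Gm a (1 / ((j : ℝ) + 1)) z * φ (z + t)‖ := norm_integral_le_integral_norm _
        _ ≤ ∫ z, Gm a (1 / ((j : ℝ) + 1)) z * M := by
            have hle : ∀ z, ‖Gm a (1 / ((j : ℝ) + 1)) z * φ (z + t)‖ ≤
                Gm a (1 / ((j : ℝ) + 1)) z * M := by
              intro z
              have := Gm_nonneg (a := a) (τ := 1 / ((j : ℝ) + 1)) (by positivity) z
              rw [norm_mul, Real.norm_of_nonneg this, Real.norm_eq_abs]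
              gcongr
              exact hM _
            apply integral_mono_of_nonneg (Eventually.of_forall fun z => norm_nonneg _)
              (hG.mul_const M) (Eventually.of_forall hle)
        _ = kap a * M := by rw [integral_mul_const, Gm_integral (by positivity)]
    · refine Eventually.of_forall fun t => ?_
      exact Gm_tendsto hφ.1.continuous hM t (fun j => by positivity) hτ0
  rw [integral_const_mul] at e3
  refine (e3.congr' ?_)
  filter_upwards [e2] with j hj
  rw [e1, hj]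

/-- the main formula for the potential -/
theorem Phi_formula (ha : 0 < a) {φ : X a → ℝ} (hφ : Tst φ) :
    ∫ x, Phi a x * bilap φ x = kap a * ∫ t, φ t ∂(sga a) :=
  tendsto_nhds_unique ((Av_kj_GS ha).pair hφ.bilap) (pair_formula ha hφ)

/-- scaled potential -/
noncomputable def Phe (a : ℕ) (ε : ℝ) (x : X a) : ℝ := Phi a (ε⁻¹ • x)

theorem unscale {ψ : X a → ℝ} (hψ : Tst ψ) {ε : ℝ} (hε : 0 < ε) (w : X a → ℝ) :
    ε ^ 4 * ∫ x, w (ε⁻¹ • x) * bilap ψ x =
      ε ^ (2 * a + 4) * ∫ x, w x * bilap (fun y => ψ (ε • y)) x := by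
  have h := int_scale (fun x => w x * bilap (fun y => ψ (ε • y)) x) hε
  rw [← h, bilap_scale hψ.1, ← integral_const_mul]
  congr 1
  funext x
  simp only
  rw [smul_smul, mul_inv_cancel₀ hε.ne', one_smul]
  ring

theorem Phe_formula (ha : 0 < a) {ψ : X a → ℝ} (hψ : Tst ψ) {ε : ℝ} (hε : 0 < ε) :
    ∫ x, Phe a ε x * bilap ψ x = ε ^ (2 * a) * (kap a * ∫ t, ψ (ε • t) ∂(sga a)) := by
  have h := unscale hψ hε (Phi a)
  rw [Phi_formula ha (hψ.scale hε.ne')] at h
  have h4 : ε ^ 4 ≠ 0 := by positivity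
  apply mul_left_cancel₀ h4
  unfold Phe
  rw [h]
  ring

theorem Phe_weq (ha : 0 < a) {ψ : X a → ℝ} (hψ : Tst ψ) {ε : ℝ} (hε : 0 < ε)
    (h0 : ∀ x ∈ Kr a ε, ψ x = 0) : ∫ x, Phe a ε x * bilap ψ x = 0 := by
  rw [Phe_formula ha hψ hε]
  have : (fun t => ψ (ε • t)) =ᵐ[sga a] fun _ => 0 := by
    filter_upwards [sga_K] with t ht
    apply h0
    refine ⟨by simp [ht.1], by rw [norm_smul, ht.2, Real.norm_of_nonneg hε.le, mul_one]⟩
  rw [integral_congr_ae this]
  simp

theorem Inv.scale {f : X a → ℝ} (hf : Inv f) (c : ℝ) : Inv (fun x => f (c • x)) := by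
  intro x y h0 hn
  apply hf
  · simp [h0]
  · rw [norm_smul, norm_smul, hn]

theorem En_scale' {f : X a → ℝ} (hf : Tst f) {ε : ℝ} (hε : 0 < ε) :
    En (fun x => f (ε⁻¹ • x)) = ε ^ (2 * a) * En f := by
  have h := En_scale hf hε
  have h4 : ε ^ 4 ≠ 0 := by positivity
  apply mul_left_cancel₀ h4
  rw [h]
  ring

theorem GS.scale {s : ℕ → X a → ℝ} {w : X a → ℝ} (hs : GS s w) {ε : ℝ} (hε : 0 < ε) :
    GS (fun j x => s j (ε⁻¹ • x)) (fun x => w (ε⁻¹ • x)) where
  tst := fun j => (hs.tst j).scale (inv_ne_zero hε.ne')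
  inv := fun j => (hs.inv j).scale _
  unif := fun δ hδ => by
    obtain ⟨J, hJ⟩ := hs.unif δ hδ
    exact ⟨J, fun j hj x => hJ j hj _⟩
  cau := fun δ hδ => by
    obtain ⟨J, hJ⟩ := hs.cau (δ / ε ^ (2 * a)) (by positivity)
    refine ⟨J, fun i hi j hj => ?_⟩
    have h1 := hJ i hi j hj
    have e := En_scale' ((hs.tst i).sub (hs.tst j)) hε
    rw [e]
    calc ε ^ (2 * a) * En (fun x => s i x - s j x) ≤ ε ^ (2 * a) * (δ / ε ^ (2 * a)) := by gcongr
      _ = δ := by field_simp

/-- good sequence for the scaled potential, with energy bound -/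
theorem Phe_GS (ha : 0 < a) : ∃ C : ℝ, 0 ≤ C ∧ ∀ ε, 0 < ε → ∃ s, GS s (Phe a ε) ∧
    ∀ j, En (s j) ≤ ε ^ (2 * a) * C := by
  obtain ⟨L, hL0, hL⟩ := L1_bound a
  have hC1 := C1_nonneg a
  refine ⟨(1 + C1 a) * L, by positivity, fun ε hε => ?_⟩
  refine ⟨fun j x => Av (sga a) (kj a j) (ε⁻¹ • x), (Av_kj_GS ha).scale hε, fun j => ?_⟩
  rw [En_scale' (Av_tst (kj_tst j) sga_norm) hε]
  gcongr
  exact Av_en (kj_tst j) (by positivity) (Av_kj_bound j) (hL j)

/-- capacity lower bound -/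
theorem cap_lower (ha : 0 < a) : ∃ c : ℝ, 0 < c ∧ ∀ ε, 0 < ε → ∀ φ : X a → ℝ, Tst φ →
    (∀ x ∈ Kr a ε, φ x = 1) → c * ε ^ (2 * a) ≤ En φ := by
  obtain ⟨L, hL0, hL⟩ := L1_bound a
  have hC1 := C1_nonneg a
  have hk := kap_pos ha
  set C := (1 + C1 a) * (L + 1) with hC
  have hC0 : 0 < C := by positivity
  refine ⟨kap a ^ 2 / C, by positivity, fun ε hε φ hφ h1 => ?_⟩
  set ψ : X a → ℝ := fun y => φ (ε • y) with hψ
  have hψt : Tst ψ := hφ.scale hε.ne'
  have e1 : En φ = ε ^ (2 * a) * En ψ := by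
    have := En_scale' hψt hε
    rw [← this]
    congr 1
    funext x
    simp only [hψ]
    rw [smul_smul, mul_inv_cancel₀ hε.ne', one_smul]
  have e2 : ∫ t, ψ t ∂(sga a) = 1 := by
    have : ψ =ᵐ[sga a] fun _ => 1 := by
      filter_upwards [sga_K] with t ht
      apply h1
      refine ⟨by simp [ht.1], by rw [norm_smul, ht.2, Real.norm_of_nonneg hε.le, mul_one]⟩
    rw [integral_congr_ae this]
    simp
  have h2 := pair_formula ha hψt
  rw [e2, mul_one] at h2
  have h3 : Tendsto (fun j => (∫ x, Av (sga a) (kj a j) x * bilap ψ x) ^ 2) atTop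
      (𝓝 (kap a ^ 2)) := h2.pow 2
  have h4 : kap a ^ 2 ≤ C * En ψ := by
    refine le_of_tendsto h3 (Eventually.of_forall fun j => ?_)
    refine (duality (Av_tst (kj_tst j) sga_norm) hψt).trans ?_
    have h5 : En (Av (sga a) (kj a j)) ≤ C :=
      Av_en (kj_tst j) (by positivity) (Av_kj_bound j) ((hL j).trans (by linarith))
    have := En_nonneg ψ
    gcongr
  rw [e1, div_mul_eq_mul_div, div_le_iff₀ hC0]
  calc kap a ^ 2 * ε ^ (2 * a) ≤ (C * En ψ) * ε ^ (2 * a) := by gcongr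
    _ = ε ^ (2 * a) * En ψ * C := by ring

end Pool.Agent.Helper749.Bi
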