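import Pool.Agent.Helper749.Bi.Appr
import Pool.Agent.Helper749.Bi.Pot2

open MeasureTheory Metric Set Filter Topology
open scoped ENNReal NNReal RealInnerProductSpace ContDiff

set_option linter.unusedSectionVars false

namespace Pool.Agent.Helper749.Bi

variable {a : ℕ}

/-- weak biharmonicity off the spheres -/
def Wk (R : Finset ℝ) (v : X a → ℝ) : Prop :=
  ∀ ψ : X a → ℝ, Tst ψ → (∀ r ∈ R, ∀ x ∈ Kr a r, ψ x = 0) → ∫ x, v x * bilap ψ x = 0

theorem Wk.add {R : Finset ℝ} {v u : X a → ℝ} (hv : Wk R v) (hu : Wk R u) (cv : Continuous v)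
    (cu : Continuous u) : Wk R (fun x => v x + u x) := by
  intro ψ hψ h0
  have e : ∀ x, (v x + u x) * bilap ψ x = v x * bilap ψ x + u x * bilap ψ x := fun x => by ring
  simp only [e]
  rw [integral_add (Tst.mul_int cv hψ.bilap) (Tst.mul_int cu hψ.bilap), hv ψ hψ h0, hu ψ hψ h0,
    add_zero]

theorem Wk.cmul {R : Finset ℝ} {v : X a → ℝ} (hv : Wk R v) (c : ℝ) : Wk R (fun x => c * v x) := by
  intro ψ hψ h0
  have e : ∀ x, (c * v x) * bilap ψ x = c * (v x * bilap ψ x) := fun x => by ring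
  simp only [e]
  rw [integral_const_mul, hv ψ hψ h0, mul_zero]

theorem Wk.mono {R R' : Finset ℝ} (h : R ⊆ R') {v : X a → ℝ} (hv : Wk R v) : Wk R' v :=
  fun ψ hψ h0 => hv ψ hψ fun r hr => h0 r (h hr)

theorem Wk.sum (R S : Finset ℝ) {F : ℝ → X a → ℝ} (c : ℝ → ℝ) (h : ∀ r ∈ S, Wk R (F r))
    (hc : ∀ r ∈ S, Continuous (F r)) : Wk R (fun x => ∑ r ∈ S, c r * F r x) := by
  intro ψ hψ h0
  simp only [Finset.sum_mul]
  rw [integral_finsetSum]
  · apply Finset.sum_eq_zero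
    intro r hr
    exact (h r hr).cmul (c r) ψ hψ h0
  · intro r hr
    exact Tst.mul_int (continuous_const.mul (hc r hr)) hψ.bilap

theorem Phe_Wk (ha : 0 < a) {ε : ℝ} (hε : 0 < ε) {R : Finset ℝ} (h : ε ∈ R) : Wk R (Phe a ε) :=
  fun _ hψ h0 => Phe_weq ha hψ hε (h0 ε h)

/-- state of the construction -/
structure St (f0 : X a → ℝ) (R : Finset ℝ) (w : X a → ℝ) (s : ℕ → X a → ℝ) : Prop where
  pos : ∀ r ∈ R, 0 < r
  gs : GS s w
  weq : ∀ ψ : X a → ℝ, Tst ψ → (∀ r ∈ R, ∀ x ∈ Kr a r, ψ x = 0) →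
    ∫ x, w x * bilap ψ x = ∫ x, f0 x * ψ x
  van : ∀ r ∈ R, ∀ x ∈ Kr a r, w x = 0
  big : 1 ≤ |w 0|
  solv : ∀ r ∈ R, ∃ (e : ℕ → X a → ℝ) (F : X a → ℝ), GS e F ∧ Wk R F ∧ (∀ x ∈ Kr a r, F x = 1) ∧
    ∀ r' ∈ R, r' ≠ r → ∀ x ∈ Kr a r', F x = 0

theorem Phe_nonneg (ε : ℝ) (x : X a) : 0 ≤ Phe a ε x := Phi_nonneg _

theorem Phe_far (ha : 0 < a) {ε b : ℝ} (hε : 0 < ε) (hb : 0 < b) (h : 2 * ε ≤ b) {x : X a}
    (hx : b ≤ ‖x‖) : Phe a ε x ≤ 2 * ε / b := by
  have h1 : b / ε ≤ ‖ε⁻¹ • x‖ := by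
    rw [norm_smul, norm_inv, Real.norm_of_nonneg hε.le, div_eq_inv_mul]
    gcongr
  have h2 : 2 ≤ b / ε := by rw [le_div_iff₀ hε]; exact h
  have h3 : b / (2 * ε) ≤ ‖ε⁻¹ • x‖ - 1 := by
    have : b / (2 * ε) = (b / ε) / 2 := by field_simp
    rw [this]
    linarith
  have h5 : 1 ≤ b / (2 * ε) := by rw [le_div_iff₀ (by positivity)]; linarith
  have h4 := Phi_far (a := a) (x := ε⁻¹ • x) (by linarith)
  unfold Phe
  refine h4.trans ?_
  have h6 : b / (2 * ε) ≤ (‖ε⁻¹ • x‖ - 1) ^ (2 * a) := by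
    calc b / (2 * ε) ≤ ‖ε⁻¹ • x‖ - 1 := h3
      _ = (‖ε⁻¹ • x‖ - 1) ^ 1 := (pow_one _).symm
      _ ≤ (‖ε⁻¹ • x‖ - 1) ^ (2 * a) := pow_le_pow_right₀ (by linarith) (by omega)
  calc ((‖ε⁻¹ • x‖ - 1) ^ (2 * a))⁻¹ ≤ (b / (2 * ε))⁻¹ := by gcongr
    _ = 2 * ε / b := by rw [inv_div]

theorem Phe_zero (ε : ℝ) : Phe a ε 0 = 1 := by
  unfold Phe
  rw [smul_zero, Phi_zero]

theorem Phe_pr {ε : ℝ} (hε : 0 < ε) : Phe a ε (pr a ε) = Ac a := by
  unfold Phe pr
  rw [smul_smul, inv_mul_cancel₀ hε.ne', one_smul]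
  exact Phi_one

/-- dyadic radius -/
noncomputable def dy (k : ℕ) : ℝ := ((1 : ℝ) / 2) ^ (k + 1)

theorem dy_pos (k : ℕ) : 0 < dy k := by unfold dy; positivity

theorem dy_tendsto : Tendsto dy atTop (𝓝 0) :=
  (tendsto_pow_atTop_nhds_zero_of_lt_one (by norm_num) (by norm_num)).comp (tendsto_add_atTop_nat 1)

theorem dy_le_half (k : ℕ) : dy k ≤ 1 / 2 := by
  unfold dy
  calc ((1 : ℝ) / 2) ^ (k + 1) ≤ (1 / 2) ^ 1 :=
        pow_le_pow_of_le_one (by norm_num) (by norm_num) (by omega)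
    _ = 1 / 2 := pow_one _

theorem pr_tendsto : Tendsto (fun k => pr a (dy k)) atTop (𝓝 0) := by
  have h := dy_tendsto.smul_const (EuclideanSpace.single 1 (1 : ℝ) : X a)
  rw [zero_smul] at h
  exact h

theorem pr_norm {r : ℝ} (hr : 0 ≤ r) : ‖pr a r‖ = r := (pr_mem (a := a) hr).2

/-- the inductive step -/
theorem step (ha : 0 < a) (hA : Ac a < 1 / 2) {f0 : X a → ℝ} {R : Finset ℝ} {w : X a → ℝ}
    {s : ℕ → X a → ℝ} (hS : St f0 R w s) {δ β : ℝ} (hδ : 0 < δ) (hβ : 0 < β) (k0 : ℕ) :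
    ∃ k : ℕ, k0 < k ∧ dy k < β ∧ ∃ (t : ℕ → X a → ℝ) (D : X a → ℝ),
      (∀ j, Tst (t j)) ∧ (∀ᶠ j in atTop, En (t j) ≤ δ) ∧ (∀ x, β ≤ ‖x‖ → |D x| ≤ δ) ∧
      St f0 (insert (dy k) R) (fun x => w x + D x) (fun j x => s j x + t j x) := by
  classical
  obtain ⟨C, hC0, hPG⟩ := Phe_GS (a := a) ha
  have hA0 := Ac_pos a
  obtain ⟨M, hM0, hM⟩ := hS.gs.bound
  -- choose the cardinal functions
  have hF : ∀ r : ℝ, ∃ (e : ℕ → X a → ℝ) (F : X a → ℝ), r ∈ R → (GS e F ∧ Wk R F ∧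
      (∀ x ∈ Kr a r, F x = 1) ∧ ∀ r' ∈ R, r' ≠ r → ∀ x ∈ Kr a r', F x = 0) := by
    intro r
    by_cases h : r ∈ R
    · obtain ⟨e, F, hh⟩ := hS.solv r h
      exact ⟨e, F, fun _ => hh⟩
    · exact ⟨fun _ _ => 0, fun _ => 0, fun h' => absurd h' h⟩
  choose e F hF using hF
  -- constants
  set m := 2 * (M + 1) / Ac a with hm
  have hm0 : 0 < m := by positivity
  have hg : 1 < |w 0| * |1 - 1 / Ac a| := by
    have h1 : 2 < 1 / Ac a := by rw [lt_div_iff₀ hA0]; linarith
    have h2 : 1 < |1 - 1 / Ac a| := by rw [abs_sub_comm, abs_of_pos (by linarith)]; linarith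
    have := hS.big
    nlinarith
  -- continuity of the new value at 0 in the parameters
  have hlim : Tendsto (fun p : ℝ × ℝ × ℝ => |w 0 - p.1 * (1 - p.2.1) / (Ac a - p.2.2)|)
      (𝓝 (w 0, 0, 0)) (𝓝 (|w 0| * |1 - 1 / Ac a|)) := by
    have e1 : |w 0| * |1 - 1 / Ac a| = |w 0 - w 0 * (1 - 0) / (Ac a - 0)| := by
      rw [← abs_mul, sub_zero, sub_zero]
      congr 1
      ring
    rw [e1]
    have hc : ContinuousAt (fun p : ℝ × ℝ × ℝ => |w 0 - p.1 * (1 - p.2.1) / (Ac a - p.2.2)|)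
        (w 0, 0, 0) := by
      apply ContinuousAt.abs
      apply ContinuousAt.sub continuousAt_const
      apply ContinuousAt.div (by fun_prop) (by fun_prop)
      simp [hA0.ne']
    exact hc.tendsto
  have hev := hlim.eventually (Ioi_mem_nhds hg)
  rw [Metric.eventually_nhds_iff] at hev
  obtain ⟨δ2, hδ2, hev⟩ := hev
  -- smallness parameter for the correction
  set δ1 := min (min (Ac a / 2) (δ2 / 2)) (min (δ / (2 * m)) (δ / (4 * m ^ 2))) with hδ1
  have hδ1p : 0 < δ1 := by positivity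
  obtain ⟨δ', hδ', hcomb⟩ := small_comb R (e := e) (F := F) (fun r hr => (hF r hr).1) δ1 hδ1p
  -- eventually statements
  have ev1 : ∀ᶠ k in atTop, ∀ r ∈ R, |Phe a (dy k) (pr a r)| ≤ δ' := by
    rw [Filter.eventually_all_finset]
    intro r hr
    have hr0 := hS.pos r hr
    have h1 : Tendsto (fun k => 2 * dy k / r) atTop (𝓝 0) := by
      have := (dy_tendsto.const_mul 2).div_const r
      simpa using this
    have h2 := h1.eventually (Iic_mem_nhds hδ')
    have h3 := dy_tendsto.eventually (Iio_mem_nhds (show 0 < r / 2 by positivity))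
    filter_upwards [h2, h3] with k hk1 hk2
    have hk2' : dy k < r / 2 := hk2
    rw [abs_of_nonneg (Phe_nonneg _ _)]
    exact (Phe_far ha (dy_pos k) hr0 (by linarith) (by rw [pr_norm hr0.le])).trans hk1
  have ev2 : ∀ᶠ k in atTop, |w (pr a (dy k)) - w 0| < δ2 := by
    have h1 := (hS.gs.continuous.tendsto 0).comp (pr_tendsto (a := a))
    rw [Metric.tendsto_atTop] at h1
    obtain ⟨N, hN⟩ := h1 δ2 hδ2
    filter_upwards [eventually_ge_atTop N] with k hk
    exact hN k hk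
  have ev3 : ∀ᶠ k in atTop, dy k < β / 2 := dy_tendsto.eventually (Iio_mem_nhds (by positivity))
  have ev4 : ∀ᶠ k in atTop, m * (2 * dy k / β) ≤ δ / 2 := by
    have h1 : Tendsto (fun k => m * (2 * dy k / β)) atTop (𝓝 0) := by
      have := ((dy_tendsto.const_mul 2).div_const β).const_mul m
      simpa using this
    exact h1.eventually (Iic_mem_nhds (by positivity))
  have ev5 : ∀ᶠ k in atTop, m ^ 2 * (2 * (dy k ^ (2 * a) * C)) ≤ δ / 2 := by
    have h1 : Tendsto (fun k => m ^ 2 * (2 * (dy k ^ (2 * a) * C))) atTop (𝓝 0) := by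
      have := (((dy_tendsto.pow (2 * a)).mul_const C).const_mul 2).const_mul (m ^ 2)
      rw [zero_pow (by omega)] at this
      simpa using this
    exact h1.eventually (Iic_mem_nhds (by positivity))
  have ev6 : ∀ᶠ k in atTop, ∀ r ∈ R, dy k < r := by
    rw [Filter.eventually_all_finset]
    intro r hr
    exact dy_tendsto.eventually (Iio_mem_nhds (hS.pos r hr))
  obtain ⟨k, hk0, hk1, hk2, hk3, hk4, hk5, hk6⟩ := ((eventually_gt_atTop k0).and (ev1.and
    (ev2.and (ev3.and (ev4.and (ev5.and ev6)))))).exists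
  set ε := dy k with hε
  have hεp : 0 < ε := dy_pos k
  have hεR : ε ∉ R := fun h => lt_irrefl _ (hk6 ε h)
  obtain ⟨p, hp, hpE⟩ := hPG ε hεp
  -- the correction
  obtain ⟨g1, g2, g3⟩ := hcomb (fun r => Phe a ε (pr a r)) hk1
  set Sx : X a → ℝ := fun x => ∑ r ∈ R, Phe a ε (pr a r) * F r x with hSx
  set sj : ℕ → X a → ℝ := fun j x => ∑ r ∈ R, Phe a ε (pr a r) * e r j x with hsj
  have g3' : ∀ x, |Sx x| ≤ δ1 := g3
  have hT : GS (fun j x => p j x + (-1) * sj j x) (fun x => Phe a ε x + (-1) * Sx x) :=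
    hp.add (g1.cmul (-1))
  set Pt : X a → ℝ := fun x => Phe a ε x + (-1) * Sx x with hPt
  set pt : ℕ → X a → ℝ := fun j x => p j x + (-1) * sj j x with hpt
  have hSxR : ∀ r ∈ R, ∀ x ∈ Kr a r, Sx x = Phe a ε (pr a r) := by
    intro r hr x hx
    rw [hSx]
    simp only
    rw [Finset.sum_eq_single r]
    · rw [(hF r hr).2.2.1 x hx, mul_one]
    · intro r' hr' hne
      rw [(hF r' hr').2.2.2 r hr (Ne.symm hne) x hx, mul_zero]
    · intro h; exact absurd hr h
  have hPtR : ∀ r ∈ R, ∀ x ∈ Kr a r, Pt x = 0 := by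
    intro r hr x hx
    have h1 : Phe a ε x = Phe a ε (pr a r) := (hp.limInv).eq (hS.pos r hr).le hx
    rw [hPt]
    simp only
    rw [hSxR r hr x hx, h1]
    ring
  set v1 := Pt (pr a ε) with hv1
  have hv1e : v1 = Ac a - Sx (pr a ε) := by
    rw [hv1, hPt]
    simp only
    rw [Phe_pr hεp]
    ring
  have hδ1A : δ1 ≤ Ac a / 2 := (min_le_left _ _).trans (min_le_left _ _)
  have hδ1B : δ1 ≤ δ2 / 2 := (min_le_left _ _).trans (min_le_right _ _)
  have hδ1C : δ1 ≤ δ / (2 * m) := (min_le_right _ _).trans (min_le_left _ _)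
  have hδ1D : δ1 ≤ δ / (4 * m ^ 2) := (min_le_right _ _).trans (min_le_right _ _)
  have hv1p : Ac a / 2 ≤ v1 := by
    rw [hv1e]
    have := (abs_le.1 (g3' (pr a ε))).2
    linarith
  have hv1pos : 0 < v1 := by linarith
  have hPtK : ∀ x ∈ Kr a ε, Pt x = v1 := fun x hx => hT.limInv.eq hεp.le hx
  set c := -(w (pr a ε) / v1) with hc
  have hcm : |c| ≤ m := by
    rw [hc, abs_neg, abs_div, abs_of_pos hv1pos, hm, div_le_div_iff₀ hv1pos hA0]
    have h1 := hM (pr a ε)
    calc |w (pr a ε)| * Ac a ≤ (M + 1) * Ac a := by gcongr; linarith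
      _ = 2 * (M + 1) * (Ac a / 2) := by ring
      _ ≤ 2 * (M + 1) * v1 := by gcongr
  have hWkS : Wk (insert ε R) Sx := Wk.sum _ R _
    (fun r hr => (hF r hr).2.1.mono (Finset.subset_insert _ _))
    (fun r hr => (hF r hr).1.continuous)
  have hWkP : Wk (insert ε R) Pt :=
    (Phe_Wk ha hεp (Finset.mem_insert_self _ _)).add (hWkS.cmul (-1)) hp.continuous
      (g1.cmul (-1)).continuous
  have hDGS : GS (fun j x => c * pt j x) (fun x => c * Pt x) := hT.cmul c
  refine ⟨k, hk0, by linarith, fun j x => c * pt j x, fun x => c * Pt x, hDGS.tst, ?_, ?_, ?_⟩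
  · -- energy
    filter_upwards [g2] with j hj
    rw [En_cmul (hT.tst j)]
    have h1 : En (pt j) ≤ 2 * (ε ^ (2 * a) * C) + 2 * δ1 := by
      have h2 := En_add (hp.tst j) ((g1.tst j).cmul (-1))
      rw [En_cmul (g1.tst j)] at h2
      have h3 := hpE j
      have hj' : En (sj j) ≤ δ1 := hj
      have h4 : En (pt j) ≤ 2 * En (p j) + 2 * ((-1) ^ 2 * En (sj j)) := h2
      nlinarith
    have h2 : c ^ 2 ≤ m ^ 2 := by rw [← sq_abs]; gcongr
    calc c ^ 2 * En (pt j) ≤ m ^ 2 * (2 * (ε ^ (2 * a) * C) + 2 * δ1) := by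
          have := En_nonneg (pt j)
          gcongr
      _ = m ^ 2 * (2 * (ε ^ (2 * a) * C)) + 2 * m ^ 2 * δ1 := by ring
      _ ≤ δ / 2 + 2 * m ^ 2 * (δ / (4 * m ^ 2)) := by gcongr
      _ = δ := by field_simp; norm_num
  · -- smallness away from 0
    intro x hx
    have h1 : |Pt x| ≤ 2 * ε / β + δ1 := by
      have h2 := Phe_far (a := a) ha hεp hβ (by linarith) hx
      have h3 := g3' x
      have h4 := Phe_nonneg ε x
      have h5 : Pt x = Phe a ε x - Sx x := by rw [hPt]; ring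
      rw [h5]
      calc |Phe a ε x - Sx x| ≤ |Phe a ε x| + |Sx x| := abs_sub _ _
        _ ≤ _ := by rw [abs_of_nonneg h4]; linarith
    simp only
    rw [abs_mul]
    calc |c| * |Pt x| ≤ m * (2 * ε / β + δ1) := by gcongr
      _ = m * (2 * ε / β) + m * δ1 := by ring
      _ ≤ δ / 2 + m * (δ / (2 * m)) := by gcongr
      _ = δ := by field_simp; norm_num
  · -- new state
    refine ⟨?_, hS.gs.add hDGS, ?_, ?_, ?_, ?_⟩
    · intro r hr
      rcases Finset.mem_insert.1 hr with h | h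
      · rw [h]; exact hεp
      · exact hS.pos r h
    · intro ψ hψ h0
      have e1 : ∀ x, (w x + c * Pt x) * bilap ψ x = w x * bilap ψ x + c * Pt x * bilap ψ x :=
        fun x => by ring
      simp only [e1]
      rw [integral_add (Tst.mul_int hS.gs.continuous hψ.bilap)
        (Tst.mul_int hDGS.continuous hψ.bilap), hWkP.cmul c ψ hψ h0, add_zero]
      exact hS.weq ψ hψ fun r hr => h0 r (Finset.mem_insert_of_mem hr)
    · intro r hr x hx
      simp only
      rcases Finset.mem_insert.1 hr with h | h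
      · rw [h] at hx
        rw [hPtK x hx, hS.gs.limInv.eq hεp.le hx, hc]
        field_simp
        ring
      · rw [hS.van r h x hx, hPtR r h x hx]
        ring
    · have h1 := hev (y := (w (pr a ε), Sx 0, Sx (pr a ε))) (by
        rw [Prod.dist_eq, Prod.dist_eq, max_lt_iff, max_lt_iff]
        refine ⟨hk2, ?_, ?_⟩
        · rw [Real.dist_eq, sub_zero]
          have := g3' 0
          linarith
        · rw [Real.dist_eq, sub_zero]
          have := g3' (pr a ε)
          linarith)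
      simp only at h1
      have e1 : w 0 + c * Pt 0 = w 0 - w (pr a ε) * (1 - Sx 0) / (Ac a - Sx (pr a ε)) := by
        rw [← hv1e]
        have : Pt 0 = 1 - Sx 0 := by rw [hPt]; simp only; rw [Phe_zero]; ring
        rw [this, hc]
        ring
      simp only
      rw [e1]
      exact h1.le
    · -- solvability
      set En0 : X a → ℝ := fun x => v1⁻¹ * Pt x with hEn0
      have hnew : GS (fun j x => v1⁻¹ * pt j x) En0 := hT.cmul _
      have hnewW : Wk (insert ε R) En0 := hWkP.cmul _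
      have hnewK : ∀ x ∈ Kr a ε, En0 x = 1 := by
        intro x hx
        rw [hEn0]
        simp only
        rw [hPtK x hx, inv_mul_cancel₀ hv1pos.ne']
      have hnewR : ∀ r ∈ R, ∀ x ∈ Kr a r, En0 x = 0 := by
        intro r hr x hx
        rw [hEn0]
        simp only
        rw [hPtR r hr x hx, mul_zero]
      intro r hr
      rcases Finset.mem_insert.1 hr with h | h
      · refine ⟨_, En0, hnew, hnewW, ?_, ?_⟩
        · rw [h]; exact hnewK
        · intro r' hr' hne x hx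
          rcases Finset.mem_insert.1 hr' with h' | h'
          · exact absurd (h'.trans h.symm) hne
          · exact hnewR r' h' x hx
      · obtain ⟨f1, f2, f3, f4⟩ := hF r h
        refine ⟨fun j x => e r j x + (-(F r (pr a ε))) * (v1⁻¹ * pt j x),
          fun x => F r x + (-(F r (pr a ε))) * En0 x, f1.add (hnew.cmul _), ?_, ?_, ?_⟩
        · exact (f2.mono (Finset.subset_insert _ _)).add (hnewW.cmul _) f1.continuous
            (hnew.cmul (-(F r (pr a ε)))).continuous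
        · intro x hx
          simp only
          rw [f3 x hx, hnewR r h x hx]
          ring
        · intro r' hr' hne x hx
          simp only
          rcases Finset.mem_insert.1 hr' with h' | h'
          · rw [h'] at hx
            rw [hnewK x hx, f1.limInv.eq hεp.le hx]
            ring
          · rw [f4 r' h' hne x hx, hnewR r' h' x hx]
            ring

end Pool.Agent.Helper749.Bi
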